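import Mathlib

/-!
# TH, L1: linear algebra
-/

set_option autoImplicit false
set_option linter.unusedSectionVars false

open Module

namespace Pool.Agent.Lib.MP_5e7226_co.TH

/-- PROOF. The unit sphere of `W` is compact and nonempty, `a ↦ B a a` is continuous (`W` is finite dimensional): let `κ` be the maximum. `B a a ≤ κ ‖a‖ ^ 2` by homogeneity. `κ ≥ 0`. Let `V` be the
set of the `a` with `B a a = κ ‖a‖ ^ 2`: the form `q a = κ ‖a‖ ^ 2 - B a a` is `≥ 0` and `q (a + b) + q (a - b) = 2 q a + 2 q b`, `q (c a) = c ^ 2 q a`, so `V` is a subspace, it is not `⊥` and it is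
invariant under `G`. For an orthonormal basis of `V` (`stdOrthonormalBasis ℝ V`, `n = finrank ℝ V ≥ r` vectors): `κ n = ∑ B (g j) (g j) ≤ T`. -/
theorem exists_kappa {W : Type} [NormedAddCommGroup W] [InnerProductSpace ℝ W]
    [FiniteDimensional ℝ W] [Nontrivial W] (B : W →ₗ[ℝ] W →ₗ[ℝ] ℝ) (hB : ∀ a, 0 ≤ B a a) {T : ℝ}
    (hT : ∀ (n : ℕ) (g : Fin n → W), Orthonormal ℝ g → ∑ j, B (g j) (g j) ≤ T)
    (G : Set (W →ₗ[ℝ] W)) (hG : ∀ h ∈ G, ∀ a, ‖h a‖ = ‖a‖ ∧ B (h a) (h a) = B a a) {r : ℕ}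
    (hr : ∀ V : Submodule ℝ W, V ≠ ⊥ → (∀ h ∈ G, ∀ a ∈ V, h a ∈ V) → r ≤ finrank ℝ V) :
    ∃ κ : ℝ, 0 ≤ κ ∧ (∀ a, B a a ≤ κ * ‖a‖ ^ 2) ∧ κ * r ≤ T := by
  classical
  have hcont : Continuous fun a : W => B a a := by
    let b := Module.finBasis ℝ W
    have e0 : ∀ a c : W, B a c = ∑ i, b.repr a i * B (b i) c := by
      intro a c
      conv_lhs => rw [← b.sum_repr a]
      simp only [map_sum, map_smul, LinearMap.sum_apply, LinearMap.smul_apply, smul_eq_mul]
    have e : (fun a : W => B a a) = fun a => ∑ i, b.repr a i * B (b i) a := by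
      funext a
      exact e0 a a
    rw [e]
    refine continuous_finsetSum _ fun i _ => ?_
    refine Continuous.mul ?_ (B (b i)).continuous_of_finiteDimensional
    exact (b.coord i).continuous_of_finiteDimensional
  have hsph : (Metric.sphere (0 : W) 1).Nonempty := NormedSpace.sphere_nonempty.2 zero_le_one
  obtain ⟨a₀, ha₀, hmax⟩ := (isCompact_sphere (0 : W) 1).exists_isMaxOn hsph hcont.continuousOn
  have hna₀ : ‖a₀‖ = 1 := by simpa using ha₀
  set κ : ℝ := B a₀ a₀ with hκ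
  have hκ0 : 0 ≤ κ := hB a₀
  have hle : ∀ a, B a a ≤ κ * ‖a‖ ^ 2 := by
    intro a
    rcases eq_or_ne a 0 with rfl | ha
    · simp
    · have hn : 0 < ‖a‖ := norm_pos_iff.2 ha
      have h1 : (‖a‖⁻¹ • a) ∈ Metric.sphere (0 : W) 1 := by
        simp [norm_smul, hn.ne']
      have h2 : B (‖a‖⁻¹ • a) (‖a‖⁻¹ • a) ≤ κ := hmax h1
      simp only [map_smul, LinearMap.smul_apply, smul_eq_mul] at h2
      have h3 : ‖a‖⁻¹ * (‖a‖⁻¹ * B a a) * ‖a‖ ^ 2 ≤ κ * ‖a‖ ^ 2 :=
        mul_le_mul_of_nonneg_right h2 (by positivity)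
      have h4 : ‖a‖⁻¹ * (‖a‖⁻¹ * B a a) * ‖a‖ ^ 2 = B a a := by
        field_simp
      linarith
  have hpar : ∀ a b : W, ‖a + b‖ ^ 2 + ‖a - b‖ ^ 2 = 2 * (‖a‖ ^ 2 + ‖b‖ ^ 2) := by
    intro a b
    have := parallelogram_law_with_norm ℝ a b
    nlinarith [this]
  let V : Submodule ℝ W :=
    { carrier := {a | B a a = κ * ‖a‖ ^ 2}
      zero_mem' := by simp
      add_mem' := by
        intro a b ha hb
        simp only [Set.mem_setOf_eq] at ha hb ⊢
        have h1 := hle (a + b)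
        have h2 := hle (a - b)
        have h3 : B (a + b) (a + b) + B (a - b) (a - b) = 2 * (B a a + B b b) := by
          simp only [map_add, map_sub, LinearMap.add_apply, LinearMap.sub_apply]
          ring
        have h4 := hpar a b
        have h5 : κ * ‖a + b‖ ^ 2 + κ * ‖a - b‖ ^ 2 = 2 * (κ * ‖a‖ ^ 2 + κ * ‖b‖ ^ 2) := by
          rw [← mul_add, h4]; ring
        linarith
      smul_mem' := by
        intro c a ha
        simp only [Set.mem_setOf_eq] at ha ⊢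
        simp only [map_smul, LinearMap.smul_apply, smul_eq_mul, ha, norm_smul, Real.norm_eq_abs,
          mul_pow, sq_abs]
        ring }
  have hmem : ∀ a, a ∈ V ↔ B a a = κ * ‖a‖ ^ 2 := fun a => Iff.rfl
  have hVne : V ≠ ⊥ := by
    intro h
    have h1 : a₀ ∈ V := by
      rw [hmem, hna₀]; simp [hκ]
    rw [h, Submodule.mem_bot] at h1
    rw [h1] at hna₀
    simp at hna₀
  have hinv : ∀ h ∈ G, ∀ a ∈ V, h a ∈ V := by
    intro h hh a ha
    rw [hmem] at ha ⊢
    rw [(hG h hh a).1, (hG h hh a).2, ha]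
  have hrk := hr V hVne hinv
  let g := stdOrthonormalBasis ℝ V
  have hon : Orthonormal ℝ fun j => ((g j : V) : W) :=
    g.orthonormal.comp_linearIsometry V.subtypeₗᵢ
  have hsum := hT (finrank ℝ V) (fun j => ((g j : V) : W)) hon
  have e1 : ∑ j, B ((g j : V) : W) ((g j : V) : W) = κ * finrank ℝ V := by
    have : ∀ j, B ((g j : V) : W) ((g j : V) : W) = κ := by
      intro j
      have h1 : ((g j : V) : W) ∈ V := (g j).2
      rw [hmem] at h1
      rw [h1, hon.1 j]; ring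
    rw [Finset.sum_congr rfl fun j _ => this j]
    simp [mul_comm]
  refine ⟨κ, hκ0, hle, ?_⟩
  have hrk' : (r : ℝ) ≤ (finrank ℝ V : ℝ) := by exact_mod_cast hrk
  calc κ * r ≤ κ * finrank ℝ V := mul_le_mul_of_nonneg_left hrk' hκ0
    _ = ∑ j, B ((g j : V) : W) ((g j : V) : W) := e1.symm
    _ ≤ T := hsum

end Pool.Agent.Lib.MP_5e7226_co.TH
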