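import Pool.Agent.Lib.MP_5e7226_co.TH.F4

/-!
# TH, F5: the theorems for bodies
-/

set_option autoImplicit false
set_option linter.unusedSectionVars false

open MeasureTheory Set Module Metric
open scoped InnerProductSpace

namespace Pool.Agent.Lib.MP_5e7226_co.TH

variable {d : ℕ} {K : Set (EuclideanSpace ℝ (Fin d))} {o : EuclideanSpace ℝ (Fin d)}

/-- Bodies of small thickness. -/
theorem body_thick (hd2 : 2 ≤ d) (hKk : IsCompact K) (ho : o ∈ interior K)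
    (hsym : ∀ x ∈ K, (2 : ℝ) • o - x ∈ K) {L : ℝ} (hLd : 2 * L + 1 ≤ d)
    (hT : 9000000 * L ^ 4 * thick K o < 1) :
    ∃ (k : ℕ), (k : ℝ) ≤ 32 * d * Real.log (9 * d) * 2 ^ d * Real.exp (-L) + 1 ∧
      ∃ (w : Fin k → EuclideanSpace ℝ (Fin d)) (b : Fin k → ℝ),
      ∀ u x₀ : EuclideanSpace ℝ (Fin d), u ≠ 0 → x₀ ∈ K →
        (∀ y ∈ K, ⟪u, y⟫_ℝ ≤ ⟪u, x₀⟫_ℝ) →
          ∃ i, ⟪w i, o⟫_ℝ < b i ∧ ∀ x ∈ K, ⟪u, x⟫_ℝ = ⟪u, x₀⟫_ℝ → b i < ⟪w i, x⟫_ℝ := by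
  obtain ⟨F, i1, i2, e, hs, h1, h2⟩ := exists_space hKk ho hsym
  have hfd : FiniteDimensional ℝ F := Module.Finite.equiv e
  borelize F
  have hμ := haar_map e
  have hP := polar_eq e h1 h2
  have hd : finrank ℝ F = d := by
    rw [← e.finrank_eq]
    simp
  rw [← TT_map e hs hP] at hT
  obtain ⟨k, w, hk, hw⟩ := thick_normed _ hd hd2 hLd hT
  exact ⟨k, hk, sep_of_cover (by omega) e h1 h2 w hw⟩

section

variable {F : Type} [NormedAddCommGroup F] [NormedSpace ℝ F]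

/-- The linear map of an outer ellipsoid. -/
theorem outer_equiv (e : EuclideanSpace ℝ (Fin d) ≃ₗ[ℝ] F)
    (h2 : ∀ v, ∃ x ∈ K, ⟪v, x - o⟫_ℝ = ‖e v‖)
    (A : EuclideanSpace ℝ (Fin d) →ₗ[ℝ] EuclideanSpace ℝ (Fin d))
    (hA : ∀ x ∈ K, ∀ v, ⟪v, x - o⟫_ℝ ≤ ‖A v‖) :
    ∃ A' : F ≃ₗ[ℝ] EuclideanSpace ℝ (Fin d), (∀ v, A' (e v) = A v) ∧ ∀ w, ‖w‖ ≤ ‖A' w‖ := by
  have h3 : ∀ v, ‖e v‖ ≤ ‖A v‖ := by
    intro v
    obtain ⟨x, hx, hxe⟩ := h2 v
    rw [← hxe]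
    exact hA x hx v
  have hinj : Function.Injective A := by
    rw [← LinearMap.ker_eq_bot, LinearMap.ker_eq_bot']
    intro v hv
    have h4 := h3 v
    rw [hv, norm_zero] at h4
    have h5 : e v = 0 := norm_le_zero_iff.1 h4
    simpa using h5
  refine ⟨e.symm.trans (LinearEquiv.ofInjectiveEndo A hinj), fun v => ?_, fun w => ?_⟩
  · rw [LinearEquiv.trans_apply, e.symm_apply_apply]
    rfl
  · rw [LinearEquiv.trans_apply]
    have h4 := h3 (e.symm w)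
    rw [e.apply_symm_apply] at h4
    exact h4

end

/-- Many symmetries. -/
theorem body_sym (hd2 : 2 ≤ d) (hKk : IsCompact K) (ho : o ∈ interior K)
    (hsym : ∀ x ∈ K, (2 : ℝ) • o - x ∈ K) {r : ℕ} (hr0 : 0 < r)
    (hr : ∀ V : Submodule ℝ (EuclideanSpace ℝ (Fin d)), V ≠ ⊥ →
      (∀ g : EuclideanSpace ℝ (Fin d) ≃ₗ[ℝ] EuclideanSpace ℝ (Fin d),
        (∀ x, o + x ∈ K ↔ o + g x ∈ K) → ∀ v ∈ V, g v ∈ V) → r ≤ finrank ℝ V)
    (A : EuclideanSpace ℝ (Fin d) →ₗ[ℝ] EuclideanSpace ℝ (Fin d))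
    (hA : ∀ x ∈ K, ∀ v, ⟪v, x - o⟫_ℝ ≤ ‖A v‖) :
    thick K o * r ≤ ⨍ v in polarSet K o, ‖A v‖ ^ 2 := by
  obtain ⟨F, i1, i2, e, hs, h1, h2⟩ := exists_space hKk ho hsym
  have hfd : FiniteDimensional ℝ F := Module.Finite.equiv e
  borelize F
  have hμ := haar_map e
  have hP := polar_eq e h1 h2
  have hd : finrank ℝ F = d := by
    rw [← e.finrank_eq]
    simp
  have hnt : Nontrivial F := Module.nontrivial_of_finrank_pos (R := ℝ) (by omega)
  obtain ⟨A', hA1, hA2⟩ := outer_equiv e h2 A hA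
  rw [← TT_map e hs hP]
  refine TT_symQ _ hr0 (sym_transfer e h1 h2 hr) A' hA2 (le_of_eq ?_)
  rw [M_map e hP]
  congr 1
  funext v
  rw [hA1]

/-- Unconditional bodies. -/
theorem body_unc (hd2 : 2 ≤ d) (hKk : IsCompact K) (ho : o ∈ interior K)
    (hsym : ∀ x ∈ K, (2 : ℝ) • o - x ∈ K)
    (b : Basis (Fin d) ℝ (EuclideanSpace ℝ (Fin d)))
    (hb : ∀ i x, o + x ∈ K → o + (x - (2 * b.coord i x) • b i) ∈ K)
    (A : EuclideanSpace ℝ (Fin d) →ₗ[ℝ] EuclideanSpace ℝ (Fin d))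
    (hA : ∀ x ∈ K, ∀ v, ⟪v, x - o⟫_ℝ ≤ ‖A v‖) :
    thick K o ^ 2 * d ≤ 72 * ⨍ v in polarSet K o, ‖A v‖ ^ 2 := by
  obtain ⟨F, i1, i2, e, hs, h1, h2⟩ := exists_space hKk ho hsym
  have hfd : FiniteDimensional ℝ F := Module.Finite.equiv e
  borelize F
  have hμ := haar_map e
  have hP := polar_eq e h1 h2
  have hd : finrank ℝ F = d := by
    rw [← e.finrank_eq]
    simp
  obtain ⟨A', hA1, hA2⟩ := outer_equiv e h2 A hA
  obtain ⟨c, hc⟩ := unc_transfer e h1 h2 b hb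
  have h3 := hc.TT_sqQ (Measure.map e (volume : Measure (EuclideanSpace ℝ (Fin d))))
    (by rw [hd]; exact hd2) A' hA2 le_rfl
  rw [hd, TT_map e hs hP, M_map e hP] at h3
  simp_rw [hA1] at h3
  exact h3

/-- Bodies between two homothetic ellipsoids. -/
theorem near_outer (hKk : IsCompact K) (ho : o ∈ interior K)
    (hsym : ∀ x ∈ K, (2 : ℝ) • o - x ∈ K) {D : ℝ}
    (A : EuclideanSpace ℝ (Fin d) →ₗ[ℝ] EuclideanSpace ℝ (Fin d))
    (hA1 : ∀ b, ‖b‖ ≤ 1 → o + A b ∈ K) (hA2 : ∀ x ∈ K, ∃ b, ‖b‖ ≤ 1 ∧ x = o + D • A b) :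
    ∃ A' : EuclideanSpace ℝ (Fin d) →ₗ[ℝ] EuclideanSpace ℝ (Fin d),
      (∀ x ∈ K, ∀ v, ⟪v, x - o⟫_ℝ ≤ ‖A' v‖) ∧ ⨍ v in polarSet K o, ‖A' v‖ ^ 2 ≤ D ^ 2 := by
  have hadj : ∀ v b, ⟪LinearMap.adjoint A v, b⟫_ℝ = ⟪v, A b⟫_ℝ := fun v b =>
    LinearMap.adjoint_inner_left _ _ _
  refine ⟨D • LinearMap.adjoint A, fun x hx v => ?_, ?_⟩
  · obtain ⟨b, hb, rfl⟩ := hA2 x hx
    rw [add_sub_cancel_left, inner_smul_right, ← hadj, LinearMap.smul_apply, norm_smul,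
      Real.norm_eq_abs]
    calc D * ⟪LinearMap.adjoint A v, b⟫_ℝ ≤ |D * ⟪LinearMap.adjoint A v, b⟫_ℝ| := le_abs_self _
      _ = |D| * |⟪LinearMap.adjoint A v, b⟫_ℝ| := abs_mul _ _
      _ ≤ |D| * (‖LinearMap.adjoint A v‖ * ‖b‖) :=
          mul_le_mul_of_nonneg_left (abs_real_inner_le_norm _ _) (abs_nonneg _)
      _ ≤ |D| * (‖LinearMap.adjoint A v‖ * 1) := by gcongr
      _ = |D| * ‖LinearMap.adjoint A v‖ := by rw [mul_one]
  · obtain ⟨F, i1, i2, e, hs, h1, h2⟩ := exists_space hKk ho hsym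
    have hfd : FiniteDimensional ℝ F := Module.Finite.equiv e
    borelize F
    have hμ := haar_map e
    have hP := polar_eq e h1 h2
    have h3 : ∀ v : EuclideanSpace ℝ (Fin d), ‖e v‖ ≤ 1 → ‖LinearMap.adjoint A v‖ ≤ 1 := by
      intro v hv
      rcases (norm_nonneg (LinearMap.adjoint A v)).eq_or_lt with h | h
      · rw [← h]
        norm_num
      · set n := ‖LinearMap.adjoint A v‖ with hn
        have h4 := hA1 (n⁻¹ • LinearMap.adjoint A v) (by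
          rw [norm_smul, norm_inv, Real.norm_eq_abs, abs_of_pos h, ← hn, inv_mul_cancel₀ h.ne'])
        have h5 := ((le_abs_self _).trans (h1 v _ h4)).trans hv
        rw [add_sub_cancel_left, ← hadj, inner_smul_right, real_inner_self_eq_norm_sq, ← hn] at h5
        have h6 : n⁻¹ * n ^ 2 = n := by
          field_simp
        rwa [h6] at h5
    let G : F → ℝ := fun w => ‖(D • LinearMap.adjoint A) (e.symm w)‖ ^ 2
    have hG : ⨍ v in polarSet K o, ‖(D • LinearMap.adjoint A) v‖ ^ 2 =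
        M (Measure.map e (volume : Measure (EuclideanSpace ℝ (Fin d)))) G := by
      rw [M_map e hP]
      congr 1
      funext v
      show _ = ‖(D • LinearMap.adjoint A) (e.symm (e v))‖ ^ 2
      rw [e.symm_apply_apply]
    rw [hG]
    have hc : Continuous G := by
      have : Continuous fun w : F => (D • LinearMap.adjoint A) (e.symm w) :=
        ((D • LinearMap.adjoint A) ∘ₗ
          (e.symm : F →ₗ[ℝ] EuclideanSpace ℝ (Fin d))).continuous_of_finiteDimensional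
      exact this.norm.pow 2
    have hle : ∀ w : F, ‖w‖ ≤ 1 → G w ≤ D ^ 2 := by
      intro w hw
      show ‖(D • LinearMap.adjoint A) (e.symm w)‖ ^ 2 ≤ D ^ 2
      rw [LinearMap.smul_apply, norm_smul, mul_pow, Real.norm_eq_abs, sq_abs]
      have h4 := h3 (e.symm w) (by rwa [e.apply_symm_apply])
      have h5 : ‖LinearMap.adjoint A (e.symm w)‖ ^ 2 ≤ 1 := pow_le_one₀ (norm_nonneg _) h4
      nlinarith [sq_nonneg D]
    have hBG : Bd G := by
      refine ⟨hc.measurable, D ^ 2, fun w hw => ?_⟩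
      rw [abs_of_nonneg (by positivity : 0 ≤ G w)]
      exact hle w hw
    calc M (Measure.map e (volume : Measure (EuclideanSpace ℝ (Fin d)))) G
        ≤ M (Measure.map e (volume : Measure (EuclideanSpace ℝ (Fin d)))) (fun _ => D ^ 2) :=
          M_mono _ hBG (Bd.const _) hle
      _ = D ^ 2 := M_const _ _

/-- Numerics. -/
theorem num {d : ℕ} (hd : 200 ≤ d) :
    2 * (3 * Real.log d) + 1 ≤ d ∧
    32 * d * Real.log (9 * d) * 2 ^ d * Real.exp (-(3 * Real.log d)) + 1 ≤ 2 ^ d / 2 := by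
  have hd' : (200 : ℝ) ≤ d := by exact_mod_cast hd
  have hd0 : (0 : ℝ) < d := by linarith
  have hs0 : 0 < √(d : ℝ) := Real.sqrt_pos.2 hd0
  have hs2 : √(d : ℝ) ^ 2 = d := Real.sq_sqrt hd0.le
  have hs14 : (14 : ℝ) ≤ √(d : ℝ) := by
    rw [Real.le_sqrt (by norm_num) hd0.le]
    linarith
  have hlog : Real.log d ≤ 2 * (√(d : ℝ) - 1) := by
    have h1 := Real.log_le_sub_one_of_pos hs0
    have h2 : Real.log d = 2 * Real.log √(d : ℝ) := by
      rw [← Real.log_rpow hs0]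
      norm_num
    linarith
  have hlog9 : Real.log (9 * d) ≤ 6 * √(d : ℝ) := by
    have h0 : 0 < 3 * √(d : ℝ) := by positivity
    have h1 := Real.log_le_sub_one_of_pos h0
    have h2 : Real.log (9 * d) = 2 * Real.log (3 * √(d : ℝ)) := by
      rw [← Real.log_rpow h0]
      congr 1
      have : (3 * √(d : ℝ)) ^ (2 : ℝ) = (3 * √(d : ℝ)) ^ 2 := by norm_cast
      rw [this, mul_pow, hs2]
      norm_num
    linarith
  constructor
  · nlinarith
  · have hexp : Real.exp (-(3 * Real.log d)) = ((d : ℝ) ^ 3)⁻¹ := by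
      rw [Real.exp_neg]
      congr 1
      have : 3 * Real.log d = Real.log ((d : ℝ) ^ 3) := by
        rw [Real.log_pow]
        norm_num
      rw [this, Real.exp_log (by positivity)]
    rw [hexp]
    have hp : (4 : ℝ) ≤ 2 ^ d := by
      calc (4 : ℝ) = 2 ^ 2 := by norm_num
        _ ≤ 2 ^ d := pow_le_pow_right₀ (by norm_num) (by omega)
    have h1 : 32 * d * Real.log (9 * d) * ((d : ℝ) ^ 3)⁻¹ ≤ 1 / 4 := by
      rw [← div_eq_mul_inv, div_le_iff₀ (by positivity)]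
      have h2 : 32 * d * Real.log (9 * d) ≤ 32 * d * (6 * √(d : ℝ)) :=
        mul_le_mul_of_nonneg_left hlog9 (by positivity)
      have h3 : 32 * (d : ℝ) * (6 * √(d : ℝ)) ≤ 1 / 4 * (d : ℝ) ^ 3 := by
        have h4 : (768 : ℝ) * √(d : ℝ) ≤ (d : ℝ) ^ 2 := by
          have h5 : (d : ℝ) ^ 2 = √(d : ℝ) ^ 3 * √(d : ℝ) := by
            rw [← hs2]
            simp only [Real.sqrt_sq hs0.le]
            ring
          rw [h5]
          have h6 : (14 : ℝ) ^ 3 ≤ √(d : ℝ) ^ 3 := pow_le_pow_left₀ (by norm_num) hs14 3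
          nlinarith
        nlinarith
      linarith
    have h2 : 32 * d * Real.log (9 * d) * 2 ^ d * ((d : ℝ) ^ 3)⁻¹ =
        32 * d * Real.log (9 * d) * ((d : ℝ) ^ 3)⁻¹ * 2 ^ d := by ring
    rw [h2]
    have h3 := mul_le_mul_of_nonneg_right h1 (by positivity : (0 : ℝ) ≤ 2 ^ d)
    linarith

/-- `Q1` for small thickness. -/
theorem body_half (hd : 200 ≤ d) (hKk : IsCompact K) (ho : o ∈ interior K)
    (hsym : ∀ x ∈ K, (2 : ℝ) • o - x ∈ K)
    (hT : 10 ^ 9 * Real.log d ^ 4 * thick K o < 1) (hT0 : 0 ≤ thick K o) :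
    ∃ (k : ℕ), (k : ℝ) ≤ 2 ^ d / 2 ∧
      ∃ (w : Fin k → EuclideanSpace ℝ (Fin d)) (b : Fin k → ℝ),
      ∀ u x₀ : EuclideanSpace ℝ (Fin d), u ≠ 0 → x₀ ∈ K →
        (∀ y ∈ K, ⟪u, y⟫_ℝ ≤ ⟪u, x₀⟫_ℝ) →
          ∃ i, ⟪w i, o⟫_ℝ < b i ∧ ∀ x ∈ K, ⟪u, x⟫_ℝ = ⟪u, x₀⟫_ℝ → b i < ⟪w i, x⟫_ℝ := by
  obtain ⟨h1, h2⟩ := num hd
  obtain ⟨k, hk, h3⟩ := body_thick (by omega) hKk ho hsym h1 (by
    have h4 : 9000000 * (3 * Real.log d) ^ 4 * thick K o =
        729000000 * (Real.log d ^ 4 * thick K o) := by ring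
    have h5 : 0 ≤ Real.log d ^ 4 * thick K o := by positivity
    rw [h4]
    have h6 : (10 : ℝ) ^ 9 * Real.log d ^ 4 * thick K o =
        1000000000 * (Real.log d ^ 4 * thick K o) := by ring
    rw [h6] at hT
    linarith)
  exact ⟨k, hk.trans h2, h3⟩

theorem thick_nonneg : 0 ≤ thick K o := by
  unfold thick
  rw [setAverage_eq]
  refine smul_nonneg (by positivity) (integral_nonneg fun u => ?_)
  rw [setAverage_eq]
  exact smul_nonneg (by positivity) (integral_nonneg fun v => sq_nonneg _)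

end Pool.Agent.Lib.MP_5e7226_co.TH
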