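import Mathlib

/-!
# TH, Basic: means over the unit ball of a finite dimensional normed space

`Bd F`: the function `F` is measurable and bounded on the unit ball. `M μ F`: the mean of `F` over
the unit ball. `nD u`: the derivative of the norm at `u`. `XV μ x t`: the measure of the `u` in the
unit ball with `‖u + t x‖ > 1`.
-/

set_option autoImplicit false
set_option linter.unusedSectionVars false

open MeasureTheory Set Module Metric

namespace Pool.Agent.Lib.MP_5e7226_co.TH

variable {E : Type} [NormedAddCommGroup E] [NormedSpace ℝ E]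

/-- Measurable and bounded on the unit ball. -/
def Bd [MeasurableSpace E] (F : E → ℝ) : Prop :=
  Measurable F ∧ ∃ C : ℝ, ∀ u : E, ‖u‖ ≤ 1 → |F u| ≤ C

/-- The mean over the unit ball. -/
noncomputable def M [MeasurableSpace E] (μ : Measure E) (F : E → ℝ) : ℝ :=
  (μ.real (closedBall (0 : E) 1))⁻¹ * ∫ u in closedBall (0 : E) 1, F u ∂μ

/-- The derivative of the norm. -/
noncomputable def nD (u : E) : E →L[ℝ] ℝ := fderiv ℝ (fun v : E => ‖v‖) u

/-- The exit volume. -/
noncomputable def XV [MeasurableSpace E] (μ : Measure E) (x : E) (t : ℝ) : ℝ :=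
  μ.real {u : E | ‖u‖ ≤ 1 ∧ 1 < ‖u + t • x‖}

section

variable [FiniteDimensional ℝ E] [MeasurableSpace E] [BorelSpace E] (μ : Measure E)
  [μ.IsAddHaarMeasure]

theorem vol_pos : 0 < μ.real (closedBall (0 : E) 1) := by
  unfold Measure.real
  exact ENNReal.toReal_pos (measure_closedBall_pos μ 0 one_pos).ne' measure_closedBall_lt_top.ne

theorem Bd.neg {F : E → ℝ} (hF : Bd F) : Bd fun u => -F u := by
  obtain ⟨h1, C, hC⟩ := hF
  exact ⟨h1.neg, C, fun u hu => by rw [abs_neg]; exact hC u hu⟩

theorem Bd.add {F G : E → ℝ} (hF : Bd F) (hG : Bd G) : Bd fun u => F u + G u := by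
  obtain ⟨h1, C, hC⟩ := hF
  obtain ⟨h2, C', hC'⟩ := hG
  exact ⟨h1.add h2, C + C', fun u hu => (abs_add_le _ _).trans (add_le_add (hC u hu) (hC' u hu))⟩

theorem Bd.sub {F G : E → ℝ} (hF : Bd F) (hG : Bd G) : Bd fun u => F u - G u := by
  obtain ⟨h1, C, hC⟩ := hF
  obtain ⟨h2, C', hC'⟩ := hG
  exact ⟨h1.sub h2, C + C', fun u hu => (abs_sub _ _).trans (add_le_add (hC u hu) (hC' u hu))⟩

theorem Bd.mul {F G : E → ℝ} (hF : Bd F) (hG : Bd G) : Bd fun u => F u * G u := by
  obtain ⟨h1, C, hC⟩ := hF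
  obtain ⟨h2, C', hC'⟩ := hG
  refine ⟨h1.mul h2, |C| * |C'|, fun u hu => ?_⟩
  rw [abs_mul]
  exact mul_le_mul ((hC u hu).trans (le_abs_self _)) ((hC' u hu).trans (le_abs_self _))
    (abs_nonneg _) (abs_nonneg _)

theorem Bd.const (c : ℝ) : Bd fun _ : E => c := ⟨measurable_const, |c|, fun _ _ => le_rfl⟩

theorem Bd.pow {F : E → ℝ} (hF : Bd F) (n : ℕ) : Bd fun u => F u ^ n := by
  induction n with
  | zero => simpa using Bd.const (E := E) 1
  | succ n ih =>
    simp_rw [pow_succ]
    exact ih.mul hF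

theorem Bd.abs {F : E → ℝ} (hF : Bd F) : Bd fun u => |F u| := by
  obtain ⟨h1, C, hC⟩ := hF
  exact ⟨measurable_norm.comp h1, C, fun u hu => by rw [abs_abs]; exact hC u hu⟩

theorem Bd.sum {ι : Type} (s : Finset ι) {F : ι → E → ℝ} (hF : ∀ i ∈ s, Bd (F i)) :
    Bd fun u => ∑ i ∈ s, F i u := by
  classical
  induction s using Finset.induction_on with
  | empty => simpa using Bd.const (E := E) 0
  | insert a s ha ih =>
    simp_rw [Finset.sum_insert ha]
    exact (hF a (Finset.mem_insert_self a s)).add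
      (ih fun i hi => hF i (Finset.mem_insert_of_mem hi))

theorem Bd.indicator {S : Set E} (hS : MeasurableSet S) : Bd (S.indicator fun _ => (1 : ℝ)) := by
  refine ⟨measurable_const.indicator hS, 1, fun u _ => ?_⟩
  by_cases h : u ∈ S
  · rw [indicator_of_mem h]; simp
  · rw [indicator_of_notMem h]; simp

theorem Bd.lin (g : E →ₗ[ℝ] ℝ) : Bd fun u => g u := by
  have hc : Continuous fun u => g u := g.continuous_of_finiteDimensional
  refine ⟨hc.measurable, ‖LinearMap.toContinuousLinearMap g‖, fun u hu => ?_⟩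
  have h1 := (LinearMap.toContinuousLinearMap g).le_opNorm u
  have h2 : ‖(LinearMap.toContinuousLinearMap g) u‖ = |g u| := Real.norm_eq_abs _
  rw [h2] at h1
  exact h1.trans (mul_le_of_le_one_right (norm_nonneg _) hu)

theorem Bd.integrable {F : E → ℝ} (hF : Bd F) : IntegrableOn F (closedBall (0 : E) 1) μ := by
  obtain ⟨h1, C, hC⟩ := hF
  refine Measure.integrableOn_of_bounded (M := C) measure_closedBall_lt_top.ne
    h1.aestronglyMeasurable ?_
  filter_upwards [ae_restrict_mem measurableSet_closedBall] with u hu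
  rw [Real.norm_eq_abs]
  exact hC u (mem_closedBall_zero_iff.1 hu)

theorem M_add {F G : E → ℝ} (hF : Bd F) (hG : Bd G) :
    M μ (fun u => F u + G u) = M μ F + M μ G := by
  unfold M
  rw [integral_add (hF.integrable μ) (hG.integrable μ), mul_add]

theorem M_sub {F G : E → ℝ} (hF : Bd F) (hG : Bd G) :
    M μ (fun u => F u - G u) = M μ F - M μ G := by
  unfold M
  rw [integral_sub (hF.integrable μ) (hG.integrable μ), mul_sub]

theorem M_mul_left (c : ℝ) (F : E → ℝ) : M μ (fun u => c * F u) = c * M μ F := by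
  unfold M
  rw [integral_const_mul]
  ring

theorem M_mul_right (c : ℝ) (F : E → ℝ) : M μ (fun u => F u * c) = M μ F * c := by
  unfold M
  rw [integral_mul_const]
  ring

theorem M_const (c : ℝ) : M μ (fun _ : E => c) = c := by
  unfold M
  rw [setIntegral_const, smul_eq_mul, ← mul_assoc, inv_mul_cancel₀ (vol_pos μ).ne', one_mul]

theorem M_sum {ι : Type} (s : Finset ι) {F : ι → E → ℝ} (hF : ∀ i ∈ s, Bd (F i)) :
    M μ (fun u => ∑ i ∈ s, F i u) = ∑ i ∈ s, M μ (F i) := by
  unfold M
  rw [integral_finsetSum s fun i hi => (hF i hi).integrable μ, Finset.mul_sum]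

theorem M_mono {F G : E → ℝ} (hF : Bd F) (hG : Bd G) (h : ∀ u, ‖u‖ ≤ 1 → F u ≤ G u) :
    M μ F ≤ M μ G := by
  unfold M
  apply mul_le_mul_of_nonneg_left _ (inv_nonneg.2 (vol_pos μ).le)
  exact setIntegral_mono_on (hF.integrable μ) (hG.integrable μ) measurableSet_closedBall
    fun u hu => h u (mem_closedBall_zero_iff.1 hu)

/-- Monotonicity for almost all `u`. -/
theorem M_mono_ae {F G : E → ℝ} (hF : Bd F) (hG : Bd G) (h : ∀ᵐ u ∂μ, ‖u‖ ≤ 1 → F u ≤ G u) :
    M μ F ≤ M μ G := by
  unfold M
  apply mul_le_mul_of_nonneg_left _ (inv_nonneg.2 (vol_pos μ).le)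
  refine setIntegral_mono_on_ae (hF.integrable μ) (hG.integrable μ) measurableSet_closedBall ?_
  filter_upwards [h] with u hu hu'
  exact hu (mem_closedBall_zero_iff.1 hu')

theorem M_congr {F G : E → ℝ} (h : ∀ u, ‖u‖ ≤ 1 → F u = G u) : M μ F = M μ G := by
  unfold M
  rw [setIntegral_congr_fun measurableSet_closedBall
    fun u hu => h u (mem_closedBall_zero_iff.1 hu)]

theorem M_congr_ae {F G : E → ℝ} (h : ∀ᵐ u ∂μ, F u = G u) : M μ F = M μ G := by
  unfold M
  rw [setIntegral_congr_ae measurableSet_closedBall (by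
    filter_upwards [h] with u hu _
    exact hu)]

theorem M_nonneg {F : E → ℝ} (h : ∀ u, ‖u‖ ≤ 1 → 0 ≤ F u) : 0 ≤ M μ F := by
  unfold M
  exact mul_nonneg (inv_nonneg.2 (vol_pos μ).le)
    (setIntegral_nonneg measurableSet_closedBall fun u hu => h u (mem_closedBall_zero_iff.1 hu))

theorem abs_M_le {F : E → ℝ} (hF : Bd F) : |M μ F| ≤ M μ fun u => |F u| := by
  rw [abs_le]
  constructor
  · have h := M_mono μ hF.abs.neg hF fun u _ => neg_abs_le (F u)
    have h2 : M μ (fun u => -|F u|) = -M μ (fun u => |F u|) := by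
      have := M_mul_left μ (-1) fun u : E => |F u|
      simpa using this
    linarith
  · exact M_mono μ hF hF.abs fun u _ => le_abs_self (F u)

/-- The mean of the square is at least the square of the mean. -/
theorem sq_M_le {F : E → ℝ} (hF : Bd F) : M μ F ^ 2 ≤ M μ fun u => F u ^ 2 := by
  have h1 : 0 ≤ M μ fun u => (F u - M μ F) ^ 2 := M_nonneg μ fun u _ => sq_nonneg _
  have h2 : M μ (fun u => (F u - M μ F) ^ 2)
      = M μ (fun u => F u ^ 2) - M μ F ^ 2 := by
    have e : (fun u => (F u - M μ F) ^ 2)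
        = fun u => (F u ^ 2 + (-2 * M μ F) * F u) + M μ F ^ 2 := by
      funext u
      ring
    rw [e, M_add μ ((hF.pow 2).add ((Bd.const _).mul hF)) (Bd.const _),
      M_add μ (hF.pow 2) ((Bd.const _).mul hF), M_mul_left, M_const]
    ring
  linarith

/-- Symmetry. -/
theorem M_neg (F : E → ℝ) : M μ (fun u => F (-u)) = M μ F := by
  unfold M
  congr 1
  rw [← integral_indicator measurableSet_closedBall, ← integral_indicator measurableSet_closedBall,
    ← integral_neg_eq_self]
  congr 1
  funext u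
  by_cases h : u ∈ closedBall (0 : E) 1
  · have h' : -u ∈ closedBall (0 : E) 1 := by
      rw [mem_closedBall_zero_iff] at h ⊢
      rwa [norm_neg]
    rw [indicator_of_mem h', indicator_of_mem h, neg_neg]
  · have h' : -u ∉ closedBall (0 : E) 1 := by
      rw [mem_closedBall_zero_iff] at h ⊢
      rwa [norm_neg]
    rw [indicator_of_notMem h', indicator_of_notMem h]

/-- The mean of an indicator function. -/
theorem M_indicator {S : Set E} (hS : MeasurableSet S) :
    M μ (S.indicator fun _ => (1 : ℝ)) =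
      μ.real {u : E | ‖u‖ ≤ 1 ∧ u ∈ S} / μ.real (closedBall (0 : E) 1) := by
  unfold M
  rw [setIntegral_indicator hS, setIntegral_const, smul_eq_mul, mul_one, div_eq_inv_mul]
  congr 2
  ext u
  rw [mem_inter_iff, mem_closedBall_zero_iff]
  rfl

/-- The mean with respect to one variable. -/
theorem Bd.mean {F : E → E → ℝ} (hF : Measurable fun p : E × E => F p.1 p.2) {C : ℝ}
    (hC : ∀ u v : E, ‖u‖ ≤ 1 → ‖v‖ ≤ 1 → |F u v| ≤ C) : Bd fun u => M μ fun v => F u v := by
  constructor
  · unfold M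
    apply Measurable.const_mul
    exact (hF.stronglyMeasurable.integral_prod_right' (f := fun p : E × E => F p.1 p.2)).measurable
  · refine ⟨C, fun u hu => ?_⟩
    have h1 : Bd (F u) := ⟨hF.comp measurable_prodMk_left, C, fun v hv => hC u v hu hv⟩
    refine (abs_M_le μ h1).trans ?_
    calc M μ (fun v => |F u v|) ≤ M μ fun _ => C :=
          M_mono μ h1.abs (Bd.const C) fun v hv => hC u v hu hv
      _ = C := M_const μ C

/-- Fubini. -/
theorem M_swap {F : E → E → ℝ} (hF : Measurable fun p : E × E => F p.1 p.2) {C : ℝ}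
    (hC : ∀ u v : E, ‖u‖ ≤ 1 → ‖v‖ ≤ 1 → |F u v| ≤ C) :
    M μ (fun u => M μ fun v => F u v) = M μ fun v => M μ fun u => F u v := by
  unfold M
  rw [integral_const_mul, integral_const_mul]
  congr 2
  rw [integral_integral_swap]
  have h1 : (μ.restrict (closedBall (0 : E) 1)).prod (μ.restrict (closedBall (0 : E) 1)) =
      (μ.prod μ).restrict (closedBall (0 : E) 1 ×ˢ closedBall (0 : E) 1) :=
    Measure.prod_restrict _ _
  rw [h1]
  refine Measure.integrableOn_of_bounded (M := C) ?_ hF.aestronglyMeasurable ?_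
  · rw [Measure.prod_prod]
    exact ENNReal.mul_ne_top measure_closedBall_lt_top.ne measure_closedBall_lt_top.ne
  · filter_upwards [ae_restrict_mem (measurableSet_closedBall.prod measurableSet_closedBall)]
      with p hp
    rw [Real.norm_eq_abs]
    exact hC p.1 p.2 (mem_closedBall_zero_iff.1 hp.1) (mem_closedBall_zero_iff.1 hp.2)

end

end Pool.Agent.Lib.MP_5e7226_co.TH
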