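import Pool.Agent.Lib.MP_5e7226_co.TH.Basic

/-!
# TH, D1: the derivative of the norm
-/

set_option autoImplicit false
set_option linter.unusedSectionVars false

open MeasureTheory Set Module Metric

namespace Pool.Agent.Lib.MP_5e7226_co.TH

variable {E : Type} [NormedAddCommGroup E] [NormedSpace ℝ E]

/-- PROOF. The norm is `1`-Lipschitz: `norm_fderiv_le_of_lipschitz` (with `LipschitzWith 1`), `ContinuousLinearMap.le_opNorm`. -/
theorem nD_le (u x : E) : |nD u x| ≤ ‖x‖ := by
  have h1 : ‖nD u‖ ≤ 1 := by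
    have := norm_fderiv_le_of_lipschitz ℝ (x₀ := u) (lipschitzWith_one_norm (E := E))
    simpa [nD] using this
  calc |nD u x| = ‖nD u x‖ := (Real.norm_eq_abs _).symm
    _ ≤ ‖nD u‖ * ‖x‖ := (nD u).le_opNorm x
    _ ≤ 1 * ‖x‖ := mul_le_mul_of_nonneg_right h1 (norm_nonneg _)
    _ = ‖x‖ := one_mul _

/-- PROOF. If the norm is differentiable at `u`: `‖c • v‖ = c * ‖v‖`, so the norm is differentiable at `c • u` with the same derivative (chain rule). If it is not differentiable at `u`,
it is not at `c • u` either (`u = c⁻¹ • (c • u)`), both derivatives are `0`. (Or `fderiv_comp_smul`, if it has no differentiability hypothesis.) -/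
theorem nD_smul {c : ℝ} (hc : 0 < c) (u : E) : nD (c • u) = nD u := by
  have h1 : fderiv ℝ (fun v : E => ‖c • v‖) u = c • nD (c • u) :=
    fderiv_comp_smul (f := fun v : E => ‖v‖) (x := u) c
  have h2 : (fun v : E => ‖c • v‖) = c • fun v : E => ‖v‖ := by
    funext v
    rw [norm_smul, Real.norm_eq_abs, abs_of_pos hc]
    rfl
  have h3 : fderiv ℝ (c • fun v : E => ‖v‖) u = c • nD u := by
    rw [fderiv_const_smul_field]
    rfl
  rw [h2, h3] at h1
  exact (smul_right_injective _ hc.ne' h1).symm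

/-- PROOF. The norm is even: `fderiv_comp_neg`. -/
theorem nD_neg (u : E) : nD (-u) = -nD u := by
  have h1 : fderiv ℝ (fun v : E => ‖(-1 : ℝ) • v‖) u = (-1 : ℝ) • nD ((-1 : ℝ) • u) :=
    fderiv_comp_smul (f := fun v : E => ‖v‖) (x := u) (-1 : ℝ)
  have h2 : (fun v : E => ‖(-1 : ℝ) • v‖) = fun v : E => ‖v‖ := by
    funext v
    rw [neg_one_smul, norm_neg]
  rw [h2, neg_one_smul ℝ u] at h1
  have h3 : nD u = - nD (-u) := h1.trans (neg_one_smul ℝ _)
  rw [h3, neg_neg]

/-- PROOF. Convexity: for `0 < t ≤ 1` one has `‖w + t z‖ ≤ (1 - t) ‖w‖ + t ‖w + z‖`, so `(‖w + t z‖ - ‖w‖) / t ≤ ‖w + z‖ - ‖w‖`; let `t → 0+` (`HasFDerivAt.hasLineDerivAt` or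
`HasDerivAt` of `t ↦ ‖w + t z‖` at `0`, `hasDerivAt_iff_tendsto_slope`, `le_of_tendsto`). -/
theorem subgrad {w : E} (hw : DifferentiableAt ℝ (fun v : E => ‖v‖) w) (z : E) :
    ‖w‖ + nD w z ≤ ‖w + z‖ := by
  have h1 : HasDerivAt (fun t : ℝ => ‖w + t • z‖) (nD w z) 0 := by
    have h2 : HasFDerivAt (fun v : E => ‖v‖) (nD w) (w + (0 : ℝ) • z) := by
      rw [zero_smul, add_zero]
      exact hw.hasFDerivAt
    have h3 : HasDerivAt (fun t : ℝ => w + t • z) z 0 := by
      have := ((hasDerivAt_id (0 : ℝ)).smul_const z).const_add w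
      simpa using this
    exact h2.comp_hasDerivAt (0 : ℝ) h3
  have h4 := h1.hasDerivWithinAt (s := Ioi 0)
  rw [hasDerivWithinAt_iff_tendsto_slope' (by simp)] at h4
  have h5 : nD w z ≤ ‖w + z‖ - ‖w‖ := by
    refine le_of_tendsto h4 ?_
    have h6 : ∀ᶠ t : ℝ in nhdsWithin 0 (Ioi 0), t ∈ Ioo (0 : ℝ) 1 :=
      Ioo_mem_nhdsGT one_pos
    filter_upwards [h6] with t ht
    obtain ⟨ht0, ht1⟩ := ht
    rw [slope_def_field, zero_smul, add_zero, sub_zero, div_le_iff₀ ht0]
    have h7 : w + t • z = (1 - t) • w + t • (w + z) := by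
      rw [smul_add, sub_smul, one_smul]; abel
    have h8 : ‖w + t • z‖ ≤ (1 - t) * ‖w‖ + t * ‖w + z‖ := by
      rw [h7]
      refine (norm_add_le _ _).trans (le_of_eq ?_)
      rw [norm_smul, norm_smul, Real.norm_eq_abs, Real.norm_eq_abs, abs_of_pos ht0,
        abs_of_pos (by linarith)]
    linarith
  linarith

section

variable [FiniteDimensional ℝ E] [MeasurableSpace E] [BorelSpace E] (μ : Measure E)
  [μ.IsAddHaarMeasure]

/-- PROOF. Rademacher: `LipschitzWith.ae_differentiableAt`. -/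
theorem ae_diff : ∀ᵐ u ∂μ, DifferentiableAt ℝ (fun v : E => ‖v‖) u :=
  (lipschitzWith_one_norm (E := E)).ae_differentiableAt

/-- PROOF. `measurable_fderiv_apply_const` for fixed `x`; jointly: choose a basis `b` of `E`, `nD u v = ∑ i, (b.repr v i) * nD u (b i)`, a sum of products of measurable functions
(the coordinates are continuous). -/
theorem measurable_nD : Measurable fun p : E × E => nD p.1 p.2 := by
  let b := Module.finBasis ℝ E
  have h1 : (fun p : E × E => nD p.1 p.2) =
      fun p : E × E => ∑ i, b.coord i p.2 * nD p.1 (b i) := by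
    funext p
    conv_lhs => rw [← b.sum_repr p.2, map_sum]
    refine Finset.sum_congr rfl fun i _ => ?_
    rw [map_smul, smul_eq_mul]
    rfl
  rw [h1]
  refine Finset.measurable_sum _ fun i _ => ?_
  refine Measurable.mul ?_ ?_
  · exact ((b.coord i).continuous_of_finiteDimensional.measurable).comp measurable_snd
  · exact (measurable_fderiv_apply_const ℝ (fun v : E => ‖v‖) (b i)).comp measurable_fst

/-- PROOF. `measurable_fderiv_apply_const`, `nD_le`. -/
theorem Bd_nD (x : E) : Bd fun u => nD u x :=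
  ⟨measurable_fderiv_apply_const ℝ (fun v : E => ‖v‖) x, ‖x‖, fun u _ => nD_le u x⟩

end

end Pool.Agent.Lib.MP_5e7226_co.TH
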