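import Pool.Agent.Lib.MP_5e7226_co.TH.D1

/-!
# TH, D2: linear isometries
-/

set_option autoImplicit false
set_option linter.unusedSectionVars false

open MeasureTheory Set Module Metric

namespace Pool.Agent.Lib.MP_5e7226_co.TH

variable {E : Type} [NormedAddCommGroup E] [NormedSpace ℝ E] [FiniteDimensional ℝ E]
  [MeasurableSpace E] [BorelSpace E] (μ : Measure E) [μ.IsAddHaarMeasure]

/-- PROOF. `h` is an isometry, so it is bijective (`LinearMap.injective_iff_surjective`), maps the unit ball onto itself, and preserves `μ`: `Measure.map h μ` is a Haar measure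
(`ContinuousLinearEquiv.isAddHaarMeasure_map` or `Measure.map_linearMap_addHaar_eq_smul_addHaar`), equal to `c • μ` with `c = 1` because the unit ball has the same measure.
Then `integral_map` / `MeasurePreserving.setIntegral_preimage_emb`. -/
theorem M_isom {h : E →ₗ[ℝ] E} (hh : ∀ v, ‖h v‖ = ‖v‖) (F : E → ℝ) :
    M μ (fun u => F (h u)) = M μ F := by
  let e : E ≃ₗᵢ[ℝ] E := (⟨h, hh⟩ : E →ₗᵢ[ℝ] E).toLinearIsometryEquiv rfl
  have he : ∀ u, e u = h u := fun u => rfl
  have hball : h ⁻¹' closedBall (0 : E) 1 = closedBall (0 : E) 1 := by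
    ext u
    rw [mem_preimage, mem_closedBall_zero_iff, mem_closedBall_zero_iff, hh]
  have hemb : MeasurableEmbedding h := e.toHomeomorph.measurableEmbedding
  have hdet : LinearMap.det h ≠ 0 := by
    have h1 := e.toLinearEquiv.isUnit_det'
    exact h1.ne_zero
  have hmap := Measure.map_linearMap_addHaar_eq_smul_addHaar μ hdet
  have hpos : μ (closedBall (0 : E) 1) ≠ 0 := (measure_closedBall_pos μ 0 one_pos).ne'
  have hfin : μ (closedBall (0 : E) 1) ≠ ⊤ := measure_closedBall_lt_top.ne
  have h1 : ENNReal.ofReal |(LinearMap.det h)⁻¹| = 1 := by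
    have h2 := congrArg (fun ν : Measure E => ν (closedBall (0 : E) 1)) hmap
    simp only [hemb.map_apply, hball, Measure.smul_apply, smul_eq_mul] at h2
    have h3 : 1 * μ (closedBall (0 : E) 1) =
        ENNReal.ofReal |(LinearMap.det h)⁻¹| * μ (closedBall (0 : E) 1) := by
      rw [one_mul]
      exact h2
    exact ((ENNReal.mul_left_inj hpos hfin).mp h3).symm
  rw [h1, one_smul] at hmap
  have hmp : MeasurePreserving h μ μ := ⟨hemb.measurable, hmap⟩
  unfold M
  congr 1
  have h4 := hmp.setIntegral_preimage_emb hemb F (closedBall (0 : E) 1)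
  rw [hball] at h4
  exact h4

/-- PROOF. `‖h v‖ = ‖v‖` for all `v`; the derivative of `v ↦ ‖h v‖` at `u` is `nD (h u) ∘ h` (`ContinuousLinearEquiv.comp_right_fderiv`, no differentiability needed, as `h` is bijective). -/
theorem nD_isom {h : E →ₗ[ℝ] E} (hh : ∀ v, ‖h v‖ = ‖v‖) (u v : E) : nD (h u) (h v) = nD u v := by
  let e : E ≃ₗᵢ[ℝ] E := (⟨h, hh⟩ : E →ₗᵢ[ℝ] E).toLinearIsometryEquiv rfl
  have h1 := e.toContinuousLinearEquiv.comp_right_fderiv (f := fun v : E => ‖v‖) (x := u)
  have h2 : (fun v : E => ‖v‖) ∘ e.toContinuousLinearEquiv = fun v : E => ‖v‖ := by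
    funext v
    exact hh v
  rw [h2] at h1
  exact (congrArg (fun f : E →L[ℝ] ℝ => f v) h1).symm

end Pool.Agent.Lib.MP_5e7226_co.TH
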