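import Pool.Agent.Lib.MP_5e7226_co.TH.G2

/-!
# TH, G3: the exponential moment of a linear functional
-/

set_option autoImplicit false
set_option linter.unusedSectionVars false

open MeasureTheory Set Module Metric

namespace Pool.Agent.Lib.MP_5e7226_co.TH

variable {E : Type} [NormedAddCommGroup E] [NormedSpace ℝ E] [FiniteDimensional ℝ E]
  [MeasurableSpace E] [BorelSpace E] (μ : Measure E) [μ.IsAddHaarMeasure]

/-- PROOF. Induction on `n`, or: `2 ^ j ≥ j + 1`, so the sum is at most `∑ (1 / 4) ^ (j + 1) ≤ 1 / 3`. -/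
theorem sum_quarter (n : ℕ) : ∑ j ∈ Finset.range n, ((1 : ℝ) / 4) ^ (2 ^ j) ≤ 1 / 3 := by
  have h : ∀ n : ℕ, ∑ j ∈ Finset.range n, ((1 : ℝ) / 4) ^ (2 ^ j) ≤ 1 / 3 * (1 - (1 / 4) ^ n) := by
    intro n
    induction n with
    | zero => simp
    | succ n ih =>
      rw [Finset.sum_range_succ]
      have h1 : ((1 : ℝ) / 4) ^ (2 ^ n) ≤ (1 / 4) ^ (n + 1) :=
        pow_le_pow_of_le_one (by norm_num) (by norm_num) Nat.lt_two_pow_self
      have h2 : ((1 : ℝ) / 4) ^ (n + 1) = (1 / 4) ^ n * (1 / 4) := pow_succ _ _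
      rw [h2] at h1 ⊢
      linarith
  refine (h n).trans ?_
  have h1 : (0 : ℝ) ≤ (1 / 4) ^ n := by positivity
  linarith

/-- PROOF. If `t < 8` then `exp (t / 32) ≤ exp (1 / 4)`. Otherwise let `j < n` be the largest number with `8 * 2 ^ j ≤ t`, so `t < 8 * 2 ^ (j + 1)` and `exp (t / 32) ≤ exp (2 ^ j / 2)`, one of the
terms. -/
theorem exp_le_sum {t : ℝ} (ht : 0 ≤ t) {n : ℕ} (htn : t < 8 * 2 ^ n) :
    Real.exp (t / 32) ≤ Real.exp (1 / 4) +
      ∑ j ∈ Finset.range n, (if 8 * 2 ^ j ≤ t then Real.exp ((2 : ℝ) ^ j / 2) else 0) := by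
  induction n with
  | zero =>
    rw [Finset.sum_range_zero, add_zero]
    apply Real.exp_le_exp.2
    norm_num at htn
    linarith
  | succ n ih =>
    rw [Finset.sum_range_succ]
    by_cases h : t < 8 * 2 ^ n
    · have h1 := ih h
      have h2 : 0 ≤ (if 8 * 2 ^ n ≤ t then Real.exp ((2 : ℝ) ^ n / 2) else 0) := by
        split_ifs
        · exact (Real.exp_pos _).le
        · exact le_rfl
      linarith
    · have h1 : 8 * 2 ^ n ≤ t := not_lt.1 h
      rw [if_pos h1]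
      have h2 : Real.exp (t / 32) ≤ Real.exp ((2 : ℝ) ^ n / 2) := by
        apply Real.exp_le_exp.2
        rw [pow_succ] at htn
        linarith
      have h3 : 0 ≤ ∑ j ∈ Finset.range n,
          (if 8 * 2 ^ j ≤ t then Real.exp ((2 : ℝ) ^ j / 2) else 0) := by
        refine Finset.sum_nonneg fun j _ => ?_
        split_ifs
        · exact (Real.exp_pos _).le
        · exact le_rfl
      have h4 := Real.exp_pos (1 / 4)
      linarith

/-- PROOF. If `g ≠ 0`, `g v ≠ 0`, then `|g| > 0` on an open subset of the ball. -/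
theorem mean_pos {g : E →ₗ[ℝ] ℝ} (hg : g ≠ 0) : 0 < M μ fun u => |g u| := by
  obtain ⟨v, hv⟩ : ∃ v : E, g v ≠ 0 := by
    by_contra h
    push Not at h
    exact hg (LinearMap.ext h)
  have hv0 : v ≠ 0 := by
    rintro rfl
    exact hv (map_zero g)
  have hnv : 0 < ‖v‖ := norm_pos_iff.2 hv0
  set w : E := (2 * ‖v‖)⁻¹ • v with hw
  have hw1 : ‖w‖ < 1 := by
    rw [hw, norm_smul, norm_inv, Real.norm_of_nonneg (by positivity), mul_inv, mul_assoc,
      inv_mul_cancel₀ hnv.ne', mul_one]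
    norm_num
  have hgw : 0 < |g w| := by
    rw [abs_pos, hw, map_smul, smul_eq_mul]
    exact mul_ne_zero (by positivity) hv
  set U : Set E := {u : E | ‖u‖ < 1 ∧ |g w| / 2 < |g u|} with hU
  have hUo : IsOpen U :=
    (isOpen_lt continuous_norm continuous_const).inter
      (isOpen_lt continuous_const g.continuous_of_finiteDimensional.abs)
  have hUne : U.Nonempty := ⟨w, hw1, by linarith⟩
  have h1 : M μ (fun u => |g w| / 2 * U.indicator (fun _ => (1 : ℝ)) u) ≤ M μ fun u => |g u| := by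
    refine M_mono μ ((Bd.const _).mul (Bd.indicator hUo.measurableSet)) (Bd.lin g).abs
      fun u _ => ?_
    by_cases hu : u ∈ U
    · rw [indicator_of_mem hu, mul_one]
      exact hu.2.le
    · rw [indicator_of_notMem hu, mul_zero]
      exact abs_nonneg _
  refine lt_of_lt_of_le ?_ h1
  rw [M_mul_left]
  refine mul_pos (by linarith) ?_
  rw [M_indicator μ hUo.measurableSet]
  refine div_pos ?_ (vol_pos μ)
  have h2 : {u : E | ‖u‖ ≤ 1 ∧ u ∈ U} = U := by
    ext u
    exact ⟨fun h => h.2, fun h => ⟨h.1.le, h⟩⟩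
  rw [h2]
  refine ENNReal.toReal_pos (hUo.measure_pos μ hUne).ne' ?_
  refine ne_top_of_le_ne_top (measure_closedBall_lt_top (μ := μ) (x := (0 : E)) (r := 1)).ne
    (measure_mono ?_)
  intro u hu
  exact mem_closedBall_zero_iff.2 hu.1.le

/-- PROOF. Let `m` be the mean of `|g|`, `m > 0`. `Pr μ g (8 m) ≤ 1 / 8` (`Pr_markov`), so `Pr μ g (2 ^ j * (8 m)) ≤ (1 / 8) ^ (2 ^ j)` (`Pr_iter`). Choose `n` with `|g u| / m < 8 * 2 ^ n` on the
ball. By `exp_le_sum` the mean is at most `exp (1 / 4) + ∑_{j < n} exp (2 ^ j / 2) * (1 / 8) ^ (2 ^ j) = exp (1 / 4) + ∑ (exp (1 / 2) / 8) ^ (2 ^ j)`, `exp (1 / 2) / 8 ≤ 1 / 4`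
(`exp (1 / 2) ≤ 2`), `sum_quarter`, `exp (1 / 4) ≤ 3 / 2`. -/
theorem exp_moment {g : E →ₗ[ℝ] ℝ} (hg : g ≠ 0) :
    M μ (fun u => Real.exp (|g u| / (32 * M μ fun v => |g v|))) ≤ 2 := by
  set m : ℝ := M μ fun v => |g v| with hm
  have hm0 : 0 < m := mean_pos μ hg
  obtain ⟨hgm, C, hC⟩ := Bd.lin g
  have hC0 : 0 ≤ C := (abs_nonneg _).trans (hC 0 (by simp))
  obtain ⟨n, hn⟩ := pow_unbounded_of_one_lt (C / m) (one_lt_two (α := ℝ))
  have hBF : Bd (fun u : E => Real.exp (|g u| / (32 * m))) := by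
    refine ⟨Real.measurable_exp.comp (hgm.abs.div_const _), Real.exp (C / (32 * m)),
      fun u hu => ?_⟩
    rw [abs_of_pos (Real.exp_pos _)]
    apply Real.exp_le_exp.2
    exact div_le_div_of_nonneg_right (hC u hu) (by positivity)
  have hterm : ∀ j : ℕ, Bd (fun u : E =>
      Real.exp ((2 : ℝ) ^ j / 2) *
        {u : E | 2 ^ j * (8 * m) ≤ |g u|}.indicator (fun _ => (1 : ℝ)) u) := fun j =>
    (Bd.const _).mul (Bd.indicator (measurableSet_le measurable_const hgm.abs))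
  have h1 : M μ (fun u => Real.exp (|g u| / (32 * m))) ≤
      M μ (fun u => Real.exp (1 / 4) + ∑ j ∈ Finset.range n, Real.exp ((2 : ℝ) ^ j / 2) *
        {u : E | 2 ^ j * (8 * m) ≤ |g u|}.indicator (fun _ => (1 : ℝ)) u) := by
    refine M_mono μ hBF ((Bd.const _).add (Bd.sum _ fun j _ => hterm j)) fun u hu => ?_
    have ht0 : 0 ≤ |g u| / m := by positivity
    have htn : |g u| / m < 8 * 2 ^ n := by
      have h2 : |g u| / m ≤ C / m := div_le_div_of_nonneg_right (hC u hu) hm0.le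
      have h3 : (0 : ℝ) < 2 ^ n := by positivity
      linarith
    have h4 := exp_le_sum ht0 htn
    have e1 : |g u| / (32 * m) = |g u| / m / 32 := by
      rw [div_div, mul_comm m]
    rw [e1]
    refine h4.trans_eq ?_
    congr 1
    refine Finset.sum_congr rfl fun j _ => ?_
    have e2 : 8 * 2 ^ j ≤ |g u| / m ↔ 2 ^ j * (8 * m) ≤ |g u| := by
      rw [le_div_iff₀ hm0]
      have : (8 : ℝ) * 2 ^ j * m = 2 ^ j * (8 * m) := by ring
      rw [this]
    by_cases c : 8 * 2 ^ j ≤ |g u| / m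
    · have c' : u ∈ {u : E | 2 ^ j * (8 * m) ≤ |g u|} := e2.1 c
      rw [if_pos c, indicator_of_mem c', mul_one]
    · have c' : u ∉ {u : E | 2 ^ j * (8 * m) ≤ |g u|} := fun h => c (e2.2 h)
      rw [if_neg c, indicator_of_notMem c', mul_zero]
  refine h1.trans ?_
  rw [M_add μ (Bd.const _) (Bd.sum _ fun j _ => hterm j), M_const, M_sum μ _ fun j _ => hterm j]
  have hPr8 : Pr μ g (8 * m) ≤ 1 / 8 := by
    have h2 := Pr_markov μ g (a := 8 * m) (by positivity)
    rw [← hm] at h2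
    have h3 : m / (8 * m) = 1 / 8 := by
      field_simp
    rwa [h3] at h2
  have he2 : Real.exp (1 / 2) ≤ 2 := by
    have h2 : Real.exp (1 / 2) ^ 2 ≤ 2 ^ 2 := by
      rw [← Real.exp_nat_mul]
      have := Real.exp_one_lt_d9
      norm_num
      linarith
    exact le_of_pow_le_pow_left₀ (by norm_num) (by norm_num) h2
  have he4 : Real.exp (1 / 4) ≤ 3 / 2 := by
    have h2 : Real.exp (1 / 4) ^ 4 ≤ (3 / 2) ^ 4 := by
      rw [← Real.exp_nat_mul]
      have := Real.exp_one_lt_d9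
      norm_num
      linarith
    exact le_of_pow_le_pow_left₀ (by norm_num) (by norm_num) h2
  have h2 : ∑ j ∈ Finset.range n, M μ (fun u : E => Real.exp ((2 : ℝ) ^ j / 2) *
      {u : E | 2 ^ j * (8 * m) ≤ |g u|}.indicator (fun _ => (1 : ℝ)) u) ≤
      ∑ j ∈ Finset.range n, ((1 : ℝ) / 4) ^ (2 ^ j) := by
    refine Finset.sum_le_sum fun j _ => ?_
    rw [M_mul_left]
    have h3 : M μ ({u : E | 2 ^ j * (8 * m) ≤ |g u|}.indicator (fun _ => (1 : ℝ))) ≤
        (1 / 8) ^ (2 ^ j) :=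
      (Pr_iter μ g (by positivity) j).trans (pow_le_pow_left₀ (Pr_nonneg μ g _) hPr8 _)
    have h4 : Real.exp ((2 : ℝ) ^ j / 2) = Real.exp (1 / 2) ^ (2 ^ j) := by
      rw [← Real.exp_nat_mul]
      congr 1
      push_cast
      ring
    have h5 : Real.exp ((2 : ℝ) ^ j / 2) ≤ 2 ^ (2 ^ j) := by
      rw [h4]
      exact pow_le_pow_left₀ (Real.exp_pos _).le he2 _
    have h6 : ((1 : ℝ) / 4) ^ (2 ^ j) = 2 ^ (2 ^ j) * (1 / 8) ^ (2 ^ j) := by
      rw [← mul_pow]
      norm_num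
    rw [h6]
    exact mul_le_mul h5 h3 (M_nonneg μ fun u _ => indicator_nonneg (fun _ _ => zero_le_one) u)
      (by positivity)
  have h3 := sum_quarter n
  linarith

end Pool.Agent.Lib.MP_5e7226_co.TH
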