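import Pool.Agent.Lib.MP_5e7226_co.TH.T1
import Pool.Agent.Lib.MP_5e7226_co.TH.G3

/-!
# TH, T2: tight sets: linear functionals
-/

set_option autoImplicit false
set_option linter.unusedSectionVars false

open MeasureTheory Set Module Metric

namespace Pool.Agent.Lib.MP_5e7226_co.TH

variable {E : Type} [NormedAddCommGroup E] [NormedSpace ℝ E] [FiniteDimensional ℝ E]
  [MeasurableSpace E] [BorelSpace E] (μ : Measure E) [μ.IsAddHaarMeasure]

/-- PROOF. `g = 0` clear. Let `m > 0` be the mean of `|g|` (`mean_pos`), `φ v = exp (|g v| / (32 m))`, `density`, `exp_moment`: the right side is at most `4 C I.card`. For each `x` and `u`: if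
`g x * g u ≥ 0` then `|g (x / 2 + γ u)| ≥ |g x| / 2`, otherwise `|g (- x / 2 + γ u)| ≥ |g x| / 2`; so the sum of the two values of `φ` is at least `exp (|g x| / (64 m))`, hence
`∑ exp (|g x| / (64 m)) ≤ 4 C I.card`. With `c = log (4 C)` and `exp y ≥ exp c * (1 + y - c)`: `∑ (|g x| / (64 m)) ≤ c * I.card`. -/
theorem Tight.transfer {I : Finset E} {C : ℝ} (h : Tight I C) (g : E →ₗ[ℝ] ℝ) :
    ∑ x ∈ I, |g x| ≤ I.card * (64 * Real.log (4 * C) * M μ fun v => |g v|) := by
  by_cases hg : g = 0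
  · subst hg
    simp only [LinearMap.zero_apply, abs_zero, Finset.sum_const_zero, M_const, mul_zero, le_refl]
  have hm := mean_pos μ hg
  have hexp := exp_moment μ hg
  have hC1 := h.one_le μ
  set m : ℝ := M μ fun v => |g v| with hmdef
  set γ : ℝ := (1 - 1 / (finrank ℝ E : ℝ)) / 2 with hγ
  have hd : (2 : ℝ) ≤ (finrank ℝ E : ℝ) := by exact_mod_cast h.dim
  have hγ0 : 0 ≤ γ := by
    have : 1 / (finrank ℝ E : ℝ) ≤ 1 := by
      rw [div_le_one (by linarith)]; linarith
    rw [hγ]; linarith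
  have hγ1 : γ ≤ 1 / 2 := by
    have : 0 ≤ 1 / (finrank ℝ E : ℝ) := by positivity
    rw [hγ]; linarith
  let φ : E → ℝ := fun v => Real.exp (|g v| / (32 * m))
  have hφ : Bd φ := by
    obtain ⟨h1, D, hD⟩ := (Bd.lin (E := E) g).abs
    refine ⟨Real.measurable_exp.comp (h1.div_const _), Real.exp (D / (32 * m)), fun u hu => ?_⟩
    show |Real.exp (|g u| / (32 * m))| ≤ _
    rw [abs_of_pos (Real.exp_pos _), Real.exp_le_exp]
    apply div_le_div_of_nonneg_right _ (by positivity)
    have := hD u hu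
    rwa [abs_abs] at this
  have hφ0 : ∀ v, 0 ≤ φ v := fun v => (Real.exp_pos _).le
  have hball : ∀ y : E, ‖y‖ ≤ 1 → ∀ u : E, ‖u‖ ≤ 1 → ‖(1 / 2 : ℝ) • y + γ • u‖ ≤ 1 := by
    intro y hy u hu
    have h1 : ‖(1 / 2 : ℝ) • y‖ ≤ 1 / 2 := by
      rw [norm_smul, Real.norm_eq_abs, abs_of_pos (by norm_num : (0 : ℝ) < 1 / 2)]
      linarith
    have h2 : ‖γ • u‖ ≤ 1 / 2 := by
      rw [norm_smul, Real.norm_eq_abs, abs_of_nonneg hγ0]
      nlinarith [norm_nonneg u]
    linarith [norm_add_le ((1 / 2 : ℝ) • y) (γ • u)]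
  have hBd : ∀ y : E, ‖y‖ ≤ 1 → Bd fun u => φ ((1 / 2 : ℝ) • y + γ • u) := by
    intro y hy
    obtain ⟨h1, D, hD⟩ := hφ
    refine ⟨h1.comp ?_, D, fun u hu => hD _ (hball y hy u hu)⟩
    exact (measurable_const_smul γ).const_add _
  have hdens := h.density μ hφ hφ0
  have hone : ∀ x ∈ I, Real.exp (|g x| / (64 * m)) ≤
      M μ (fun u => φ ((1 / 2 : ℝ) • x + γ • u)) +
        M μ (fun u => φ (-((1 / 2 : ℝ) • x) + γ • u)) := by
    intro x hx
    have hx1 := h.norm_le x hx
    have hb1 := hBd x hx1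
    have hb2 : Bd fun u => φ (-((1 / 2 : ℝ) • x) + γ • u) := by
      have := hBd (-x) (by rwa [norm_neg])
      simpa only [smul_neg] using this
    rw [← M_add μ hb1 hb2, ← M_const μ (Real.exp (|g x| / (64 * m)))]
    refine M_mono μ (Bd.const _) (hb1.add hb2) fun u _ => ?_
    show Real.exp (|g x| / (64 * m)) ≤ Real.exp (|g ((1 / 2 : ℝ) • x + γ • u)| / (32 * m)) +
      Real.exp (|g (-((1 / 2 : ℝ) • x) + γ • u)| / (32 * m))
    have e1 : g ((1 / 2 : ℝ) • x + γ • u) = 1 / 2 * g x + γ * g u := by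
      rw [map_add, map_smul, map_smul, smul_eq_mul, smul_eq_mul]
    have e2 : g (-((1 / 2 : ℝ) • x) + γ • u) = -(1 / 2 * g x) + γ * g u := by
      rw [map_add, map_neg, map_smul, map_smul, smul_eq_mul, smul_eq_mul]
    have key : |g x| / 2 ≤ |g ((1 / 2 : ℝ) • x + γ • u)| ∨
        |g x| / 2 ≤ |g (-((1 / 2 : ℝ) • x) + γ • u)| := by
      by_contra hcon
      push Not at hcon
      obtain ⟨h1, h2⟩ := hcon
      rw [e1] at h1
      rw [e2] at h2
      have h3 := abs_sub (1 / 2 * g x + γ * g u) (-(1 / 2 * g x) + γ * g u)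
      have h4 : (1 / 2 * g x + γ * g u) - (-(1 / 2 * g x) + γ * g u) = g x := by ring
      rw [h4] at h3
      linarith
    have hfrac : |g x| / (64 * m) = |g x| / 2 / (32 * m) := by
      field_simp; ring
    rcases key with hk | hk
    · have : Real.exp (|g x| / (64 * m)) ≤
          Real.exp (|g ((1 / 2 : ℝ) • x + γ • u)| / (32 * m)) := by
        rw [Real.exp_le_exp, hfrac]
        exact div_le_div_of_nonneg_right hk (by positivity)
      linarith [Real.exp_pos (|g (-((1 / 2 : ℝ) • x) + γ • u)| / (32 * m))]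
    · have : Real.exp (|g x| / (64 * m)) ≤
          Real.exp (|g (-((1 / 2 : ℝ) • x) + γ • u)| / (32 * m)) := by
        rw [Real.exp_le_exp, hfrac]
        exact div_le_div_of_nonneg_right hk (by positivity)
      linarith [Real.exp_pos (|g ((1 / 2 : ℝ) • x + γ • u)| / (32 * m))]
  have hsum : ∑ x ∈ I, Real.exp (|g x| / (64 * m)) ≤ 4 * C * I.card := by
    refine (Finset.sum_le_sum hone).trans (hdens.trans ?_)
    have h1 : 2 * C * I.card * M μ φ ≤ 2 * C * I.card * 2 :=
      mul_le_mul_of_nonneg_left hexp (by positivity)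
    linarith
  have h4C : 0 < 4 * C := by linarith
  have hlin : ∀ x ∈ I, 4 * C * (1 + |g x| / (64 * m) - Real.log (4 * C)) ≤
      Real.exp (|g x| / (64 * m)) := by
    intro x _
    have h1 := Real.add_one_le_exp (|g x| / (64 * m) - Real.log (4 * C))
    have h2 : Real.exp (|g x| / (64 * m)) =
        4 * C * Real.exp (|g x| / (64 * m) - Real.log (4 * C)) := by
      rw [Real.exp_sub, Real.exp_log h4C]; field_simp
    rw [h2]
    apply mul_le_mul_of_nonneg_left _ h4C.le
    linarith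
  have hfin := (Finset.sum_le_sum hlin).trans hsum
  rw [← Finset.mul_sum] at hfin
  have hfin2 : ∑ x ∈ I, (1 + |g x| / (64 * m) - Real.log (4 * C)) ≤ I.card := by
    by_contra hcon
    push Not at hcon
    have := mul_lt_mul_of_pos_left hcon h4C
    linarith
  rw [Finset.sum_sub_distrib, Finset.sum_add_distrib, Finset.sum_const, Finset.sum_const,
    nsmul_eq_mul, nsmul_eq_mul, mul_one, ← Finset.sum_div] at hfin2
  have hfin3 : (∑ x ∈ I, |g x|) / (64 * m) ≤ I.card * Real.log (4 * C) := by linarith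
  rw [div_le_iff₀ (by positivity)] at hfin3
  calc ∑ x ∈ I, |g x| ≤ I.card * Real.log (4 * C) * (64 * m) := hfin3
    _ = I.card * (64 * Real.log (4 * C) * m) := by ring

end Pool.Agent.Lib.MP_5e7226_co.TH
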