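import Pool.Agent.Lib.MP_5e7226_co.TH.T1

/-!
# TH, T3: tight sets: exit volumes
-/

set_option autoImplicit false
set_option linter.unusedSectionVars false

open MeasureTheory Set Module Metric

namespace Pool.Agent.Lib.MP_5e7226_co.TH

variable {E : Type} [NormedAddCommGroup E] [NormedSpace ℝ E] [FiniteDimensional ℝ E]
  [MeasurableSpace E] [BorelSpace E] (μ : Measure E) [μ.IsAddHaarMeasure]

private lemma T3_log8 : (2 : ℝ) < Real.log 8 := by
  have h1 : (8 : ℝ) = 2 ^ (3 : ℕ) := by norm_num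
  rw [h1, Real.log_pow]
  have := Real.log_two_gt_d9
  push_cast
  linarith

private lemma T3_norm {x u : E} {γ η t δ : ℝ} (hx : ‖x‖ ≤ 1) (hu : ‖u‖ ≤ 1)
    (hγ : γ = (1 - δ) / 2) (hδ : 0 ≤ δ) (ht : t ≤ 1) (htη : t = 2 * η + δ)
    (h : 1 - η < ‖(1 / 2 : ℝ) • x + γ • u‖) : 1 < ‖u + t • x‖ := by
  have h1 : u + x = (2 : ℝ) • ((1 / 2 : ℝ) • x + γ • u) + δ • u := by
    rw [hγ, smul_add, smul_smul, smul_smul]
    have e1 : (2 : ℝ) * (1 / 2) = 1 := by norm_num
    have e2 : (2 : ℝ) * ((1 - δ) / 2) = 1 - δ := by ring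
    rw [e1, e2, one_smul, sub_smul, one_smul]
    abel
  have h2 : 2 * ‖(1 / 2 : ℝ) • x + γ • u‖ - δ ≤ ‖u + x‖ := by
    rw [h1]
    have h3 := norm_sub_le_norm_add ((2 : ℝ) • ((1 / 2 : ℝ) • x + γ • u)) (δ • u)
    rw [norm_smul, norm_smul, Real.norm_eq_abs, Real.norm_eq_abs, abs_of_nonneg hδ] at h3
    have h4 : δ * ‖u‖ ≤ δ := mul_le_of_le_one_right hδ hu
    have h5 : |(2 : ℝ)| = 2 := by norm_num
    rw [h5] at h3
    linarith
  have h3 : u + x = (u + t • x) + (1 - t) • x := by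
    rw [sub_smul, one_smul]; abel
  have h4 : ‖u + x‖ ≤ ‖u + t • x‖ + (1 - t) := by
    rw [h3]
    refine (norm_add_le _ _).trans ?_
    rw [norm_smul, Real.norm_eq_abs, abs_of_nonneg (by linarith : (0 : ℝ) ≤ 1 - t)]
    have := mul_le_of_le_one_right (by linarith : (0 : ℝ) ≤ 1 - t) hx
    linarith
  linarith

/-- PROOF. Let `L = log (8 C)`, `η = L / d ≤ 1`. `density` with `φ` the indicator of `{v | ‖v‖ ≤ 1 - η}`, whose mean is `(1 - η) ^ d ≤ exp (- L) = 1 / (8 C)`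
(`Measure.addHaar_closedBall'`). The two means in `density` are equal (`M_neg`, `φ` is even). So the sum over `x ∈ I` of the mean of the indicator of `{u | ‖x / 2 + γ u‖ ≤ 1 - η}` is at most
`I.card / 8`. If `‖u‖ ≤ 1` and `‖x / 2 + γ u‖ > 1 - η` then `‖u + x‖ ≥ 2 ‖x / 2 + γ u‖ - (1 - 2 γ) ‖u‖ > 2 - 2 η - 1 / d`, and with `t = (2 L + 1) / d ≤ 1`:
`‖u + t x‖ ≥ ‖u + x‖ - (1 - t) > 1 + t - 2 η - 1 / d = 1`. So `XV μ x t ≥ vol - μ.real {u | ‖u‖ ≤ 1 ∧ ‖x / 2 + γ u‖ ≤ 1 - η}`. -/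
theorem Tight.exit_ge {I : Finset E} {C : ℝ} (h : Tight I C)
    (hL : 2 * Real.log (8 * C) + 1 ≤ finrank ℝ E) :
    7 / 8 * I.card * μ.real (closedBall (0 : E) 1) ≤
      ∑ x ∈ I, XV μ x ((2 * Real.log (8 * C) + 1) / finrank ℝ E) := by
  have hC : 1 ≤ C := h.one_le μ
  set L := Real.log (8 * C) with hLdef
  have hL2 : 2 < L := by
    refine T3_log8.trans_le ?_
    exact Real.log_le_log (by norm_num) (by linarith)
  have hd2 : (2 : ℝ) ≤ finrank ℝ E := by exact_mod_cast h.dim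
  set d := finrank ℝ E with hddef
  have hd0 : (0 : ℝ) < d := by linarith
  set γ : ℝ := (1 - 1 / (d : ℝ)) / 2 with hγ
  set η : ℝ := L / d with hη
  have hη1 : η ≤ 1 := by
    rw [hη, div_le_one hd0]; linarith
  set B : Set E := closedBall (0 : E) (1 - η) with hB
  have hBm : MeasurableSet B := measurableSet_closedBall
  have hV := vol_pos (E := E) μ
  set V := μ.real (closedBall (0 : E) 1) with hVdef
  -- the mean of the indicator
  have hη0 : 0 ≤ η := by positivity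
  have hmean : M μ (B.indicator fun _ => (1 : ℝ)) ≤ 1 / (8 * C) := by
    rw [M_indicator μ hBm]
    have e1 : {u : E | ‖u‖ ≤ 1 ∧ u ∈ B} = closedBall (0 : E) (1 - η) := by
      ext u
      simp only [hB, mem_ofPred_eq, mem_closedBall_zero_iff]
      constructor
      · exact fun h => h.2
      · exact fun h => ⟨by linarith, h⟩
    rw [e1, Measure.addHaar_real_closedBall' μ 0 (by linarith : (0 : ℝ) ≤ 1 - η)]
    rw [mul_div_assoc, div_self hV.ne', mul_one]
    have e2 : 1 - η ≤ Real.exp (-η) := by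
      have := Real.add_one_le_exp (-η)
      linarith
    calc (1 - η) ^ finrank ℝ E ≤ Real.exp (-η) ^ finrank ℝ E :=
          pow_le_pow_left₀ (by linarith) e2 _
      _ = Real.exp (-L) := by
          rw [← Real.exp_nat_mul, ← hddef]
          congr 1
          rw [hη]
          field_simp
      _ = 1 / (8 * C) := by
          rw [Real.exp_neg, hLdef, Real.exp_log (by linarith)]
          simp
  -- the sets
  have hSm : ∀ x : E, MeasurableSet {u : E | (1 / 2 : ℝ) • x + γ • u ∈ B} := by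
    intro x
    have hc : Continuous fun u : E => (1 / 2 : ℝ) • x + γ • u := by fun_prop
    exact hc.measurable hBm
  have hind : ∀ x : E, (fun u : E => B.indicator (fun _ => (1 : ℝ)) ((1 / 2 : ℝ) • x + γ • u)) =
      {u : E | (1 / 2 : ℝ) • x + γ • u ∈ B}.indicator fun _ => (1 : ℝ) := by
    intro x
    funext u
    by_cases hu : (1 / 2 : ℝ) • x + γ • u ∈ B
    · rw [indicator_of_mem hu, indicator_of_mem (show u ∈ {u : E | (1 / 2 : ℝ) • x + γ • u ∈ B}
        from hu)]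
    · rw [indicator_of_notMem hu, indicator_of_notMem (show
        u ∉ {u : E | (1 / 2 : ℝ) • x + γ • u ∈ B} from hu)]
  have heq : ∀ x : E, M μ (fun u => B.indicator (fun _ => (1 : ℝ)) (-((1 / 2 : ℝ) • x) + γ • u)) =
      M μ (fun u => B.indicator (fun _ => (1 : ℝ)) ((1 / 2 : ℝ) • x + γ • u)) := by
    intro x
    rw [← M_neg μ (fun u => B.indicator (fun _ => (1 : ℝ)) (-((1 / 2 : ℝ) • x) + γ • u))]
    congr 1
    funext u
    have e1 : -((1 / 2 : ℝ) • x) + γ • (-u) = -((1 / 2 : ℝ) • x + γ • u) := by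
      rw [smul_neg]; abel
    rw [e1]
    by_cases hu : (1 / 2 : ℝ) • x + γ • u ∈ B
    · have hu' : -((1 / 2 : ℝ) • x + γ • u) ∈ B := by
        rw [hB, mem_closedBall_zero_iff] at hu ⊢
        rwa [norm_neg]
      rw [indicator_of_mem hu, indicator_of_mem hu']
    · have hu' : -((1 / 2 : ℝ) • x + γ • u) ∉ B := by
        rw [hB, mem_closedBall_zero_iff] at hu ⊢
        rwa [norm_neg]
      rw [indicator_of_notMem hu, indicator_of_notMem hu']
  have hdens := h.density μ (Bd.indicator hBm) (fun v => by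
    by_cases hv : v ∈ B
    · rw [indicator_of_mem hv]; norm_num
    · rw [indicator_of_notMem hv])
  have hsum : ∑ x ∈ I, M μ (fun u => B.indicator (fun _ => (1 : ℝ)) ((1 / 2 : ℝ) • x + γ • u)) ≤
      I.card / 8 := by
    have e1 : ∑ x ∈ I, (M μ (fun u => B.indicator (fun _ => (1 : ℝ)) ((1 / 2 : ℝ) • x + γ • u)) +
        M μ (fun u => B.indicator (fun _ => (1 : ℝ)) (-((1 / 2 : ℝ) • x) + γ • u))) =
        2 * ∑ x ∈ I,
          M μ (fun u => B.indicator (fun _ => (1 : ℝ)) ((1 / 2 : ℝ) • x + γ • u)) := by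
      rw [Finset.mul_sum]
      refine Finset.sum_congr rfl fun x _ => ?_
      rw [heq x]; ring
    have e2 : 2 * ∑ x ∈ I,
        M μ (fun u => B.indicator (fun _ => (1 : ℝ)) ((1 / 2 : ℝ) • x + γ • u)) ≤
        2 * C * I.card * (1 / (8 * C)) := by
      rw [← e1]
      refine hdens.trans ?_
      exact mul_le_mul_of_nonneg_left hmean (by positivity)
    have e3 : 2 * C * I.card * (1 / (8 * C)) = (I.card : ℝ) / 4 := by
      field_simp
      ring
    rw [e3] at e2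
    linarith
  have hXV : ∀ x ∈ I, V -
      V * M μ (fun u => B.indicator (fun _ => (1 : ℝ)) ((1 / 2 : ℝ) • x + γ • u)) ≤
      XV μ x ((2 * L + 1) / d) := by
    intro x hx
    rw [hind x, M_indicator μ (hSm x)]
    have e0 : V * (μ.real {u : E | ‖u‖ ≤ 1 ∧ u ∈ {u : E | (1 / 2 : ℝ) • x + γ • u ∈ B}} / V) =
        μ.real {u : E | ‖u‖ ≤ 1 ∧ u ∈ {u : E | (1 / 2 : ℝ) • x + γ • u ∈ B}} := by
      field_simp
    rw [e0]
    have hsub : closedBall (0 : E) 1 ⊆ {u : E | ‖u‖ ≤ 1 ∧ 1 < ‖u + ((2 * L + 1) / d) • x‖} ∪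
        {u : E | ‖u‖ ≤ 1 ∧ u ∈ {u : E | (1 / 2 : ℝ) • x + γ • u ∈ B}} := by
      intro u hu
      rw [mem_closedBall_zero_iff] at hu
      by_cases hu2 : (1 / 2 : ℝ) • x + γ • u ∈ B
      · exact Or.inr ⟨hu, hu2⟩
      · left
        refine ⟨hu, ?_⟩
        rw [hB, mem_closedBall_zero_iff, not_le] at hu2
        refine T3_norm (h.norm_le x hx) hu hγ (by positivity) ?_ ?_ hu2
        · rw [div_le_one hd0]; exact hL
        · rw [hη]; ring
    have hfin : μ ({u : E | ‖u‖ ≤ 1 ∧ 1 < ‖u + ((2 * L + 1) / d) • x‖} ∪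
        {u : E | ‖u‖ ≤ 1 ∧ u ∈ {u : E | (1 / 2 : ℝ) • x + γ • u ∈ B}}) ≠ ⊤ := by
      refine ne_top_of_le_ne_top (measure_closedBall_lt_top (μ := μ) (x := (0 : E)) (r := 1)).ne
        (measure_mono ?_)
      rintro u (⟨hu, -⟩ | ⟨hu, -⟩)
      · exact mem_closedBall_zero_iff.2 hu
      · exact mem_closedBall_zero_iff.2 hu
    have h1 := measureReal_mono hsub hfin
    have h2 := measureReal_union_le (μ := μ)
      {u : E | ‖u‖ ≤ 1 ∧ 1 < ‖u + ((2 * L + 1) / d) • x‖}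
      {u : E | ‖u‖ ≤ 1 ∧ u ∈ {u : E | (1 / 2 : ℝ) • x + γ • u ∈ B}}
    unfold XV
    linarith
  calc 7 / 8 * I.card * V = I.card * V - V * (I.card / 8) := by ring
    _ ≤ I.card * V - V * ∑ x ∈ I,
          M μ (fun u => B.indicator (fun _ => (1 : ℝ)) ((1 / 2 : ℝ) • x + γ • u)) := by
        have := mul_le_mul_of_nonneg_left hsum hV.le
        linarith
    _ = ∑ x ∈ I, (V -
          V * M μ (fun u => B.indicator (fun _ => (1 : ℝ)) ((1 / 2 : ℝ) • x + γ • u))) := by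
        rw [Finset.sum_sub_distrib, Finset.sum_const, nsmul_eq_mul, Finset.mul_sum]
    _ ≤ _ := Finset.sum_le_sum hXV

end Pool.Agent.Lib.MP_5e7226_co.TH
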