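import Pool.Agent.Lib.MP_5e7226_co.TH.X3
import Pool.Agent.Lib.MP_5e7226_co.TH.T2
import Pool.Agent.Lib.MP_5e7226_co.TH.T3

/-!
# TH, T4: the thickness theorem
-/

set_option autoImplicit false
set_option linter.unusedSectionVars false

open MeasureTheory Set Module Metric

namespace Pool.Agent.Lib.MP_5e7226_co.TH

variable {E : Type} [NormedAddCommGroup E] [NormedSpace ℝ E] [FiniteDimensional ℝ E]
  [MeasurableSpace E] [BorelSpace E] (μ : Measure E) [μ.IsAddHaarMeasure]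

private lemma T4_log8 : (2 : ℝ) < Real.log 8 := by
  have h1 : (8 : ℝ) = 2 ^ (3 : ℕ) := by norm_num
  rw [h1, Real.log_pow]
  have := Real.log_two_gt_d9
  push_cast
  linarith

private lemma T4_L {C : ℝ} (hC : 1 ≤ C) : 2 < Real.log (8 * C) := by
  refine T4_log8.trans_le ?_
  exact Real.log_le_log (by norm_num) (by linarith)

/-- PROOF. Let `t = (2 L + 1) / d`, `L = log (8 C) ≥ 2`, `k = ⌈2 d t⌉₊`, `τ = 2 t / k`, so `τ d ≤ 1`: `XV_div` and `XV_le`: for every `x ∈ I`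
`XV μ x t ≤ k XV μ x (t / k) ≤ k * 8 d τ ∫ |nD u x| = 16 (2 L + 1) ∫ |nD u x|`. With `exit_ge`: `7 / 8 * I.card ≤ 16 (2 L + 1) ∑ x ∈ I, M μ (fun u => |nD u x|)`. -/
theorem Tight.sum_nD_ge {I : Finset E} {C : ℝ} (h : Tight I C)
    (hL : 2 * Real.log (8 * C) + 1 ≤ finrank ℝ E) :
    7 / 8 * I.card ≤ 16 * (2 * Real.log (8 * C) + 1) * ∑ x ∈ I, M μ fun u => |nD u x| := by
  have hC : 1 ≤ C := h.one_le μ
  have hL2 := T4_L hC
  have hex := h.exit_ge μ hL
  set L := Real.log (8 * C) with hLdef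
  have hd2 : (2 : ℝ) ≤ finrank ℝ E := by exact_mod_cast h.dim
  have hd0 : (0 : ℝ) < finrank ℝ E := by linarith
  have hd1 : 1 ≤ finrank ℝ E := by have := h.dim; omega
  have hV := vol_pos (E := E) μ
  obtain ⟨t, ht⟩ : ∃ t : ℝ, t = (2 * L + 1) / finrank ℝ E := ⟨_, rfl⟩
  rw [← ht] at hex
  have ht0 : 0 < t := by rw [ht]; positivity
  have hdt : finrank ℝ E * t = 2 * L + 1 := by rw [ht]; field_simp
  obtain ⟨k, hk⟩ : ∃ k : ℕ, k = ⌈2 * finrank ℝ E * t⌉₊ := ⟨_, rfl⟩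
  have hk1 : 2 * finrank ℝ E * t ≤ k := by rw [hk]; exact Nat.le_ceil _
  have hk0 : (0 : ℝ) < k := by
    have : 0 < 2 * finrank ℝ E * t := by positivity
    linarith
  have hk2 : 1 ≤ k := by exact_mod_cast (by exact_mod_cast hk0 : 0 < k)
  have hτ0 : 0 < 2 * t / k := by positivity
  have hτd : 2 * t / k * finrank ℝ E ≤ 1 := by
    rw [div_mul_eq_mul_div, div_le_one hk0]
    linarith
  have hXV : ∀ x ∈ I, XV μ x t ≤
      16 * (2 * L + 1) * ∫ u in closedBall (0 : E) 1, |nD u x| ∂μ := by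
    intro x hx
    have h1 := XV_div μ x t hk2
    have h2 := XV_le μ hd1 (h.norm_le x hx) hτ0 hτd
    have e1 : 2 * t / k / 2 = t / k := by field_simp
    rw [e1] at h2
    calc XV μ x t ≤ k * XV μ x (t / k) := h1
      _ ≤ k * (8 * finrank ℝ E * (2 * t / k) * ∫ u in closedBall (0 : E) 1, |nD u x| ∂μ) :=
          mul_le_mul_of_nonneg_left h2 hk0.le
      _ = 16 * (finrank ℝ E * t) * ∫ u in closedBall (0 : E) 1, |nD u x| ∂μ := by
          field_simp
          ring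
      _ = _ := by rw [hdt]
  have h3 := hex.trans (Finset.sum_le_sum hXV)
  have h4 : ∑ x ∈ I, 16 * (2 * L + 1) * ∫ u in closedBall (0 : E) 1, |nD u x| ∂μ =
      (16 * (2 * L + 1) * ∑ x ∈ I, M μ fun u => |nD u x|) * μ.real (closedBall (0 : E) 1) := by
    rw [Finset.mul_sum, Finset.sum_mul]
    refine Finset.sum_congr rfl fun x _ => ?_
    unfold M
    field_simp
  rw [h4] at h3
  exact le_of_mul_le_mul_right h3 hV

private lemma T4_Bd (μ : Measure E) [μ.IsAddHaarMeasure] :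
    Bd fun u : E => M μ fun v => |nD u v| := by
  refine Bd.mean μ (F := fun u v => |nD u v|) (measurable_nD (E := E)).abs (C := 1)
    fun u v _ hv => ?_
  rw [abs_abs]
  exact (nD_le u v).trans hv

/-- PROOF. `∑ x ∈ I, M μ (|nD u x|) = M μ (∑ x ∈ I, |nD u x|)`, for each `u` apply `transfer` to `g = nD u`: at most `I.card * 64 * log (4 C)` times the double mean. With
`L = log (8 C) ≥ log 8 ≥ 2`, `log (4 C) ≤ L`, `2 L + 1 ≤ 5 / 2 L`: `7 / 8 ≤ 16 * (5 / 2) L * 64 L * T₁ = 2560 L ^ 2 T₁`. -/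
theorem Tight.thick_one {I : Finset E} {C : ℝ} (h : Tight I C)
    (hL : 2 * Real.log (8 * C) + 1 ≤ finrank ℝ E) :
    1 ≤ 3000 * Real.log (8 * C) ^ 2 * M μ fun u : E => M μ fun v => |nD u v| := by
  have hC : 1 ≤ C := h.one_le μ
  have hL2 := T4_L hC
  have h1 := h.sum_nD_ge μ hL
  set L := Real.log (8 * C) with hLdef
  obtain ⟨T, hT⟩ : ∃ T : ℝ, T = M μ fun u : E => M μ fun v => |nD u v| := ⟨_, rfl⟩
  rw [← hT]
  have hT0 : 0 ≤ T := by
    rw [hT]
    exact M_nonneg μ fun u _ => M_nonneg μ fun v _ => abs_nonneg _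
  have hI : (0 : ℝ) < I.card := by exact_mod_cast h.nonempty.card_pos
  have h4L : Real.log (4 * C) ≤ L := Real.log_le_log (by linarith) (by linarith)
  have h40 : 0 ≤ Real.log (4 * C) := Real.log_nonneg (by linarith)
  have h2 : ∑ x ∈ I, M μ (fun u => |nD u x|) ≤ I.card * (64 * Real.log (4 * C)) * T := by
    rw [← M_sum μ I fun x _ => (Bd_nD x).abs]
    have h3 : M μ (fun u => ∑ x ∈ I, |nD u x|) ≤
        M μ (fun u => I.card * (64 * Real.log (4 * C)) * M μ fun v => |nD u v|) := by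
      refine M_mono μ (Bd.sum I fun x _ => (Bd_nD x).abs) ((Bd.const _).mul (T4_Bd μ))
        fun u _ => ?_
      have h5 := h.transfer μ (nD u).toLinearMap
      calc ∑ x ∈ I, |nD u x| ≤
          I.card * (64 * Real.log (4 * C) * M μ fun v => |nD u v|) := h5
        _ = _ := by ring
    refine h3.trans ?_
    rw [M_mul_left, hT]
  have h6 : 7 / 8 * (I.card : ℝ) ≤ 16 * (2 * L + 1) * (I.card * (64 * Real.log (4 * C)) * T) :=
    h1.trans (mul_le_mul_of_nonneg_left h2 (by positivity))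
  have h7 : 7 / 8 ≤ 16 * (2 * L + 1) * ((64 * Real.log (4 * C)) * T) := by
    have e : 16 * (2 * L + 1) * (I.card * (64 * Real.log (4 * C)) * T) =
        (16 * (2 * L + 1) * ((64 * Real.log (4 * C)) * T)) * I.card := by ring
    rw [e] at h6
    exact le_of_mul_le_mul_right h6 hI
  have h8 : 16 * (2 * L + 1) * ((64 * Real.log (4 * C)) * T) ≤ 2560 * L ^ 2 * T := by
    have h9 : (2 * L + 1) * Real.log (4 * C) ≤ 5 / 2 * L * L :=
      mul_le_mul (by linarith) h4L h40 (by positivity)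
    have h10 := mul_le_mul_of_nonneg_right h9 hT0
    nlinarith
  have h11 : 0 ≤ L ^ 2 * T := by positivity
  nlinarith

/-- PROOF. `T₁ ^ 2 ≤ TT` (`sq_M_le` twice, `sq_abs`, monotonicity), `thick_one`. -/
theorem Tight.thick {I : Finset E} {C : ℝ} (h : Tight I C)
    (hL : 2 * Real.log (8 * C) + 1 ≤ finrank ℝ E) :
    1 ≤ 9000000 * Real.log (8 * C) ^ 4 * TT μ := by
  have h1 := h.thick_one μ hL
  have h2 : (M μ fun u : E => M μ fun v => |nD u v|) ^ 2 ≤ TT μ := by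
    refine (sq_M_le μ (T4_Bd μ)).trans ?_
    unfold TT
    refine M_mono μ ((T4_Bd μ).pow 2) ?_ fun u _ => ?_
    · refine Bd.mean μ (F := fun u v => nD u v ^ 2) ((measurable_nD (E := E)).pow_const 2)
        (C := 1) fun u v _ hv => ?_
      rw [abs_pow]
      exact pow_le_one₀ (abs_nonneg _) ((nD_le u v).trans hv)
    · have h3 : Bd fun v => |nD u v| := (Bd.lin (nD u).toLinearMap).abs
      refine (sq_M_le μ h3).trans (le_of_eq ?_)
      refine M_congr μ fun v _ => ?_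
      rw [sq_abs]
  have h4 : 1 ≤ (3000 * Real.log (8 * C) ^ 2 * M μ fun u : E => M μ fun v => |nD u v|) ^ 2 :=
    one_le_pow₀ h1
  calc (1 : ℝ) ≤ (3000 * Real.log (8 * C) ^ 2 * M μ fun u : E => M μ fun v => |nD u v|) ^ 2 := h4
    _ = 9000000 * Real.log (8 * C) ^ 4 * (M μ fun u : E => M μ fun v => |nD u v|) ^ 2 := by ring
    _ ≤ _ := mul_le_mul_of_nonneg_left h2 (by positivity)

end Pool.Agent.Lib.MP_5e7226_co.TH
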