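import Pool.Agent.Lib.MP_5e7226_co.TH.U3
import Pool.Agent.Lib.MP_5e7226_co.TH.T4
import Pool.Agent.Lib.MP_5e7226_co.CubMain

/-!
# TH, F1: coverings of the unit sphere of a norm
-/

set_option autoImplicit false
set_option linter.unusedSectionVars false

open MeasureTheory Set Module Metric

namespace Pool.Agent.Lib.MP_5e7226_co.TH

section

variable {E : Type} [NormedAddCommGroup E] [NormedSpace ℝ E] [FiniteDimensional ℝ E]

/-- Greedy covering if there is no tight set. -/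
theorem cover {d : ℕ} (hd : finrank ℝ E = d) (hd2 : 2 ≤ d) {L : ℝ}
    (hno : ∀ I : Finset E, ¬ Tight I (Real.exp L / 8)) :
    ∃ (k : ℕ) (w : Fin k → E),
      (k : ℝ) ≤ 32 * d * Real.log (9 * d) * 2 ^ d * Real.exp (-L) + 1 ∧
      ∀ x : E, ‖x‖ = 1 → ∃ i, ‖x - (1 / 2 : ℝ) • w i‖ ≤ 1 - 3 / (8 * d) := by
  classical
  have hd0 : (0 : ℝ) < d := by
    have : 0 < d := by omega
    exact_mod_cast this
  have hd2' : (2 : ℝ) ≤ d := by exact_mod_cast hd2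
  set κ : ℝ := 1 / d with hκ
  have hκ0 : 0 < κ := by positivity
  have hκd : κ * d = 1 := by
    rw [hκ]
    field_simp
  have hκ2 : κ ≤ 1 / 2 := by
    rw [hκ, div_le_div_iff₀ hd0 (by norm_num)]
    linarith
  set γ : ℝ := (1 - κ) / 2 with hγdef
  have hγ0 : 0 < γ := by
    rw [hγdef]
    linarith
  -- the lower bound of `γ ^ d`
  have hγd : (1 : ℝ) / 4 * (2 ^ d)⁻¹ ≤ γ ^ d := by
    have h1 : (1 : ℝ) / 2 ≤ (1 - κ) ^ ((d : ℝ) / 2) := by
      have h2 := one_add_mul_self_le_rpow_one_add (s := -κ) (by linarith)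
        (p := (d : ℝ) / 2) (by linarith)
      have h3 : (1 : ℝ) + (d : ℝ) / 2 * -κ = 1 / 2 := by
        have : (d : ℝ) / 2 * -κ = -(κ * d) / 2 := by ring
        rw [this, hκd]
        norm_num
      rw [h3] at h2
      have h4 : (1 : ℝ) + -κ = 1 - κ := by ring
      rwa [h4] at h2
    have h5 : ((1 - κ) ^ ((d : ℝ) / 2)) ^ 2 = (1 - κ) ^ d := by
      rw [← Real.rpow_natCast, ← Real.rpow_mul (by linarith), ← Real.rpow_natCast]
      congr 1
      push_cast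
      ring
    have h6 : (1 : ℝ) / 4 ≤ (1 - κ) ^ d := by
      rw [← h5]
      nlinarith
    rw [hγdef, div_pow, div_eq_mul_inv]
    exact mul_le_mul_of_nonneg_right h6 (by positivity)
  set V : ℝ := γ ^ d * (Real.exp L / 8) with hV
  have hV0 : 0 < V := by positivity
  -- the net
  obtain ⟨S, hS1, hS2, hS3⟩ := Cub.exists_net (E := E) (r := 1 / (4 * d)) (by positivity)
  have : Nontrivial E := Module.nontrivial_of_finrank_pos (R := ℝ) (by omega : 0 < finrank ℝ E)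
  obtain ⟨v0, hv0⟩ := exists_norm_eq E (zero_le_one : (0 : ℝ) ≤ 1)
  have hSne : S.Nonempty := by
    obtain ⟨y, hy, -⟩ := hS2 v0 hv0
    exact ⟨y, hy⟩
  obtain ⟨k, w, hk, hw⟩ := Cub.greedy_cover hV0 (fun b y : E => ‖y - b‖ ≤ 1 - κ) S (by
    intro I hI
    rcases I.eq_empty_or_nonempty with rfl | hne
    · exact ⟨0, ∅, by simp, by simp, by simp⟩
    by_contra hcon
    push Not at hcon
    have h2γ : 2 * γ = 1 - κ := by
      rw [hγdef]
      ring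
    apply hno I
    refine ⟨by rw [hd]; exact hd2, fun x hx => (hS1 x (hI hx)).le, hne, fun b => ?_⟩
    rw [hd]
    show ((I.filter fun x => ‖x - b‖ ≤ 2 * γ).card : ℝ) ≤ V * I.card
    by_contra hb
    push Not at hb
    obtain ⟨y, hy, hy2⟩ := hcon b (I.filter fun x => ‖x - b‖ ≤ 2 * γ)
      (Finset.filter_subset _ _) hb.le
    rw [Finset.mem_filter, h2γ] at hy
    exact absurd hy.2 (not_le.2 hy2)) hSne
  refine ⟨k, w, ?_, fun x hx => ?_⟩
  · refine hk.trans ?_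
    have h1 : Real.log S.card ≤ d * Real.log (9 * d) := by
      have h2 : (S.card : ℝ) ≤ (9 * d) ^ d := by
        refine hS3.trans ?_
        rw [hd]
        apply pow_le_pow_left₀ (by positivity)
        have h3 : 2 / (1 / (4 * (d : ℝ))) = 8 * d := by
          field_simp
          norm_num
        rw [h3]
        linarith
      have h4 : (0 : ℝ) < S.card := by exact_mod_cast hSne.card_pos
      have h5 := Real.log_le_log h4 h2
      rwa [Real.log_pow] at h5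
    have hS1' : (1 : ℝ) ≤ (S.card : ℝ) := by exact_mod_cast hSne.card_pos
    have hlog0 : 0 ≤ Real.log S.card := Real.log_nonneg hS1'
    have hVinv : V⁻¹ ≤ 32 * 2 ^ d * Real.exp (-L) := by
      have hV1 : (1 : ℝ) / 4 * (2 ^ d)⁻¹ * (Real.exp L / 8) ≤ V :=
        mul_le_mul_of_nonneg_right hγd (by positivity)
      have h3 := inv_anti₀ (by positivity) hV1
      refine h3.trans (le_of_eq ?_)
      rw [Real.exp_neg]
      field_simp
      norm_num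
    rw [div_eq_mul_inv]
    have h3 : Real.log S.card * V⁻¹ ≤
        (d * Real.log (9 * d)) * (32 * 2 ^ d * Real.exp (-L)) :=
      mul_le_mul h1 hVinv (by positivity) (hlog0.trans h1)
    have h4 : (d * Real.log (9 * d)) * (32 * 2 ^ d * Real.exp (-L)) =
        32 * d * Real.log (9 * d) * 2 ^ d * Real.exp (-L) := by ring
    linarith
  · obtain ⟨y, hy, hxy⟩ := hS2 x hx
    obtain ⟨i, hi⟩ := hw y hy
    refine ⟨i, ?_⟩
    have h1 : x - (1 / 2 : ℝ) • w i =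
        (1 / 2 : ℝ) • x + (1 / 2 : ℝ) • ((x - y) + (y - w i)) := by
      module
    have h2 : ‖x - (1 / 2 : ℝ) • w i‖ ≤ 1 / 2 * 1 + 1 / 2 * (1 / (4 * d) + (1 - κ)) := by
      rw [h1]
      calc _ ≤ ‖(1 / 2 : ℝ) • x‖ + ‖(1 / 2 : ℝ) • ((x - y) + (y - w i))‖ := norm_add_le _ _
        _ = 1 / 2 * ‖x‖ + 1 / 2 * ‖(x - y) + (y - w i)‖ := by
            rw [norm_smul, norm_smul]
            norm_num
        _ ≤ 1 / 2 * 1 + 1 / 2 * (1 / (4 * d) + (1 - κ)) := by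
            rw [hx]
            have := norm_add_le (x - y) (y - w i)
            linarith
    have h3 : (1 : ℝ) / 2 * 1 + 1 / 2 * (1 / (4 * d) + (1 - κ)) = 1 - 3 / (8 * d) := by
      rw [hκ]
      field_simp
      ring
    linarith

/-- `D ≥ 1`. -/
theorem one_le_D {ι' : Type} [Fintype ι'] [Nontrivial E] {D : ℝ}
    (A : E ≃ₗ[ℝ] EuclideanSpace ℝ ι') (hA : ∀ v, ‖A v‖ ≤ ‖v‖) (hA' : ∀ v, ‖v‖ ≤ D * ‖A v‖) :
    1 ≤ D := by
  obtain ⟨v, hv⟩ := exists_ne (0 : E)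
  have h1 : 0 < ‖v‖ := norm_pos_iff.2 hv
  have h2 : 0 < ‖A v‖ := by
    rw [norm_pos_iff]
    simpa using hv
  have h3 := hA v
  have h4 := hA' v
  by_contra hcon
  push Not at hcon
  nlinarith

theorem sym_normed {d : ℕ} (hd : finrank ℝ E = d) (hd2 : 2 ≤ d) {ι' : Type} [Fintype ι'] {r : ℕ}
    (hr0 : 0 < r) (hr : ∀ V : Submodule ℝ (E →ₗ[ℝ] ℝ), V ≠ ⊥ →
      (∀ h : E →ₗ[ℝ] E, (∀ v, ‖h v‖ = ‖v‖) → ∀ f ∈ V, f ∘ₗ h ∈ V) → r ≤ finrank ℝ V) {D : ℝ}
    (A : E ≃ₗ[ℝ] EuclideanSpace ℝ ι') (hA : ∀ v, ‖A v‖ ≤ ‖v‖) (hA' : ∀ v, ‖v‖ ≤ D * ‖A v‖) :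
    ∃ (k : ℕ) (w : Fin k → E),
      (k : ℝ) ≤ 32 * d * Real.log (9 * d) * 2 ^ d *
        Real.exp (-((r / D ^ 2) ^ (1 / 4 : ℝ) / 55)) + 1 ∧
      ∀ x : E, ‖x‖ = 1 → ∃ i, ‖x - (1 / 2 : ℝ) • w i‖ ≤ 1 - 3 / (8 * d) := by
  borelize E
  let μ : Measure E := Measure.addHaar
  have hnt : Nontrivial E := Module.nontrivial_of_finrank_pos (R := ℝ) (by omega : 0 < finrank ℝ E)
  have hD1 : 1 ≤ D := one_le_D A hA hA'
  have hd2' : (2 : ℝ) ≤ d := by exact_mod_cast hd2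
  have hrd : (r : ℝ) ≤ d := by
    have h1 := hr ⊤ top_ne_bot (fun h _ f _ => Submodule.mem_top)
    rw [finrank_top] at h1
    have h2 : finrank ℝ (E →ₗ[ℝ] ℝ) = d := by
      rw [← hd]
      exact Subspace.dual_finrank_eq
    rw [h2] at h1
    exact_mod_cast h1
  have hr0' : (0 : ℝ) < r := by exact_mod_cast hr0
  set q : ℝ := r / D ^ 2 with hq
  have hq0 : 0 < q := by positivity
  have hqd : q ≤ d := by
    rw [hq, div_le_iff₀ (by positivity)]
    have hD2 : (1 : ℝ) ≤ D ^ 2 := one_le_pow₀ hD1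
    nlinarith
  set L : ℝ := q ^ (1 / 4 : ℝ) / 55 with hL
  have hL0 : 0 ≤ L := by positivity
  have hL4 : L ^ 4 = q / 9150625 := by
    rw [hL, div_pow, ← Real.rpow_natCast, ← Real.rpow_mul hq0.le]
    norm_num
  have hLd : 2 * L + 1 ≤ d := by
    by_contra hcon
    push Not at hcon
    have h1 : (d : ℝ) / 4 ≤ L := by linarith
    have h2 : ((d : ℝ) / 4) ^ 4 ≤ L ^ 4 := pow_le_pow_left₀ (by positivity) h1 4
    rw [hL4] at h2
    have h3 : (d : ℝ) ^ 4 ≤ 256 * (d / 9150625) := by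
      have : ((d : ℝ) / 4) ^ 4 = d ^ 4 / 256 := by ring
      rw [this] at h2
      have h4 : q / 9150625 ≤ d / 9150625 := by gcongr
      linarith
    have h4 : (2 : ℝ) ^ 3 * (d : ℝ) ≤ (d : ℝ) ^ 4 := by
      calc (2 : ℝ) ^ 3 * (d : ℝ) ≤ (d : ℝ) ^ 3 * (d : ℝ) := by gcongr
        _ = (d : ℝ) ^ 4 := by ring
    linarith
  refine cover hd hd2 fun I hI => ?_
  have h1 := hI.one_le μ
  have hlog : Real.log (8 * (Real.exp L / 8)) = L := by
    rw [mul_div_cancel₀ _ (by norm_num : (8 : ℝ) ≠ 0), Real.log_exp]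
  have h2 := hI.thick μ (by rw [hlog, hd]; exact hLd)
  rw [hlog, hL4] at h2
  have h3 := TT_sym μ hr0 hr A hA hA'
  have hTT : TT μ ≤ D ^ 2 / r := by
    rw [le_div_iff₀ hr0']
    exact h3
  have h4 : 9000000 * (q / 9150625) * TT μ ≤ 9000000 * (q / 9150625) * (D ^ 2 / r) := by
    gcongr
  have h5 : q * (D ^ 2 / r) = 1 := by
    rw [hq]
    field_simp
  have h6 : 9000000 * (q / 9150625) * (D ^ 2 / r) = 9000000 / 9150625 * (q * (D ^ 2 / r)) := by
    ring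
  rw [h6, h5] at h4
  norm_num at h4
  linarith

theorem unc_normed {d : ℕ} (hd : finrank ℝ E = d) (hd2 : 2 ≤ d) {ι ι' : Type} [Fintype ι]
    [Fintype ι'] {b : Basis ι ℝ E} (hb : Unc b) {D : ℝ}
    (A : E ≃ₗ[ℝ] EuclideanSpace ℝ ι') (hA : ∀ v, ‖A v‖ ≤ ‖v‖) (hA' : ∀ v, ‖v‖ ≤ D * ‖A v‖) :
    ∃ (k : ℕ) (w : Fin k → E),
      (k : ℝ) ≤ 32 * d * Real.log (9 * d) * 2 ^ d *
        Real.exp (-((d / D ^ 2) ^ (1 / 8 : ℝ) / 100)) + 1 ∧
      ∀ x : E, ‖x‖ = 1 → ∃ i, ‖x - (1 / 2 : ℝ) • w i‖ ≤ 1 - 3 / (8 * d) := by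
  borelize E
  let μ : Measure E := Measure.addHaar
  have hnt : Nontrivial E := Module.nontrivial_of_finrank_pos (R := ℝ) (by omega : 0 < finrank ℝ E)
  have hD1 : 1 ≤ D := one_le_D A hA hA'
  have hd2' : (2 : ℝ) ≤ d := by exact_mod_cast hd2
  have hd0 : (0 : ℝ) < d := by linarith
  set q : ℝ := d / D ^ 2 with hq
  have hq0 : 0 < q := by positivity
  have hqd : q ≤ d := by
    rw [hq, div_le_iff₀ (by positivity)]
    have hD2 : (1 : ℝ) ≤ D ^ 2 := one_le_pow₀ hD1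
    nlinarith
  set L : ℝ := q ^ (1 / 8 : ℝ) / 100 with hL
  have hL0 : 0 ≤ L := by positivity
  have hL8 : L ^ 8 = q / 10 ^ 16 := by
    rw [hL, div_pow, ← Real.rpow_natCast, ← Real.rpow_mul hq0.le]
    norm_num
  have hLd : 2 * L + 1 ≤ d := by
    by_contra hcon
    push Not at hcon
    have h1 : (d : ℝ) / 4 ≤ L := by linarith
    have h2 : ((d : ℝ) / 4) ^ 8 ≤ L ^ 8 := pow_le_pow_left₀ (by positivity) h1 8
    rw [hL8] at h2
    have h3 : (d : ℝ) ^ 8 ≤ 65536 * (d / 10 ^ 16) := by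
      have : ((d : ℝ) / 4) ^ 8 = d ^ 8 / 65536 := by ring
      rw [this] at h2
      have h4 : q / 10 ^ 16 ≤ (d : ℝ) / 10 ^ 16 := by gcongr
      linarith
    have h4 : (2 : ℝ) ^ 7 * (d : ℝ) ≤ (d : ℝ) ^ 8 := by
      calc (2 : ℝ) ^ 7 * (d : ℝ) ≤ (d : ℝ) ^ 7 * (d : ℝ) := by gcongr
        _ = (d : ℝ) ^ 8 := by ring
    linarith
  refine cover hd hd2 fun I hI => ?_
  have h1 := hI.one_le μ
  have hlog : Real.log (8 * (Real.exp L / 8)) = L := by
    rw [mul_div_cancel₀ _ (by norm_num : (8 : ℝ) ≠ 0), Real.log_exp]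
  have h2 := hI.thick μ (by rw [hlog, hd]; exact hLd)
  rw [hlog] at h2
  have h3 := hb.TT_sq μ (by rw [hd]; exact hd2) A hA hA'
  rw [hd] at h3
  have hTT0 : 0 ≤ TT μ := M_nonneg μ fun u _ => M_nonneg μ fun v _ => sq_nonneg _
  have h4 : (1 : ℝ) ≤ (9000000 * L ^ 4 * TT μ) ^ 2 := one_le_pow₀ h2
  have h5 : (9000000 * L ^ 4 * TT μ) ^ 2 = 81000000000000 * L ^ 8 * TT μ ^ 2 := by ring
  rw [h5, hL8] at h4
  have h6 : TT μ ^ 2 ≤ 72 * D ^ 2 / d := by
    rw [le_div_iff₀ hd0]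
    exact h3
  have h7 : 81000000000000 * (q / 10 ^ 16) * TT μ ^ 2 ≤
      81000000000000 * (q / 10 ^ 16) * (72 * D ^ 2 / d) := by
    gcongr
  have h8 : q * (D ^ 2 / d) = 1 := by
    rw [hq]
    field_simp
  have h9 : 81000000000000 * (q / 10 ^ 16) * (72 * D ^ 2 / d) =
      81000000000000 * 72 / 10 ^ 16 * (q * (D ^ 2 / d)) := by
    ring
  rw [h9, h8] at h7
  norm_num at h7
  linarith

end

end Pool.Agent.Lib.MP_5e7226_co.TH
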