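import Pool.Agent.Lib.MP_5e7226_co.TH.F1

/-!
# TH, F2: the thickness theorem and the mean of an outer ellipsoid
-/

set_option autoImplicit false
set_option linter.unusedSectionVars false

open MeasureTheory Set Module Metric

namespace Pool.Agent.Lib.MP_5e7226_co.TH

section

variable {E : Type} [NormedAddCommGroup E] [NormedSpace ℝ E] [FiniteDimensional ℝ E]
  [MeasurableSpace E] [BorelSpace E] (μ : Measure E) [μ.IsAddHaarMeasure]

/-- The covering theorem in terms of the thickness. -/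
theorem thick_normed {d : ℕ} (hd : finrank ℝ E = d) (hd2 : 2 ≤ d) {L : ℝ}
    (hLd : 2 * L + 1 ≤ d) (hT : 9000000 * L ^ 4 * TT μ < 1) :
    ∃ (k : ℕ) (w : Fin k → E),
      (k : ℝ) ≤ 32 * d * Real.log (9 * d) * 2 ^ d * Real.exp (-L) + 1 ∧
      ∀ x : E, ‖x‖ = 1 → ∃ i, ‖x - (1 / 2 : ℝ) • w i‖ ≤ 1 - 3 / (8 * d) := by
  refine cover hd hd2 fun I hI => ?_
  have hlog : Real.log (8 * (Real.exp L / 8)) = L := by
    rw [mul_div_cancel₀ _ (by norm_num : (8 : ℝ) ≠ 0), Real.log_exp]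
  have h2 := hI.thick μ (by rw [hlog, hd]; exact hLd)
  rw [hlog] at h2
  linarith

/-- `TT_le` with the mean of the square of the norm of an outer ellipsoid. -/
theorem TT_leQ {ι' : Type} [Fintype ι'] {Q κ s : ℝ} (hs : 0 < s) (hκ0 : 0 ≤ κ)
    (hκ : ∀ a, QQ μ a a ≤ κ * ip μ a a)
    (A : E ≃ₗ[ℝ] EuclideanSpace ℝ ι') (hA : ∀ v, ‖v‖ ≤ ‖A v‖)
    (hQ : M μ (fun v => ‖A v‖ ^ 2) ≤ Q) :
    TT μ ≤ s / 2 + κ * Q / (2 * s) := by
  classical
  let ε : ι' → EuclideanSpace ℝ ι' := fun i => EuclideanSpace.single i (1 : ℝ)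
  let a : ι' → (E →ₗ[ℝ] ℝ) := fun i =>
    (EuclideanSpace.proj i : EuclideanSpace ℝ ι' →L[ℝ] ℝ).toLinearMap ∘ₗ A.toLinearMap
  have ha : ∀ i v, a i v = (A v) i := fun i v => rfl
  let c : E → ι' → ℝ := fun u i => nD u (A.symm (ε i))
  have hsum : ∀ y : EuclideanSpace ℝ ι', y = ∑ i, y i • ε i := by
    intro y
    ext j
    simp [ε, Finset.sum_apply, Pi.single_apply]
  have hexp : ∀ u v, nD u v = ∑ i, c u i * a i v := by
    intro u v
    have h1 : v = A.symm (A v) := (A.symm_apply_apply v).symm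
    conv_lhs => rw [h1, hsum (A v), map_sum, map_sum]
    refine Finset.sum_congr rfl fun i _ => ?_
    rw [map_smul, map_smul, smul_eq_mul, ha, mul_comm]
  have hc : ∀ u, ∑ i, c u i ^ 2 ≤ 1 := by
    intro u
    obtain ⟨y, hy⟩ : ∃ y : EuclideanSpace ℝ ι', y = ∑ i, c u i • ε i := ⟨_, rfl⟩
    have hyi : ∀ i, y i = c u i := by
      intro i
      rw [hy]
      simp [ε, Finset.sum_apply, Pi.single_apply]
    have h1 : ‖y‖ ^ 2 = ∑ i, c u i ^ 2 := by
      rw [EuclideanSpace.norm_sq_eq]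
      refine Finset.sum_congr rfl fun i _ => ?_
      rw [hyi, Real.norm_eq_abs, sq_abs]
    have h2 : nD u (A.symm y) = ∑ i, c u i ^ 2 := by
      rw [hy, map_sum, map_sum]
      refine Finset.sum_congr rfl fun i _ => ?_
      rw [map_smul, map_smul, smul_eq_mul, sq]
    have h3 : ‖y‖ ^ 2 ≤ ‖y‖ := by
      rw [h1, ← h2]
      refine (le_abs_self _).trans ((nD_le u _).trans ((hA _).trans (le_of_eq ?_)))
      rw [A.apply_symm_apply]
    rw [← h1]
    rcases eq_or_lt_of_le (norm_nonneg y) with h4 | h4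
    · rw [← h4]
      norm_num
    · have h5 : ‖y‖ ≤ 1 := by
        rw [sq] at h3
        have h6 : ‖y‖ * ‖y‖ ≤ 1 * ‖y‖ := by linarith
        exact le_of_mul_le_mul_right h6 h4
      exact pow_le_one₀ (norm_nonneg y) h5
  have hip : ∑ i, ip μ (a i) (a i) ≤ Q := by
    unfold ip
    rw [← M_sum μ _ fun i _ => (Bd.lin (a i)).mul (Bd.lin (a i))]
    refine le_trans (le_of_eq ?_) hQ
    refine M_congr μ fun v _ => ?_
    rw [EuclideanSpace.norm_sq_eq]
    refine Finset.sum_congr rfl fun i _ => ?_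
    rw [ha, Real.norm_eq_abs, sq_abs, sq]
  have hinner : ∀ u, M μ (fun v => nD u v ^ 2) = ∑ i, c u i * ip μ (nL u) (a i) := by
    intro u
    have h1 : (fun v => nD u v ^ 2) = fun v => ∑ i, c u i * (nL u v * a i v) := by
      funext v
      rw [sq]
      nth_rewrite 2 [hexp u v]
      rw [Finset.mul_sum]
      refine Finset.sum_congr rfl fun i _ => ?_
      rw [nL_apply]
      ring
    rw [h1, M_sum μ _ fun i _ => (Bd.const (c u i)).mul ((Bd.lin (nL u)).mul (Bd.lin (a i)))]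
    refine Finset.sum_congr rfl fun i _ => ?_
    rw [M_mul_left]
    rfl
  have hyoung : ∀ x y : ℝ, x * y ≤ s / 2 * x ^ 2 + y ^ 2 / (2 * s) := by
    intro x y
    have h1 : s / 2 * x ^ 2 + y ^ 2 / (2 * s) - x * y = (s * x - y) ^ 2 / (2 * s) := by
      field_simp
      ring
    have h2 : 0 ≤ (s * x - y) ^ 2 / (2 * s) := by positivity
    linarith
  have hpt : ∀ u, M μ (fun v => nD u v ^ 2) ≤
      s / 2 + ∑ i, 1 / (2 * s) * (ip μ (nL u) (a i) * ip μ (nL u) (a i)) := by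
    intro u
    rw [hinner]
    have h1 : ∑ i, c u i * ip μ (nL u) (a i) ≤
        ∑ i, (s / 2 * c u i ^ 2 + 1 / (2 * s) * (ip μ (nL u) (a i) * ip μ (nL u) (a i))) := by
      refine Finset.sum_le_sum fun i _ => (hyoung _ _).trans (le_of_eq ?_)
      ring
    refine h1.trans ?_
    rw [Finset.sum_add_distrib, ← Finset.mul_sum]
    have h2 := mul_le_mul_of_nonneg_left (hc u) (by positivity : 0 ≤ s / 2)
    linarith
  have hB1 : Bd fun u : E => M μ fun v => nD u v ^ 2 := by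
    refine Bd.mean μ (F := fun u v => nD u v ^ 2) (measurable_nD.pow_const 2) (C := 1) ?_
    intro u v _ hv
    rw [abs_pow]
    exact pow_le_one₀ (abs_nonneg _) ((nD_le u v).trans hv)
  have hBi : ∀ i, Bd fun u : E => 1 / (2 * s) * (ip μ (nL u) (a i) * ip μ (nL u) (a i)) :=
    fun i => (Bd.const _).mul ((Bd_ip μ (a i)).mul (Bd_ip μ (a i)))
  have hfin : TT μ ≤ s / 2 + ∑ i, 1 / (2 * s) * QQ μ (a i) (a i) := by
    have h1 : TT μ ≤ M μ fun u : E =>
        s / 2 + ∑ i, 1 / (2 * s) * (ip μ (nL u) (a i) * ip μ (nL u) (a i)) :=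
      M_mono μ hB1 ((Bd.const _).add (Bd.sum _ fun i _ => hBi i)) fun u _ => hpt u
    rw [M_add μ (Bd.const _) (Bd.sum _ fun i _ => hBi i), M_const,
      M_sum μ _ fun i _ => hBi i] at h1
    refine h1.trans (le_of_eq ?_)
    congr 1
    refine Finset.sum_congr rfl fun i _ => ?_
    rw [M_mul_left]
    rfl
  refine hfin.trans ?_
  rw [← Finset.mul_sum]
  have h1 : ∑ i, QQ μ (a i) (a i) ≤ κ * Q := by
    calc ∑ i, QQ μ (a i) (a i) ≤ ∑ i, κ * ip μ (a i) (a i) :=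
          Finset.sum_le_sum fun i _ => hκ (a i)
      _ = κ * ∑ i, ip μ (a i) (a i) := by rw [Finset.mul_sum]
      _ ≤ κ * Q := mul_le_mul_of_nonneg_left hip hκ0
  have h2 := mul_le_mul_of_nonneg_left h1 (by positivity : 0 ≤ 1 / (2 * s))
  have h3 : 1 / (2 * s) * (κ * Q) = κ * Q / (2 * s) := by ring
  linarith

/-- The mean of `‖A v‖ ^ 2` is positive. -/
theorem mean_pos' {ι' : Type} [Fintype ι'] [Nontrivial E]
    (A : E ≃ₗ[ℝ] EuclideanSpace ℝ ι') (hA : ∀ v, ‖v‖ ≤ ‖A v‖) :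
    0 < M μ (fun v => ‖A v‖ ^ 2) := by
  obtain ⟨v₀, hv₀⟩ := exists_ne (0 : E)
  obtain ⟨f, hf⟩ : ∃ f : E →ₗ[ℝ] ℝ, f ≠ 0 := by
    obtain ⟨g, -, hg⟩ := exists_dual_vector ℝ v₀ (norm_ne_zero_iff.2 hv₀)
    refine ⟨(g : E →ₗ[ℝ] ℝ), fun h => ?_⟩
    have h1 : g v₀ = 0 := by
      have := LinearMap.congr_fun h v₀
      simpa using this
    rw [h1] at hg
    have h2 : ‖v₀‖ = 0 := by
      have := hg
      simpa using this.symm
    exact hv₀ (norm_eq_zero.1 h2)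
  have h1 := ip_pos μ hf
  obtain ⟨C, hC0, hC⟩ : ∃ C : ℝ, 0 < C ∧ ∀ v, f v * f v ≤ C * ‖v‖ ^ 2 := by
    refine ⟨‖LinearMap.toContinuousLinearMap f‖ ^ 2 + 1, by positivity, fun v => ?_⟩
    have h2 := (LinearMap.toContinuousLinearMap f).le_opNorm v
    have h3 : ‖(LinearMap.toContinuousLinearMap f) v‖ = |f v| := Real.norm_eq_abs _
    rw [h3] at h2
    have h4 : f v * f v = |f v| ^ 2 := by rw [sq_abs, sq]
    rw [h4]
    have h5 := pow_le_pow_left₀ (abs_nonneg _) h2 2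
    rw [mul_pow] at h5
    nlinarith [sq_nonneg ‖v‖]
  have hBA : Bd fun v : E => ‖A v‖ ^ 2 := by
    have hc : Continuous fun v => A v := A.toLinearMap.continuous_of_finiteDimensional
    obtain ⟨C', hC'⟩ := (isCompact_closedBall (0 : E) 1).exists_bound_of_continuousOn
      (f := fun v => ‖A v‖ ^ 2) (by fun_prop)
    exact ⟨by fun_prop, C', fun u hu => by
      simpa using hC' u (mem_closedBall_zero_iff.2 hu)⟩
  have h2 : ip μ f f ≤ M μ fun v => C * ‖A v‖ ^ 2 := by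
    refine M_mono μ ((Bd.lin f).mul (Bd.lin f)) ((Bd.const C).mul hBA) fun v _ => ?_
    refine (hC v).trans (mul_le_mul_of_nonneg_left ?_ hC0.le)
    exact pow_le_pow_left₀ (norm_nonneg v) (hA v) 2
  rw [M_mul_left] at h2
  by_contra hcon
  push Not at hcon
  have h3 : C * M μ (fun v => ‖A v‖ ^ 2) ≤ 0 := mul_nonpos_of_nonneg_of_nonpos hC0.le hcon
  linarith

/-- Many symmetries. -/
theorem TT_symQ {ι' : Type} [Fintype ι'] [Nontrivial E] {r : ℕ} (hr0 : 0 < r)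
    (hr : ∀ V : Submodule ℝ (E →ₗ[ℝ] ℝ), V ≠ ⊥ →
      (∀ h : E →ₗ[ℝ] E, (∀ v, ‖h v‖ = ‖v‖) → ∀ f ∈ V, f ∘ₗ h ∈ V) → r ≤ finrank ℝ V) {Q : ℝ}
    (A : E ≃ₗ[ℝ] EuclideanSpace ℝ ι') (hA : ∀ v, ‖v‖ ≤ ‖A v‖)
    (hQ : M μ (fun v => ‖A v‖ ^ 2) ≤ Q) : TT μ * r ≤ Q := by
  obtain ⟨κ, hκ0, hκ, hκr⟩ := kappa_sym μ hr
  have hr1 : (0 : ℝ) < r := by exact_mod_cast hr0
  have hQ0 : 0 < Q := (mean_pos' μ A hA).trans_le hQ
  have h1 := TT_leQ μ (s := Q / (r : ℝ)) (by positivity) hκ0 hκ A hA hQ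
  have h2 : κ * Q / (2 * (Q / (r : ℝ))) = κ * r / 2 := by
    field_simp
  rw [h2] at h1
  have h3 : TT μ / 2 ≤ Q / r / 2 := by linarith
  have h4 : TT μ ≤ Q / r := by linarith
  rwa [le_div_iff₀ hr1] at h4

/-- Unconditional norms. -/
theorem Unc.TT_sqQ {ι ι' : Type} [Fintype ι] [Fintype ι'] {b : Basis ι ℝ E} (h : Unc b)
    (hd : 2 ≤ finrank ℝ E) {Q : ℝ} (A : E ≃ₗ[ℝ] EuclideanSpace ℝ ι')
    (hA : ∀ v, ‖v‖ ≤ ‖A v‖) (hQ : M μ (fun v => ‖A v‖ ^ 2) ≤ Q) :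
    TT μ ^ 2 * finrank ℝ E ≤ 72 * Q := by
  have hd0 : (0 : ℝ) < finrank ℝ E := by
    have : 0 < finrank ℝ E := by omega
    exact_mod_cast this
  have hT0 : 0 ≤ TT μ := by
    unfold TT
    exact M_nonneg μ fun u _ => M_nonneg μ fun v _ => sq_nonneg _
  have hnt : Nontrivial E := Module.nontrivial_of_finrank_pos (R := ℝ) (by omega)
  have hQ0 : 0 < Q := (mean_pos' μ A hA).trans_le hQ
  rcases hT0.eq_or_lt with hT | hT
  · rw [← hT]
    have : (0 : ℝ) ≤ 72 * Q := by positivity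
    simpa using this
  · have h1 := TT_leQ μ (s := TT μ) (κ := 72 / finrank ℝ E) hT
      (by positivity) (fun a => h.kappa μ hd a) A hA hQ
    have h3 : 72 / (finrank ℝ E : ℝ) * Q / (2 * TT μ) =
        36 * Q / (finrank ℝ E * TT μ) := by
      field_simp
      ring
    rw [h3] at h1
    have h4 : TT μ / 2 ≤ 36 * Q / (finrank ℝ E * TT μ) := by linarith
    rw [le_div_iff₀ (mul_pos hd0 hT)] at h4
    nlinarith [h4]

end

end Pool.Agent.Lib.MP_5e7226_co.TH
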