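import Pool.Agent.Lib.MP_5e7226_co.TH.F2
import Pool.Agent.Lib.MP_5e7226_co.CubBody

/-!
# TH, F3: convex bodies
-/

set_option autoImplicit false
set_option linter.unusedSectionVars false

open MeasureTheory Set Module Metric
open scoped InnerProductSpace

namespace Pool.Agent.Lib.MP_5e7226_co.TH

/-- The normed space of a seminorm which is a norm. -/
theorem exists_normed {E : Type} [AddCommGroup E] [Module ℝ E] (N : Seminorm ℝ E)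
    (hN : ∀ x, N x = 0 → x = 0) :
    ∃ (F : Type) (_ : NormedAddCommGroup F) (_ : NormedSpace ℝ F) (e : E ≃ₗ[ℝ] F),
      ∀ v, ‖e v‖ = N v := by
  let nm : Norm E := ⟨N⟩
  have core : NormedSpace.Core ℝ E :=
    { norm_nonneg := fun x => apply_nonneg N x
      norm_smul := fun c x => map_smul_eq_mul N c x
      norm_triangle := fun x y => map_add_le_add N x y
      norm_eq_zero_iff := fun x => ⟨fun h => hN x h, fun h => by rw [h]; exact map_zero N⟩ }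
  let nag : NormedAddCommGroup E := NormedAddCommGroup.ofCore core
  let ns : NormedSpace ℝ E := NormedSpace.ofCore core
  exact ⟨E, nag, ns, LinearEquiv.refl ℝ E, fun v => rfl⟩

section body

variable {d : ℕ}

/-- The support function of `K - o`. -/
noncomputable def supp (K : Set (EuclideanSpace ℝ (Fin d))) (o v : EuclideanSpace ℝ (Fin d)) : ℝ :=
  sSup ((fun x => ⟪v, x - o⟫_ℝ) '' K)

/-- The polar body of `K - o`. -/
def polarSet (K : Set (EuclideanSpace ℝ (Fin d))) (o : EuclideanSpace ℝ (Fin d)) :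
    Set (EuclideanSpace ℝ (Fin d)) :=
  {v | ∀ x ∈ K, ⟪v, x - o⟫_ℝ ≤ 1}

variable {K : Set (EuclideanSpace ℝ (Fin d))} {o : EuclideanSpace ℝ (Fin d)}

theorem exists_space (hKk : IsCompact K) (ho : o ∈ interior K)
    (hsym : ∀ x ∈ K, (2 : ℝ) • o - x ∈ K) :
    ∃ (F : Type) (_ : NormedAddCommGroup F) (_ : NormedSpace ℝ F)
      (e : EuclideanSpace ℝ (Fin d) ≃ₗ[ℝ] F),
      (∀ v, ‖e v‖ = supp K o v) ∧ (∀ v, ∀ y ∈ K, |⟪v, y - o⟫_ℝ| ≤ ‖e v‖) ∧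
        ∀ v, ∃ x ∈ K, ⟪v, x - o⟫_ℝ = ‖e v‖ := by
  obtain ⟨N, hNK⟩ := Cub.exists_supp hKk ⟨o, interior_subset ho⟩ hsym
  have hpos : ∀ u, u ≠ 0 → 0 < N u := by
    intro u hu
    have hun : 0 < ‖u‖ := norm_pos_iff.mpr hu
    obtain ⟨r, hr, hball⟩ := Metric.isOpen_iff.mp isOpen_interior o ho
    have hmem : o + (r / 2 / ‖u‖) • u ∈ K := by
      apply interior_subset
      apply hball
      rw [Metric.mem_ball, dist_eq_norm, add_sub_cancel_left, norm_smul, Real.norm_eq_abs,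
        abs_of_pos (by positivity), div_mul_cancel₀ _ hun.ne']
      linarith
    have h1 := (le_abs_self _).trans ((hNK u).1 _ hmem)
    rw [add_sub_cancel_left, inner_smul_right, real_inner_self_eq_norm_sq] at h1
    have : 0 < r / 2 / ‖u‖ * ‖u‖ ^ 2 := by positivity
    linarith
  obtain ⟨F, i1, i2, e, he⟩ := exists_normed N fun x hx => by
    by_contra h
    exact (hpos x h).ne' hx
  refine ⟨F, i1, i2, e, fun v => ?_, fun v y hy => ?_, fun v => ?_⟩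
  · rw [he]
    obtain ⟨x, hx, hxN⟩ := (hNK v).2
    have hg : IsGreatest ((fun x => ⟪v, x - o⟫_ℝ) '' K) (N v) := by
      refine ⟨⟨x, hx, hxN⟩, ?_⟩
      rintro _ ⟨y, hy, rfl⟩
      exact (le_abs_self _).trans ((hNK v).1 y hy)
    exact hg.csSup_eq.symm
  · rw [he]
    exact (hNK v).1 y hy
  · rw [he]
    exact (hNK v).2

variable {F : Type} [NormedAddCommGroup F] [NormedSpace ℝ F]

theorem polar_eq (e : EuclideanSpace ℝ (Fin d) ≃ₗ[ℝ] F)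
    (h1 : ∀ v, ∀ y ∈ K, |⟪v, y - o⟫_ℝ| ≤ ‖e v‖) (h2 : ∀ v, ∃ x ∈ K, ⟪v, x - o⟫_ℝ = ‖e v‖) :
    polarSet K o = {v | ‖e v‖ ≤ 1} := by
  ext v
  constructor
  · intro hv
    obtain ⟨x, hx, hxe⟩ := h2 v
    show ‖e v‖ ≤ 1
    rw [← hxe]
    exact hv x hx
  · intro hv x hx
    exact ((le_abs_self _).trans (h1 v x hx)).trans hv

/-- The hyperplanes. -/
theorem sep_of_cover (hd : 1 ≤ d) (e : EuclideanSpace ℝ (Fin d) ≃ₗ[ℝ] F)
    (h1 : ∀ v, ∀ y ∈ K, |⟪v, y - o⟫_ℝ| ≤ ‖e v‖) (h2 : ∀ v, ∃ x ∈ K, ⟪v, x - o⟫_ℝ = ‖e v‖)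
    {k : ℕ} (w : Fin k → F)
    (hw : ∀ x : F, ‖x‖ = 1 → ∃ i, ‖x - (1 / 2 : ℝ) • w i‖ ≤ 1 - 3 / (8 * d)) :
    ∃ (w' : Fin k → EuclideanSpace ℝ (Fin d)) (b : Fin k → ℝ),
      ∀ u x₀ : EuclideanSpace ℝ (Fin d), u ≠ 0 → x₀ ∈ K →
        (∀ y ∈ K, ⟪u, y⟫_ℝ ≤ ⟪u, x₀⟫_ℝ) →
          ∃ i, ⟪w' i, o⟫_ℝ < b i ∧ ∀ x ∈ K, ⟪u, x⟫_ℝ = ⟪u, x₀⟫_ℝ → b i < ⟪w' i, x⟫_ℝ := by
  have hd0 : (0 : ℝ) < d := by
    have : 0 < d := by omega
    exact_mod_cast this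
  refine ⟨fun i => e.symm (w i), fun i => ⟪e.symm (w i), o⟫_ℝ + 3 / (8 * d),
    fun u x₀ hu hx₀ hmax => ?_⟩
  have hNu : 0 < ‖e u‖ := by
    rw [norm_pos_iff]
    simpa using hu
  obtain ⟨i, hi⟩ := hw (e ((‖e u‖)⁻¹ • u)) (by
    rw [map_smul, norm_smul, norm_inv, norm_norm, inv_mul_cancel₀ hNu.ne'])
  have hx₀N : ⟪u, x₀ - o⟫_ℝ = ‖e u‖ := by
    apply le_antisymm ((le_abs_self _).trans (h1 u x₀ hx₀))
    obtain ⟨y, hy, hyN⟩ := h2 u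
    rw [← hyN, inner_sub_right, inner_sub_right]
    linarith [hmax y hy]
  have h38 : 0 < 3 / (8 * (d : ℝ)) := by positivity
  refine ⟨i, by show _ < ⟪e.symm (w i), o⟫_ℝ + 3 / (8 * d); linarith, fun x hx hxe => ?_⟩
  have h3 : ⟪u, x - o⟫_ℝ = ‖e u‖ := by
    rw [← hx₀N, inner_sub_right, inner_sub_right, hxe]
  have h4 : e ((‖e u‖)⁻¹ • u) - (1 / 2 : ℝ) • w i =
      e ((‖e u‖)⁻¹ • u - (1 / 2 : ℝ) • e.symm (w i)) := by
    rw [map_sub, map_smul e (1 / 2 : ℝ), e.apply_symm_apply]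
  rw [h4] at hi
  have h5 := ((le_abs_self _).trans (h1 _ x hx)).trans hi
  rw [inner_sub_left, inner_smul_left, inner_smul_left, h3] at h5
  simp only [conj_trivial] at h5
  rw [inv_mul_cancel₀ hNu.ne'] at h5
  have h6 : ⟪e.symm (w i), x - o⟫_ℝ = ⟪e.symm (w i), x⟫_ℝ - ⟪e.symm (w i), o⟫_ℝ :=
    inner_sub_right _ _ _
  show ⟪e.symm (w i), o⟫_ℝ + 3 / (8 * d) < ⟪e.symm (w i), x⟫_ℝ
  linarith

/-- The dual map of a linear symmetry. -/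
theorem sym_isom (e : EuclideanSpace ℝ (Fin d) ≃ₗ[ℝ] F)
    (h1 : ∀ v, ∀ y ∈ K, |⟪v, y - o⟫_ℝ| ≤ ‖e v‖) (h2 : ∀ v, ∃ x ∈ K, ⟪v, x - o⟫_ℝ = ‖e v‖)
    (g : EuclideanSpace ℝ (Fin d) ≃ₗ[ℝ] EuclideanSpace ℝ (Fin d))
    (hg : ∀ x, o + x ∈ K ↔ o + g x ∈ K)
    (g' : EuclideanSpace ℝ (Fin d) →ₗ[ℝ] EuclideanSpace ℝ (Fin d))
    (hg' : ∀ v x, ⟪g' v, x⟫_ℝ = ⟪v, g x⟫_ℝ) (v : EuclideanSpace ℝ (Fin d)) :
    ‖e (g' v)‖ = ‖e v‖ := by
  apply le_antisymm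
  · obtain ⟨x, hx, hxe⟩ := h2 (g' v)
    rw [← hxe, hg']
    have h3 : o + g (x - o) ∈ K := (hg (x - o)).1 (by rwa [add_sub_cancel])
    have h4 := (le_abs_self _).trans (h1 v _ h3)
    rwa [add_sub_cancel_left] at h4
  · obtain ⟨x, hx, hxe⟩ := h2 v
    have h3 : o + g.symm (x - o) ∈ K := (hg _).2 (by
      rw [g.apply_symm_apply, add_sub_cancel]
      exact hx)
    have h4 := (le_abs_self _).trans (h1 (g' v) _ h3)
    rw [add_sub_cancel_left, hg', g.apply_symm_apply, hxe] at h4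
    exact h4

/-- Invariant subspaces. -/
theorem sym_transfer [FiniteDimensional ℝ F] (e : EuclideanSpace ℝ (Fin d) ≃ₗ[ℝ] F)
    (h1 : ∀ v, ∀ y ∈ K, |⟪v, y - o⟫_ℝ| ≤ ‖e v‖) (h2 : ∀ v, ∃ x ∈ K, ⟪v, x - o⟫_ℝ = ‖e v‖)
    {r : ℕ}
    (hr : ∀ V : Submodule ℝ (EuclideanSpace ℝ (Fin d)), V ≠ ⊥ →
      (∀ g : EuclideanSpace ℝ (Fin d) ≃ₗ[ℝ] EuclideanSpace ℝ (Fin d),
        (∀ x, o + x ∈ K ↔ o + g x ∈ K) → ∀ v ∈ V, g v ∈ V) → r ≤ finrank ℝ V)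
    (W : Submodule ℝ (F →ₗ[ℝ] ℝ)) (hW : W ≠ ⊥)
    (hWi : ∀ h : F →ₗ[ℝ] F, (∀ v, ‖h v‖ = ‖v‖) → ∀ f ∈ W, f ∘ₗ h ∈ W) : r ≤ finrank ℝ W := by
  -- the linear equivalence with the dual space
  let Φ : EuclideanSpace ℝ (Fin d) →ₗ[ℝ] (F →ₗ[ℝ] ℝ) :=
    { toFun := fun y => ((innerSL ℝ y : EuclideanSpace ℝ (Fin d) →L[ℝ] ℝ) :
        EuclideanSpace ℝ (Fin d) →ₗ[ℝ] ℝ) ∘ₗ (e.symm : F →ₗ[ℝ] EuclideanSpace ℝ (Fin d))
      map_add' := fun y z => by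
        ext w
        simp
      map_smul' := fun c y => by
        ext w
        simp }
  have hΦ : ∀ y w, Φ y w = ⟪y, e.symm w⟫_ℝ := fun y w => rfl
  have hinj : Function.Injective Φ := by
    rw [← LinearMap.ker_eq_bot, LinearMap.ker_eq_bot']
    intro y hy
    have h3 := hΦ y (e y)
    rw [hy, e.symm_apply_apply, real_inner_self_eq_norm_sq] at h3
    have h4 : ‖y‖ ^ 2 = 0 := by
      rw [← h3]
      rfl
    simpa using h4
  have hfr : finrank ℝ (F →ₗ[ℝ] ℝ) = finrank ℝ (EuclideanSpace ℝ (Fin d)) := by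
    have h3 : finrank ℝ (F →ₗ[ℝ] ℝ) = finrank ℝ F := Subspace.dual_finrank_eq
    rw [h3, e.finrank_eq]
  let Ψ : EuclideanSpace ℝ (Fin d) ≃ₗ[ℝ] (F →ₗ[ℝ] ℝ) :=
    LinearEquiv.ofInjectiveOfFinrankEq Φ hinj hfr.symm
  have hΨ : ∀ y, Ψ y = Φ y := fun y => rfl
  let V : Submodule ℝ (EuclideanSpace ℝ (Fin d)) := W.comap (Ψ : _ →ₗ[ℝ] (F →ₗ[ℝ] ℝ))
  have hVW : V.map (Ψ : _ →ₗ[ℝ] (F →ₗ[ℝ] ℝ)) = W :=
    Submodule.map_comap_eq_of_surjective Ψ.surjective W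
  have hfin : finrank ℝ V = finrank ℝ W := by
    rw [← hVW]
    exact (LinearEquiv.finrank_map_eq Ψ V).symm
  have hV : V ≠ ⊥ := by
    intro h
    apply hW
    rw [← hVW, h, Submodule.map_bot]
  rw [← hfin]
  refine hr V hV fun g hg y hy => ?_
  let g' := LinearMap.adjoint (g : EuclideanSpace ℝ (Fin d) →ₗ[ℝ] EuclideanSpace ℝ (Fin d))
  have hg' : ∀ v x, ⟪g' v, x⟫_ℝ = ⟪v, g x⟫_ℝ := fun v x => LinearMap.adjoint_inner_left _ _ _
  let h : F →ₗ[ℝ] F := (e : _ →ₗ[ℝ] F) ∘ₗ g' ∘ₗ (e.symm : F →ₗ[ℝ] _)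
  have hh : ∀ w, ‖h w‖ = ‖w‖ := by
    intro w
    have h3 := sym_isom e h1 h2 g hg g' hg' (e.symm w)
    rw [e.apply_symm_apply] at h3
    exact h3
  have hy' : Φ y ∈ W := hy
  have h3 := hWi h hh _ hy'
  have h4 : Φ y ∘ₗ h = Φ (g y) := by
    ext w
    rw [LinearMap.comp_apply, hΦ, hΦ]
    show ⟪y, e.symm (e (g' (e.symm w)))⟫_ℝ = _
    rw [e.symm_apply_apply, real_inner_comm, hg', real_inner_comm]
  rw [h4] at h3
  exact h3

/-- Unconditional bodies. -/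
theorem unc_transfer (e : EuclideanSpace ℝ (Fin d) ≃ₗ[ℝ] F)
    (h1 : ∀ v, ∀ y ∈ K, |⟪v, y - o⟫_ℝ| ≤ ‖e v‖) (h2 : ∀ v, ∃ x ∈ K, ⟪v, x - o⟫_ℝ = ‖e v‖)
    (b : Basis (Fin d) ℝ (EuclideanSpace ℝ (Fin d)))
    (hb : ∀ i x, o + x ∈ K → o + (x - (2 * b.coord i x) • b i) ∈ K) :
    ∃ c : Basis (Fin d) ℝ F, Unc c := by
  classical
  let Φ : EuclideanSpace ℝ (Fin d) ≃ₗ[ℝ] (EuclideanSpace ℝ (Fin d) →ₗ[ℝ] ℝ) :=
    LinearEquiv.ofInjectiveOfFinrankEq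
      ({ toFun := fun y => ((innerSL ℝ y : EuclideanSpace ℝ (Fin d) →L[ℝ] ℝ) :
          EuclideanSpace ℝ (Fin d) →ₗ[ℝ] ℝ)
         map_add' := fun y z => by
          ext w
          simp
         map_smul' := fun c y => by
          ext w
          simp } :
        EuclideanSpace ℝ (Fin d) →ₗ[ℝ] (EuclideanSpace ℝ (Fin d) →ₗ[ℝ] ℝ)) (by
      rw [← LinearMap.ker_eq_bot, LinearMap.ker_eq_bot']
      intro y hy
      have h4 : ⟪y, y⟫_ℝ = 0 := LinearMap.congr_fun hy y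
      rwa [inner_self_eq_zero] at h4) Subspace.dual_finrank_eq.symm
  have hΦ : ∀ y w, Φ y w = ⟪y, w⟫_ℝ := fun y w => rfl
  let cb : Basis (Fin d) ℝ (EuclideanSpace ℝ (Fin d)) := b.dualBasis.map Φ.symm
  have hcb : ∀ i x, ⟪cb i, x⟫_ℝ = b.coord i x := by
    intro i x
    rw [← hΦ]
    have h3 : Φ (cb i) = b.dualBasis i := by
      show Φ ((b.dualBasis.map Φ.symm) i) = _
      rw [Basis.map_apply, Φ.apply_symm_apply]
    rw [h3, Basis.coe_dualBasis]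
  have hcr : ∀ i v, cb.repr v i = ⟪v, b i⟫_ℝ := by
    intro i v
    conv_rhs => rw [← cb.sum_repr v]
    rw [sum_inner, Finset.sum_eq_single i]
    · rw [inner_smul_left, hcb, Basis.coord_apply, Basis.repr_self, Finsupp.single_eq_same]
      simp
    · intro j _ hj
      rw [inner_smul_left, hcb, Basis.coord_apply, Basis.repr_self,
        Finsupp.single_eq_of_ne hj]
      simp
    · intro hi
      exact absurd (Finset.mem_univ i) hi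
  refine ⟨cb.map e, fun i w => ?_⟩
  obtain ⟨v, rfl⟩ := e.surjective w
  have h3 : (cb.map e).coord i (e v) = ⟪v, b i⟫_ℝ := by
    rw [Basis.coord_apply, Basis.map_repr, LinearEquiv.trans_apply, e.symm_apply_apply, hcr]
  rw [h3, Basis.map_apply, ← map_smul, ← map_sub]
  have key : ∀ v : EuclideanSpace ℝ (Fin d),
      ‖e (v - (2 * ⟪v, b i⟫_ℝ) • cb i)‖ ≤ ‖e v‖ := by
    intro v
    obtain ⟨x, hx, hxe⟩ := h2 (v - (2 * ⟪v, b i⟫_ℝ) • cb i)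
    rw [← hxe]
    have h4 := hb i (x - o) (by rwa [add_sub_cancel])
    have h5 := (le_abs_self _).trans (h1 v _ h4)
    rw [add_sub_cancel_left] at h5
    refine le_trans (le_of_eq ?_) h5
    generalize x - o = z
    rw [inner_sub_left, inner_smul_left, inner_sub_right, inner_smul_right, hcb]
    simp only [conj_trivial]
    ring
  refine le_antisymm (key v) ?_
  have h6 := key (v - (2 * ⟪v, b i⟫_ℝ) • cb i)
  have h7 : ⟪v - (2 * ⟪v, b i⟫_ℝ) • cb i, b i⟫_ℝ = -⟪v, b i⟫_ℝ := by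
    rw [inner_sub_left, inner_smul_left, hcb, Basis.coord_apply, Basis.repr_self,
      Finsupp.single_eq_same]
    simp only [conj_trivial]
    ring
  rw [h7] at h6
  have h8 : v - (2 * ⟪v, b i⟫_ℝ) • cb i - (2 * -⟪v, b i⟫_ℝ) • cb i = v := by
    module
  rwa [h8] at h6

end body

end Pool.Agent.Lib.MP_5e7226_co.TH
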