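import Pool.Agent.Lib.MP_5e7226_co.TH.F3

/-!
# TH, F4: means over the polar body, the theorems for bodies
-/

set_option autoImplicit false
set_option linter.unusedSectionVars false

open MeasureTheory Set Module Metric
open scoped InnerProductSpace

namespace Pool.Agent.Lib.MP_5e7226_co.TH

variable {d : ℕ}

/-- The thickness of `(K, o)`. -/
noncomputable def thick (K : Set (EuclideanSpace ℝ (Fin d))) (o : EuclideanSpace ℝ (Fin d)) : ℝ :=
  ⨍ u in polarSet K o, ⨍ v in polarSet K o, (fderiv ℝ (supp K o) u v) ^ 2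

variable {K : Set (EuclideanSpace ℝ (Fin d))} {o : EuclideanSpace ℝ (Fin d)}

variable {F : Type} [NormedAddCommGroup F] [NormedSpace ℝ F] [FiniteDimensional ℝ F]
  [MeasurableSpace F] [BorelSpace F]

theorem haar_map (e : EuclideanSpace ℝ (Fin d) ≃ₗ[ℝ] F) :
    (Measure.map e (volume : Measure (EuclideanSpace ℝ (Fin d)))).IsAddHaarMeasure :=
  e.toContinuousLinearEquiv.isAddHaarMeasure_map _

theorem M_map (e : EuclideanSpace ℝ (Fin d) ≃ₗ[ℝ] F)
    (hP : polarSet K o = {v | ‖e v‖ ≤ 1}) (f : F → ℝ) :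
    M (Measure.map e (volume : Measure (EuclideanSpace ℝ (Fin d)))) f =
      ⨍ v in polarSet K o, f (e v) := by
  have hme : MeasurableEmbedding (e : EuclideanSpace ℝ (Fin d) → F) :=
    e.toContinuousLinearEquiv.toHomeomorph.measurableEmbedding
  have hpre : (e : EuclideanSpace ℝ (Fin d) → F) ⁻¹' closedBall (0 : F) 1 = polarSet K o := by
    rw [hP]
    ext v
    simp
  unfold M
  rw [setAverage_eq, hme.setIntegral_map, hpre, smul_eq_mul]
  congr 2
  unfold Measure.real
  rw [hme.map_apply, hpre]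

theorem nD_map (e : EuclideanSpace ℝ (Fin d) ≃ₗ[ℝ] F)
    (hs : ∀ v, ‖e v‖ = supp K o v) (u v : EuclideanSpace ℝ (Fin d)) :
    nD (e u) (e v) = fderiv ℝ (supp K o) u v := by
  have h1 : supp K o = (fun w : F => ‖w‖) ∘ (e.toContinuousLinearEquiv) := by
    funext v
    exact (hs v).symm
  rw [h1, ContinuousLinearEquiv.comp_right_fderiv]
  rfl

theorem TT_map (e : EuclideanSpace ℝ (Fin d) ≃ₗ[ℝ] F)
    (hs : ∀ v, ‖e v‖ = supp K o v) (hP : polarSet K o = {v | ‖e v‖ ≤ 1}) :
    TT (Measure.map e (volume : Measure (EuclideanSpace ℝ (Fin d)))) = thick K o := by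
  unfold TT thick
  rw [M_map e hP]
  congr 1
  funext u
  rw [M_map e hP]
  congr 1
  funext v
  rw [nD_map e hs]

end Pool.Agent.Lib.MP_5e7226_co.TH
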