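import Pool.Agent.Lib.MP_5e7226_co.TH.F5

/-!
# TH, F6: thickness and flat directions
-/

set_option autoImplicit false
set_option linter.unusedSectionVars false

open MeasureTheory Set Module Metric
open scoped InnerProductSpace

namespace Pool.Agent.Lib.MP_5e7226_co.TH

variable {d : ℕ} {K : Set (EuclideanSpace ℝ (Fin d))} {o : EuclideanSpace ℝ (Fin d)}

/-- The derivative of the support function is given by a point of the body. -/
theorem exists_grad (hKc : Convex ℝ K) (hKk : IsCompact K) {F : Type} [NormedAddCommGroup F]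
    [NormedSpace ℝ F] (e : EuclideanSpace ℝ (Fin d) ≃ₗ[ℝ] F)
    (h2 : ∀ v, ∃ x ∈ K, ⟪v, x - o⟫_ℝ = ‖e v‖) (u : F) :
    ∃ x ∈ K, ∀ v, nD u (e v) = ⟪v, x - o⟫_ℝ :=
  Cub.exists_point hKc hKk (fun v => ‖e v‖) h2
    ((nD u : F →ₗ[ℝ] ℝ) ∘ₗ (e : EuclideanSpace ℝ (Fin d) →ₗ[ℝ] F)) fun v => nD_le u (e v)

/-- The thickness is at most the maximal second moment of a functional of norm `≤ 1`. -/
theorem body_flat (hKc : Convex ℝ K) (hKk : IsCompact K) (ho : o ∈ interior K)
    (hsym : ∀ x ∈ K, (2 : ℝ) • o - x ∈ K) {S : ℝ}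
    (hS : ∀ x ∈ K, ⨍ v in polarSet K o, ⟪v, x - o⟫_ℝ ^ 2 ≤ S) : thick K o ≤ S := by
  obtain ⟨F, i1, i2, e, hs, h1, h2⟩ := exists_space hKk ho hsym
  have hfd : FiniteDimensional ℝ F := Module.Finite.equiv e
  borelize F
  have hμ := haar_map e
  have hP := polar_eq e h1 h2
  rw [← TT_map e hs hP]
  have hB1 : Bd fun u : F => M (Measure.map e (volume : Measure (EuclideanSpace ℝ (Fin d))))
      fun v => nD u v ^ 2 := by
    refine Bd.mean _ (F := fun u v => nD u v ^ 2) (measurable_nD.pow_const 2) (C := 1) ?_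
    intro u v _ hv
    rw [abs_pow]
    exact pow_le_one₀ (abs_nonneg _) ((nD_le u v).trans hv)
  have h3 : ∀ u : F, ‖u‖ ≤ 1 → M (Measure.map e (volume : Measure (EuclideanSpace ℝ (Fin d))))
      (fun v => nD u v ^ 2) ≤ S := by
    intro u _
    obtain ⟨x, hx, hxe⟩ := exists_grad hKc hKk e h2 u
    rw [M_map e hP]
    simp_rw [hxe]
    exact hS x hx
  calc TT (Measure.map e (volume : Measure (EuclideanSpace ℝ (Fin d))))
      ≤ M (Measure.map e (volume : Measure (EuclideanSpace ℝ (Fin d)))) (fun _ => S) :=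
        M_mono _ hB1 (Bd.const _) h3
    _ = S := M_const _ _

end Pool.Agent.Lib.MP_5e7226_co.TH
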