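import Pool.Agent.Lib.MP_5e7226_co.TH.Basic
import Pool.Agent.Lib.MP_5e7226_co.HL.A2

/-!
# TH, G1: Brunn-Minkowski for midpoints
-/

set_option autoImplicit false
set_option linter.unusedSectionVars false

open MeasureTheory Set Module Metric

namespace Pool.Agent.Lib.MP_5e7226_co.TH

variable {E : Type} [NormedAddCommGroup E] [NormedSpace ℝ E] [FiniteDimensional ℝ E]
  [MeasurableSpace E] [BorelSpace E] (μ : Measure E) [μ.IsAddHaarMeasure]

/-- PROOF. A linear equivalence `e : E ≃L[ℝ] EuclideanSpace ℝ (Fin n)`, `n = finrank`; `Measure.map e μ` is a Haar measure on the Euclidean space, so it is `c • volume`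
(`Measure.isAddHaarMeasure_eq_smul`), and `Pool.Agent.MP5e7226.HL.bm_mid` for the images (`E n` there is `EuclideanSpace ℝ (Fin n)`). -/
theorem bm {A S C : Set E} (hA : MeasurableSet A) (hS : MeasurableSet S) (hC : MeasurableSet C)
    (h : ∀ a ∈ A, ∀ b ∈ S, (1 / 2 : ℝ) • (a + b) ∈ C) : μ A * μ S ≤ μ C ^ 2 := by
  let e : E ≃L[ℝ] EuclideanSpace ℝ (Fin (finrank ℝ E)) :=
    ContinuousLinearEquiv.ofFinrankEq (by simp)
  have hH : (Measure.map e μ).IsAddHaarMeasure := ContinuousLinearEquiv.isAddHaarMeasure_map e μ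
  obtain ⟨c, hc⟩ : ∃ c : NNReal, Measure.map e μ =
      c • (volume : Measure (EuclideanSpace ℝ (Fin (finrank ℝ E)))) :=
    ⟨_, Measure.isAddLeftInvariant_eq_smul (Measure.map e μ) volume⟩
  have hemb : MeasurableEmbedding e := e.toHomeomorph.toMeasurableEquiv.measurableEmbedding
  have hvol : ∀ X : Set E, μ X = c * volume (e '' X) := by
    intro X
    have h1 : Measure.map e μ (e '' X) = μ X := by
      rw [hemb.map_apply, Set.preimage_image_eq _ e.injective]
    rw [← h1, hc]
    rfl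
  have hm : ∀ X : Set E, MeasurableSet X → MeasurableSet (e '' X) := fun X hX =>
    hemb.measurableSet_image.2 hX
  have key := Pool.Agent.MP5e7226.HL.bm_mid (hm A hA) (hm S hS) (hm C hC) (by
    rintro _ ⟨a, ha, rfl⟩ _ ⟨b, hb, rfl⟩
    refine ⟨(1 / 2 : ℝ) • (a + b), h a ha b hb, ?_⟩
    rw [map_smul, map_add])
  rw [hvol A, hvol S, hvol C]
  calc c * volume (e '' A) * (c * volume (e '' S))
      = c ^ 2 * (volume (e '' A) * volume (e '' S)) := by ring
    _ ≤ c ^ 2 * volume (e '' C) ^ 2 := by gcongr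
    _ = (c * volume (e '' C)) ^ 2 := by ring

end Pool.Agent.Lib.MP_5e7226_co.TH
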