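import Pool.Agent.Lib.MP_5e7226_co.TH.G1

/-!
# TH, G2: the tail probabilities of a linear functional
-/

set_option autoImplicit false
set_option linter.unusedSectionVars false

open MeasureTheory Set Module Metric

namespace Pool.Agent.Lib.MP_5e7226_co.TH

variable {E : Type} [NormedAddCommGroup E] [NormedSpace ℝ E] [FiniteDimensional ℝ E]
  [MeasurableSpace E] [BorelSpace E] (μ : Measure E) [μ.IsAddHaarMeasure]

/-- The tail probability of `|g|`. -/
noncomputable def Pr (g : E →ₗ[ℝ] ℝ) (a : ℝ) : ℝ :=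
  M μ ({u : E | a ≤ |g u|}.indicator fun _ => (1 : ℝ))

private theorem G2_ms (g : E →ₗ[ℝ] ℝ) (a : ℝ) : MeasurableSet {u : E | a ≤ |g u|} :=
  measurableSet_le measurable_const
    (g.continuous_of_finiteDimensional.abs).measurable

private theorem G2_ms' (g : E →ₗ[ℝ] ℝ) (a : ℝ) : MeasurableSet {u : E | a ≤ g u} :=
  measurableSet_le measurable_const g.continuous_of_finiteDimensional.measurable

private theorem G2_ind_nonneg (S : Set E) (u : E) : 0 ≤ S.indicator (fun _ => (1 : ℝ)) u :=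
  indicator_nonneg (fun _ _ => zero_le_one) u

theorem Pr_nonneg (g : E →ₗ[ℝ] ℝ) (a : ℝ) : 0 ≤ Pr μ g a := by
  exact M_nonneg μ fun u _ => G2_ind_nonneg _ u

theorem Pr_le_one (g : E →ₗ[ℝ] ℝ) (a : ℝ) : Pr μ g a ≤ 1 := by
  have h := M_mono μ (Bd.indicator (G2_ms g a)) (Bd.const 1) fun u _ =>
    indicator_le_self' (fun _ _ => zero_le_one) u
  rw [M_const] at h
  exact h

theorem Pr_anti (g : E →ₗ[ℝ] ℝ) {a b : ℝ} (hab : a ≤ b) : Pr μ g b ≤ Pr μ g a := by
  refine M_mono μ (Bd.indicator (G2_ms g b)) (Bd.indicator (G2_ms g a)) fun u _ => ?_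
  refine indicator_le_indicator_of_subset (fun v hv => ?_) (fun _ => zero_le_one) u
  exact hab.trans hv

/-- Markov. -/
theorem Pr_markov (g : E →ₗ[ℝ] ℝ) {a : ℝ} (ha : 0 < a) :
    Pr μ g a ≤ M μ (fun u => |g u|) / a := by
  rw [le_div_iff₀ ha, Pr, ← M_mul_right]
  refine M_mono μ ((Bd.indicator (G2_ms g a)).mul (Bd.const a)) (Bd.lin g).abs fun u _ => ?_
  by_cases h : u ∈ {u : E | a ≤ |g u|}
  · rw [indicator_of_mem h, one_mul]
    exact h
  · rw [indicator_of_notMem h, zero_mul]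
    exact abs_nonneg _

/-- PROOF. Let `q s` be the measure of `{u | ‖u‖ ≤ 1 ∧ s ≤ g u}`. By symmetry `Pr μ g s = 2 q s / vol` for `s > 0` and `q 0 ≥ vol / 2`. `bm` for the sets with `s = 0`, `s = 2 a`, `s = a`:
`q 0 * q (2 a) ≤ q a ^ 2`. -/
theorem Pr_sq (g : E →ₗ[ℝ] ℝ) {a : ℝ} (ha : 0 < a) : Pr μ g (2 * a) ≤ Pr μ g a ^ 2 := by
  set q : ℝ → ℝ := fun s => M μ ({u : E | s ≤ g u}.indicator fun _ => (1 : ℝ)) with hq
  have hqn : ∀ s, 0 ≤ q s := fun s => M_nonneg μ fun u _ => G2_ind_nonneg _ u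
  have hneg : ∀ s, M μ (fun u => {u : E | s ≤ g u}.indicator (fun _ => (1 : ℝ)) (-u)) = q s :=
    fun s => M_neg μ _
  have hnegBd : ∀ s, Bd (fun u : E => {u : E | s ≤ g u}.indicator (fun _ => (1 : ℝ)) (-u)) := by
    intro s
    refine ⟨(measurable_const.indicator (G2_ms' g s)).comp measurable_neg, 1, fun u _ => ?_⟩
    rw [abs_of_nonneg (G2_ind_nonneg _ _)]
    exact indicator_le_self' (fun _ _ => zero_le_one) (-u)
  have hPr : ∀ s, 0 < s → Pr μ g s = 2 * q s := by
    intro s hs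
    have h1 : Pr μ g s = M μ (fun u => {u : E | s ≤ g u}.indicator (fun _ => (1 : ℝ)) u +
        {u : E | s ≤ g u}.indicator (fun _ => (1 : ℝ)) (-u)) := by
      refine M_congr μ fun u _ => ?_
      simp only [indicator_apply, mem_ofPred_eq, map_neg]
      by_cases c1 : s ≤ g u
      · have c2 : ¬ s ≤ -g u := by linarith
        rw [if_pos (c1.trans (le_abs_self _)), if_pos c1, if_neg c2, add_zero]
      · by_cases c2 : s ≤ -g u
        · rw [if_pos (c2.trans (neg_le_abs _)), if_neg c1, if_pos c2, zero_add]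
        · have c3 : ¬ s ≤ |g u| := by
            rw [le_abs]
            tauto
          rw [if_neg c3, if_neg c1, if_neg c2, add_zero]
    rw [h1, M_add μ (Bd.indicator (G2_ms' g s)) (hnegBd s), hneg s]
    simp only [hq]
    ring
  have hq0 : 1 / 2 ≤ q 0 := by
    have h1 : M μ (fun _ : E => (1 : ℝ)) ≤
        M μ (fun u => {u : E | 0 ≤ g u}.indicator (fun _ => (1 : ℝ)) u +
        {u : E | 0 ≤ g u}.indicator (fun _ => (1 : ℝ)) (-u)) := by
      refine M_mono μ (Bd.const 1) ((Bd.indicator (G2_ms' g 0)).add (hnegBd 0)) fun u _ => ?_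
      rcases le_total 0 (g u) with c | c
      · have c' : u ∈ {u : E | 0 ≤ g u} := c
        rw [indicator_of_mem c']
        linarith [G2_ind_nonneg {u : E | 0 ≤ g u} (-u)]
      · have c' : -u ∈ {u : E | 0 ≤ g u} := by
          change 0 ≤ g (-u)
          rw [map_neg]
          linarith
        rw [indicator_of_mem c']
        linarith [G2_ind_nonneg {u : E | 0 ≤ g u} u]
    rw [M_add μ (Bd.indicator (G2_ms' g 0)) (hnegBd 0), hneg 0, M_const] at h1
    have h2 : M μ (fun u => {u : E | 0 ≤ g u}.indicator (fun _ => (1 : ℝ)) u) = q 0 := rfl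
    rw [h2] at h1
    linarith
  have hbm : q 0 * q (2 * a) ≤ q a ^ 2 := by
    have hms : ∀ s, MeasurableSet {u : E | ‖u‖ ≤ 1 ∧ u ∈ {u : E | s ≤ g u}} := fun s =>
      (measurableSet_le measurable_norm measurable_const).inter (G2_ms' g s)
    have hfin : ∀ s, μ {u : E | ‖u‖ ≤ 1 ∧ u ∈ {u : E | s ≤ g u}} ≠ ⊤ := by
      intro s
      refine ne_top_of_le_ne_top (measure_closedBall_lt_top (μ := μ) (x := (0 : E)) (r := 1)).ne
        (measure_mono ?_)
      intro u hu
      exact mem_closedBall_zero_iff.2 hu.1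
    have h1 := bm μ (hms 0) (hms (2 * a)) (hms a) (by
      rintro x ⟨hx1, hx2⟩ y ⟨hy1, hy2⟩
      refine ⟨?_, ?_⟩
      · rw [norm_smul]
        have := norm_add_le x y
        rw [Real.norm_of_nonneg (by norm_num)]
        linarith
      · have e1 : 0 ≤ g x := hx2
        have e2 : 2 * a ≤ g y := hy2
        change a ≤ g ((1 / 2 : ℝ) • (x + y))
        rw [map_smul, map_add, smul_eq_mul]
        linarith)
    have h2 : μ.real {u : E | ‖u‖ ≤ 1 ∧ u ∈ {u : E | 0 ≤ g u}} *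
        μ.real {u : E | ‖u‖ ≤ 1 ∧ u ∈ {u : E | 2 * a ≤ g u}} ≤
        μ.real {u : E | ‖u‖ ≤ 1 ∧ u ∈ {u : E | a ≤ g u}} ^ 2 := by
      have h3 := ENNReal.toReal_mono (ENNReal.pow_ne_top (hfin a)) h1
      rw [ENNReal.toReal_mul, ENNReal.toReal_pow] at h3
      exact h3
    have hv := vol_pos μ
    simp only [hq]
    rw [M_indicator μ (G2_ms' g 0), M_indicator μ (G2_ms' g (2 * a)), M_indicator μ (G2_ms' g a),
      div_mul_div_comm, div_pow, ← sq]
    exact div_le_div_of_nonneg_right h2 (by positivity)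
  rw [hPr _ ha, hPr _ (by linarith)]
  nlinarith [hqn (2 * a), hqn a]

/-- PROOF. Induction on `k`. -/
theorem Pr_iter (g : E →ₗ[ℝ] ℝ) {a : ℝ} (ha : 0 < a) (k : ℕ) :
    Pr μ g (2 ^ k * a) ≤ Pr μ g a ^ (2 ^ k) := by
  induction k with
  | zero => simp
  | succ k ih =>
    have h1 : 0 < 2 ^ k * a := by positivity
    have h2 : (2 : ℝ) ^ (k + 1) * a = 2 * (2 ^ k * a) := by ring
    rw [h2]
    refine (Pr_sq μ g h1).trans ?_
    rw [pow_succ 2 k, pow_mul]
    exact pow_le_pow_left₀ (Pr_nonneg μ g _) ih 2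

end Pool.Agent.Lib.MP_5e7226_co.TH
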