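import Pool.Agent.Lib.MP_5e7226_co.TH.G2

/-!
# TH, G4: central slabs
-/

set_option autoImplicit false
set_option linter.unusedSectionVars false

open MeasureTheory Set Module Metric

namespace Pool.Agent.Lib.MP_5e7226_co.TH

variable {E : Type} [NormedAddCommGroup E] [NormedSpace ℝ E] [FiniteDimensional ℝ E]
  [MeasurableSpace E] [BorelSpace E] (μ : Measure E) [μ.IsAddHaarMeasure]

/-- PROOF. Telescope: `2 ^ k exp (-x 2 ^ k) ≤ (2 / x) (exp (-x 2 ^ k / 2) - exp (-x 2 ^ k))` because `exp y - 1 ≥ y` for `y = x 2 ^ k / 2`, and `2 ^ k / 2 = 2 ^ (k - 1)`. By induction on `n` the sum is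
at most `(2 / x) (exp (-x / 2) - exp (-x 2 ^ n / 2))`. -/
theorem sum_exp_le {x : ℝ} (hx : 0 < x) (n : ℕ) :
    ∑ k ∈ Finset.range n, (2 : ℝ) ^ k * Real.exp (-(x * 2 ^ k)) ≤ 2 / x := by
  have key : ∀ n : ℕ, ∑ k ∈ Finset.range n, (2 : ℝ) ^ k * Real.exp (-(x * 2 ^ k)) ≤
      2 / x * (Real.exp (-(x / 2)) - Real.exp (-(x * 2 ^ n / 2))) := by
    intro n
    induction n with
    | zero => simp
    | succ n ih =>
      rw [Finset.sum_range_succ]
      set y := x * 2 ^ n / 2 with hy
      have hy0 : 0 < y := by positivity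
      have h1 : x * 2 ^ (n + 1) / 2 = 2 * y := by rw [hy, pow_succ]; ring
      have h2 : x * 2 ^ n = 2 * y := by rw [hy]; ring
      have h3 : (2 : ℝ) ^ n = 2 / x * y := by rw [hy]; field_simp
      rw [h1]
      have h4 : (2 : ℝ) ^ n * Real.exp (-(x * 2 ^ n)) ≤
          2 / x * (Real.exp (-y) - Real.exp (-(2 * y))) := by
        rw [h2, h3, mul_assoc]
        refine mul_le_mul_of_nonneg_left ?_ (by positivity)
        have h5 : Real.exp (-y) = Real.exp y * Real.exp (-(2 * y)) := by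
          rw [← Real.exp_add]
          congr 1
          ring
        have h6 := Real.add_one_le_exp y
        have h7 := mul_le_mul_of_nonneg_right h6 (Real.exp_pos (-(2 * y))).le
        rw [h5]
        linarith
      have h8 : 2 / x * (Real.exp (-(x / 2)) - Real.exp (-(2 * y))) =
          2 / x * (Real.exp (-(x / 2)) - Real.exp (-y)) +
            2 / x * (Real.exp (-y) - Real.exp (-(2 * y))) := by ring
      rw [h8]
      exact add_le_add ih h4
  refine (key n).trans ?_
  have h1 : Real.exp (-(x / 2)) ≤ 1 := Real.exp_le_one_iff.2 (by linarith)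
  have h2 := Real.exp_pos (-(x * 2 ^ n / 2))
  calc 2 / x * (Real.exp (-(x / 2)) - Real.exp (-(x * 2 ^ n / 2))) ≤ 2 / x * 1 :=
        mul_le_mul_of_nonneg_left (by linarith) (by positivity)
    _ = 2 / x := mul_one _

/-- PROOF. If `t < s` clear. Otherwise `2 ^ j s ≤ t < 2 ^ (j + 1) s` for some `j < n`, and the terms `k ≤ j` give `s (1 + 2 + ... + 2 ^ j) = (2 ^ (j + 1) - 1) s`. -/
theorem le_dyadic {s t : ℝ} (hs : 0 < s) (ht : 0 ≤ t) {n : ℕ} (htn : t < 2 ^ n * s) :
    t ≤ s + ∑ k ∈ Finset.range n, (if 2 ^ k * s ≤ t then 2 ^ k * s else 0) := by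
  induction n with
  | zero =>
    simp only [pow_zero, one_mul] at htn
    simp only [Finset.range_zero, Finset.sum_empty, add_zero]
    exact htn.le
  | succ n ih =>
    by_cases h : t < 2 ^ n * s
    · rw [Finset.sum_range_succ, ← add_assoc]
      have h1 := ih h
      have h2 : (0 : ℝ) ≤ if 2 ^ n * s ≤ t then 2 ^ n * s else 0 := by
        split_ifs <;> positivity
      linarith
    · push Not at h
      have h1 : ∑ k ∈ Finset.range (n + 1), (if 2 ^ k * s ≤ t then 2 ^ k * s else 0) =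
          ∑ k ∈ Finset.range (n + 1), (2 : ℝ) ^ k * s := by
        refine Finset.sum_congr rfl fun k hk => ?_
        have hkn : k ≤ n := Nat.lt_succ_iff.1 (Finset.mem_range.1 hk)
        have h2 : (2 : ℝ) ^ k * s ≤ 2 ^ n * s :=
          mul_le_mul_of_nonneg_right (pow_le_pow_right₀ (by norm_num) hkn) hs.le
        rw [if_pos (h2.trans h)]
      have h2 : ∀ m : ℕ, ∑ k ∈ Finset.range m, (2 : ℝ) ^ k = 2 ^ m - 1 := by
        intro m
        induction m with
        | zero => simp
        | succ m ihm => rw [Finset.sum_range_succ, ihm, pow_succ]; ring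
      rw [h1, ← Finset.sum_mul, h2]
      have h3 : s + ((2 : ℝ) ^ (n + 1) - 1) * s = 2 ^ (n + 1) * s := by ring
      rw [h3]
      exact htn.le

/-- The measure of the central slab `|g| < s`. PROOF. Let `x = 1 - Pr μ g s ∈ [0, 1]`; we may assume `x > 0`. `Pr μ g (2 ^ k s) ≤ (1 - x) ^ (2 ^ k) ≤ exp (-x 2 ^ k)` (`Pr_iter`). By `le_dyadic` the
mean of `|g|` is at most `s + ∑_{k < n} 2 ^ k s Pr μ g (2 ^ k s) ≤ s (1 + 2 / x) ≤ 3 s / x` (`sum_exp_le`, `n` with `|g| < 2 ^ n s` on the ball). -/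
theorem slab (g : E →ₗ[ℝ] ℝ) {s : ℝ} (hs : 0 < s) :
    (1 - Pr μ g s) * M μ (fun u => |g u|) ≤ 3 * s := by
  set x := 1 - Pr μ g s with hx
  have hx1 : x ≤ 1 := by have := Pr_nonneg μ g s; linarith
  have hx0 : 0 ≤ x := by have := Pr_le_one μ g s; linarith
  rcases hx0.eq_or_lt with h0 | h0
  · rw [← h0, zero_mul]
    positivity
  have hPr : ∀ k : ℕ, Pr μ g (2 ^ k * s) ≤ Real.exp (-(x * 2 ^ k)) := by
    intro k
    refine (Pr_iter μ g hs k).trans ?_
    have h1 : Pr μ g s ≤ Real.exp (-x) := by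
      have := Real.add_one_le_exp (-x)
      linarith
    calc Pr μ g s ^ (2 ^ k) ≤ Real.exp (-x) ^ (2 ^ k) :=
          pow_le_pow_left₀ (Pr_nonneg μ g s) h1 _
      _ = Real.exp (-(x * 2 ^ k)) := by
          rw [← Real.exp_nat_mul]
          congr 1
          push_cast
          ring
  obtain ⟨hm, C, hC⟩ := Bd.lin g
  obtain ⟨n, hn⟩ := pow_unbounded_of_one_lt (C / s) (one_lt_two (α := ℝ))
  have hmeas : ∀ a : ℝ, MeasurableSet {u : E | a ≤ |g u|} := by
    intro a
    exact measurableSet_le measurable_const (measurable_norm.comp hm)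
  set F : ℕ → E → ℝ := fun k u => (2 ^ k * s) * ({u : E | 2 ^ k * s ≤ |g u|}.indicator
    (fun _ => (1 : ℝ))) u with hF
  have hFB : ∀ k, Bd (F k) := fun k => (Bd.const _).mul (Bd.indicator (hmeas _))
  have hFs : Bd fun u => ∑ k ∈ Finset.range n, F k u := Bd.sum _ fun k _ => hFB k
  have h1 : M μ (fun u => |g u|) ≤ M μ (fun u => s + ∑ k ∈ Finset.range n, F k u) := by
    refine M_mono μ (Bd.lin g).abs ((Bd.const s).add hFs) fun u hu => ?_
    have h2 : |g u| < 2 ^ n * s := by
      refine (hC u hu).trans_lt ?_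
      rw [div_lt_iff₀ hs] at hn
      exact hn
    refine (le_dyadic hs (abs_nonneg _) h2).trans (le_of_eq ?_)
    congr 1
    refine Finset.sum_congr rfl fun k _ => ?_
    simp only [hF]
    by_cases h3 : 2 ^ k * s ≤ |g u|
    · rw [if_pos h3, indicator_of_mem (show u ∈ {u : E | 2 ^ k * s ≤ |g u|} from h3), mul_one]
    · rw [if_neg h3, indicator_of_notMem (show u ∉ {u : E | 2 ^ k * s ≤ |g u|} from h3), mul_zero]
  have h2 : M μ (fun u => s + ∑ k ∈ Finset.range n, F k u) =
      s + ∑ k ∈ Finset.range n, (2 ^ k * s) * Pr μ g (2 ^ k * s) := by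
    rw [M_add μ (Bd.const s) hFs, M_const, M_sum μ _ fun k _ => hFB k]
    congr 1
    refine Finset.sum_congr rfl fun k _ => ?_
    simp only [hF]
    rw [M_mul_left]
    rfl
  have h3 : ∑ k ∈ Finset.range n, (2 ^ k * s) * Pr μ g (2 ^ k * s) ≤ s * (2 / x) := by
    calc ∑ k ∈ Finset.range n, (2 ^ k * s) * Pr μ g (2 ^ k * s) ≤
        ∑ k ∈ Finset.range n, (2 ^ k * s) * Real.exp (-(x * 2 ^ k)) :=
          Finset.sum_le_sum fun k _ => mul_le_mul_of_nonneg_left (hPr k) (by positivity)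
      _ = s * ∑ k ∈ Finset.range n, (2 : ℝ) ^ k * Real.exp (-(x * 2 ^ k)) := by
          rw [Finset.mul_sum]
          refine Finset.sum_congr rfl fun k _ => ?_
          ring
      _ ≤ s * (2 / x) := mul_le_mul_of_nonneg_left (sum_exp_le h0 n) hs.le
  calc x * M μ (fun u => |g u|) ≤ x * (s + s * (2 / x)) :=
        mul_le_mul_of_nonneg_left (h1.trans (by rw [h2]; linarith)) hx0
    _ = x * s + 2 * s := by field_simp
    _ ≤ 1 * s + 2 * s := by
        have := mul_le_mul_of_nonneg_right hx1 hs.le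
        linarith
    _ = 3 * s := by ring

end Pool.Agent.Lib.MP_5e7226_co.TH
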