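import Pool.Agent.Lib.MP_5e7226_co.TH.L1

/-!
# TH, L2: linear algebra without a norm
-/

set_option autoImplicit false
set_option linter.unusedSectionVars false

open Module

namespace Pool.Agent.Lib.MP_5e7226_co.TH

/-- The same without a norm: `P` is a positive definite symmetric form. PROOF. Make `W` an inner product space with `⟪a, b⟫ = P a b` (`InnerProductSpace.Core`, local instances) and apply
`exists_kappa`; `‖a‖ ^ 2 = P a a`. -/
theorem exists_kappa' {W : Type} [AddCommGroup W] [Module ℝ W] [FiniteDimensional ℝ W]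
    [Nontrivial W] (P B : W →ₗ[ℝ] W →ₗ[ℝ] ℝ) (hPs : ∀ a b, P a b = P b a)
    (hPp : ∀ a, a ≠ 0 → 0 < P a a) (hB : ∀ a, 0 ≤ B a a) {T : ℝ}
    (hT : ∀ (n : ℕ) (g : Fin n → W), (∀ i j, P (g i) (g j) = if i = j then 1 else 0) →
      ∑ j, B (g j) (g j) ≤ T)
    (G : Set (W →ₗ[ℝ] W)) (hG : ∀ h ∈ G, ∀ a, P (h a) (h a) = P a a ∧ B (h a) (h a) = B a a) {r : ℕ}
    (hr : ∀ V : Submodule ℝ W, V ≠ ⊥ → (∀ h ∈ G, ∀ a ∈ V, h a ∈ V) → r ≤ finrank ℝ V) :
    ∃ κ : ℝ, 0 ≤ κ ∧ (∀ a, B a a ≤ κ * P a a) ∧ κ * r ≤ T := by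
  let c : InnerProductSpace.Core ℝ W :=
    { inner := fun a b => P a b
      conj_inner_symm := fun a b => hPs b a
      re_inner_nonneg := fun a => by
        by_cases h : a = 0
        · rw [h]
          simp
        · exact (hPp a h).le
      add_left := fun a b d => by
        change P (a + b) d = P a d + P b d
        rw [map_add, LinearMap.add_apply]
      smul_left := fun a b r => by
        change P (r • a) b = r * P a b
        rw [map_smul, LinearMap.smul_apply, smul_eq_mul]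
      definite := fun a h => by
        by_contra h0
        exact absurd h (hPp a h0).ne' }
  let _ : NormedAddCommGroup W := @InnerProductSpace.Core.toNormedAddCommGroup ℝ W _ _ _ c
  let _ : InnerProductSpace ℝ W := InnerProductSpace.ofCore c.toCore
  have hin : ∀ a b : W, inner ℝ a b = P a b := fun a b => rfl
  have hno : ∀ a : W, ‖a‖ ^ 2 = P a a := fun a => by
    rw [← real_inner_self_eq_norm_sq, hin]
  obtain ⟨κ, h0, h1, h2⟩ := exists_kappa (W := W) B hB (T := T)
    (fun n g hg => hT n g fun i j => by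
      rw [← hin]
      exact (orthonormal_iff_ite.1 hg) i j) G
    (fun h hh a => by
      refine ⟨?_, (hG h hh a).2⟩
      have h3 : ‖h a‖ ^ 2 = ‖a‖ ^ 2 := by
        rw [hno, hno]
        exact (hG h hh a).1
      exact (pow_left_inj₀ (norm_nonneg _) (norm_nonneg _) two_ne_zero).1 h3) hr
  exact ⟨κ, h0, fun a => by rw [← hno]; exact h1 a, h2⟩

/-- Bessel. PROOF. `0 ≤ P (f - s) (f - s)` with `s = ∑ j, P f (g j) • g j`. -/
theorem bessel {W : Type} [AddCommGroup W] [Module ℝ W] (P : W →ₗ[ℝ] W →ₗ[ℝ] ℝ)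
    (hPs : ∀ a b, P a b = P b a) (hP0 : ∀ a, 0 ≤ P a a) {n : ℕ} (g : Fin n → W)
    (hg : ∀ i j, P (g i) (g j) = if i = j then 1 else 0) (f : W) :
    ∑ j, P f (g j) ^ 2 ≤ P f f := by
  obtain ⟨t, ht⟩ : ∃ t, t = ∑ j, P f (g j) • g j := ⟨_, rfl⟩
  have h0 := hP0 (f - t)
  have e1 : P f t = ∑ j, P f (g j) ^ 2 := by
    rw [ht, map_sum]
    refine Finset.sum_congr rfl fun j _ => ?_
    rw [map_smul, smul_eq_mul, sq]
  have e4 : ∀ i, P t (g i) = P f (g i) := by
    intro i
    rw [hPs t (g i), ht, map_sum, Finset.sum_eq_single i]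
    · rw [map_smul, hg, if_pos rfl, smul_eq_mul, mul_one]
    · intro j _ hj
      rw [map_smul, hg, if_neg hj.symm, smul_zero]
    · intro h
      exact absurd (Finset.mem_univ i) h
  have e3 : P t t = ∑ j, P f (g j) ^ 2 := by
    have h1 : P t (∑ j, P f (g j) • g j) = ∑ j, P f (g j) ^ 2 := by
      rw [map_sum]
      refine Finset.sum_congr rfl fun j _ => ?_
      rw [map_smul, e4, smul_eq_mul, sq]
    rwa [← ht] at h1
  rw [map_sub (P (f - t)), hPs (f - t) f, hPs (f - t) t, map_sub, map_sub, hPs t f, e1, e3] at h0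
  linarith

end Pool.Agent.Lib.MP_5e7226_co.TH
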