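import Pool.Agent.Lib.MP_5e7226_co.TH.TDef
import Pool.Agent.Lib.MP_5e7226_co.TH.D1
import Pool.Agent.Lib.MP_5e7226_co.TH.L2
import Pool.Agent.Lib.MP_5e7226_co.TH.G3

/-!
# TH, S1: the two quadratic forms on the dual space
-/

set_option autoImplicit false
set_option linter.unusedSectionVars false

open MeasureTheory Set Module Metric

namespace Pool.Agent.Lib.MP_5e7226_co.TH

variable {E : Type} [NormedAddCommGroup E] [NormedSpace ℝ E] [FiniteDimensional ℝ E]
  [MeasurableSpace E] [BorelSpace E] (μ : Measure E) [μ.IsAddHaarMeasure]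

/-- The derivative of the norm as a linear map. -/
noncomputable def nL (u : E) : E →ₗ[ℝ] ℝ := (nD u : E →ₗ[ℝ] ℝ)

theorem nL_apply (u v : E) : nL u v = nD u v := rfl

/-- The inner product of the dual space: the mean of `f v * g v`. -/
noncomputable def ip (f g : E →ₗ[ℝ] ℝ) : ℝ := M μ fun v => f v * g v

/-- The mean of the squares of the inner products with the derivatives of the norm. -/
noncomputable def QQ (a b : E →ₗ[ℝ] ℝ) : ℝ :=
  M μ fun u => ip μ (nL u) a * ip μ (nL u) b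

/-- `ip` as a bilinear form (`LinearMap.mk₂`, `Bd.lin`, `M_add`, `M_mul_left`). -/
theorem exists_ip_form : ∃ P : (E →ₗ[ℝ] ℝ) →ₗ[ℝ] (E →ₗ[ℝ] ℝ) →ₗ[ℝ] ℝ, ∀ f g, P f g = ip μ f g := by
  refine ⟨LinearMap.mk₂ ℝ (fun f g => ip μ f g) ?_ ?_ ?_ ?_, fun f g => rfl⟩
  · intro f f' g
    unfold ip
    have e : (fun v => (f + f') v * g v) = fun v => f v * g v + f' v * g v := by
      funext v; simp only [LinearMap.add_apply]; ring
    rw [e, M_add μ ((Bd.lin f).mul (Bd.lin g)) ((Bd.lin f').mul (Bd.lin g))]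
  · intro c f g
    unfold ip
    have e : (fun v => (c • f) v * g v) = fun v => c * (f v * g v) := by
      funext v; simp only [LinearMap.smul_apply, smul_eq_mul]; ring
    rw [e, M_mul_left, smul_eq_mul]
  · intro f g g'
    unfold ip
    have e : (fun v => f v * (g + g') v) = fun v => f v * g v + f v * g' v := by
      funext v; simp only [LinearMap.add_apply]; ring
    rw [e, M_add μ ((Bd.lin f).mul (Bd.lin g)) ((Bd.lin f).mul (Bd.lin g'))]
  · intro c f g
    unfold ip
    have e : (fun v => f v * (c • g) v) = fun v => c * (f v * g v) := by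
      funext v; simp only [LinearMap.smul_apply, smul_eq_mul]; ring
    rw [e, M_mul_left, smul_eq_mul]

/-- PROOF. `Bd.mean` (`measurable_nD`, and `|nD u v * a v|` is bounded for `u`, `v` in the ball). -/
theorem Bd_ip (a : E →ₗ[ℝ] ℝ) : Bd fun u => ip μ (nL u) a := by
  obtain ⟨hm, C, hC⟩ := Bd.lin a
  unfold ip
  refine Bd.mean μ (F := fun u v => nL u v * a v) (C := 1 * C) ?_ ?_
  · exact measurable_nD.mul (hm.comp measurable_snd)
  · intro u v _ hv
    rw [abs_mul]
    exact mul_le_mul ((nD_le u v).trans hv) (hC v hv) (abs_nonneg _) zero_le_one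

/-- `QQ` as a bilinear form. -/
theorem exists_QQ_form : ∃ B : (E →ₗ[ℝ] ℝ) →ₗ[ℝ] (E →ₗ[ℝ] ℝ) →ₗ[ℝ] ℝ, ∀ f g, B f g = QQ μ f g := by
  obtain ⟨P, hP⟩ := exists_ip_form μ
  have hadd : ∀ u a b, ip μ (nL u) (a + b) = ip μ (nL u) a + ip μ (nL u) b := by
    intro u a b
    rw [← hP, ← hP, ← hP, map_add]
  have hsmul : ∀ u (c : ℝ) a, ip μ (nL u) (c • a) = c * ip μ (nL u) a := by
    intro u c a
    rw [← hP, ← hP, map_smul, smul_eq_mul]
  refine ⟨LinearMap.mk₂ ℝ (fun f g => QQ μ f g) ?_ ?_ ?_ ?_, fun f g => rfl⟩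
  · intro f f' g
    unfold QQ
    have e : (fun u => ip μ (nL u) (f + f') * ip μ (nL u) g) =
        fun u => ip μ (nL u) f * ip μ (nL u) g + ip μ (nL u) f' * ip μ (nL u) g := by
      funext u; rw [hadd]; ring
    rw [e, M_add μ ((Bd_ip μ f).mul (Bd_ip μ g)) ((Bd_ip μ f').mul (Bd_ip μ g))]
  · intro c f g
    unfold QQ
    have e : (fun u => ip μ (nL u) (c • f) * ip μ (nL u) g) =
        fun u => c * (ip μ (nL u) f * ip μ (nL u) g) := by
      funext u; rw [hsmul]; ring
    rw [e, M_mul_left, smul_eq_mul]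
  · intro f g g'
    unfold QQ
    have e : (fun u => ip μ (nL u) f * ip μ (nL u) (g + g')) =
        fun u => ip μ (nL u) f * ip μ (nL u) g + ip μ (nL u) f * ip μ (nL u) g' := by
      funext u; rw [hadd]; ring
    rw [e, M_add μ ((Bd_ip μ f).mul (Bd_ip μ g)) ((Bd_ip μ f).mul (Bd_ip μ g'))]
  · intro c f g
    unfold QQ
    have e : (fun u => ip μ (nL u) f * ip μ (nL u) (c • g)) =
        fun u => c * (ip μ (nL u) f * ip μ (nL u) g) := by
      funext u; rw [hsmul]; ring
    rw [e, M_mul_left, smul_eq_mul]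

theorem ip_symm (f g : E →ₗ[ℝ] ℝ) : ip μ f g = ip μ g f := by
  unfold ip
  congr 1
  funext v
  ring

/-- PROOF. `f ^ 2` is continuous, `≥ 0`, and positive at some point of the ball. (Or: if the mean of `f ^ 2` is `0` then the mean of `|f|` is `0` by `sq_M_le`, `mean_pos`.) -/
theorem ip_pos {f : E →ₗ[ℝ] ℝ} (hf : f ≠ 0) : 0 < ip μ f f := by
  have h1 := mean_pos μ hf
  have h2 := sq_M_le μ (Bd.lin f).abs
  have e : (fun u => |f u| ^ 2) = fun v => f v * f v := by
    funext v
    rw [sq_abs]; ring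
  rw [e] at h2
  exact lt_of_lt_of_le (pow_pos h1 2) h2

/-- PROOF. `TT` is the mean of `ip μ (nL u) (nD u)`; `bessel` for each `u`, `M_sum`, monotonicity. -/
theorem sum_QQ_le {n : ℕ} (g : Fin n → (E →ₗ[ℝ] ℝ))
    (hg : ∀ i j, ip μ (g i) (g j) = if i = j then 1 else 0) : ∑ j, QQ μ (g j) (g j) ≤ TT μ := by
  obtain ⟨P, hP⟩ := exists_ip_form μ
  have hPs : ∀ a b, P a b = P b a := fun a b => by rw [hP, hP, ip_symm]
  have hP0 : ∀ a, 0 ≤ P a a := by
    intro a
    rw [hP]
    exact M_nonneg μ fun u _ => mul_self_nonneg _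
  have hbes : ∀ u : E, ∑ j, ip μ (nL u) (g j) * ip μ (nL u) (g j) ≤ ip μ (nL u) (nL u) := by
    intro u
    have h := bessel P hPs hP0 g (fun i j => by rw [hP]; exact hg i j) (nL u)
    rw [hP] at h
    refine le_trans (le_of_eq ?_) h
    refine Finset.sum_congr rfl fun j _ => ?_
    rw [hP, sq]
  have hBdj : ∀ j ∈ (Finset.univ : Finset (Fin n)),
      Bd fun u => ip μ (nL u) (g j) * ip μ (nL u) (g j) :=
    fun j _ => (Bd_ip μ (g j)).mul (Bd_ip μ (g j))
  have hBT : Bd fun u : E => ip μ (nL u) (nL u) := by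
    unfold ip
    refine Bd.mean μ (F := fun u v => nL u v * nL u v) (C := 1 * 1) ?_ ?_
    · exact measurable_nD.mul measurable_nD
    · intro u v _ hv
      rw [abs_mul]
      exact mul_le_mul ((nD_le u v).trans hv) ((nD_le u v).trans hv) (abs_nonneg _) zero_le_one
  have e1 : ∑ j, QQ μ (g j) (g j) =
      M μ fun u => ∑ j, ip μ (nL u) (g j) * ip μ (nL u) (g j) := by
    rw [M_sum μ Finset.univ hBdj]
    rfl
  have e2 : TT μ = M μ fun u : E => ip μ (nL u) (nL u) := by
    unfold TT ip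
    congr 1
    funext u
    congr 1
    funext v
    rw [nL_apply, sq]
  rw [e1, e2]
  exact M_mono μ (Bd.sum Finset.univ hBdj) hBT fun u _ => hbes u

end Pool.Agent.Lib.MP_5e7226_co.TH
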