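import Pool.Agent.Lib.MP_5e7226_co.TH.S1
import Pool.Agent.Lib.MP_5e7226_co.TH.D2

/-!
# TH, S2: symmetries
-/

set_option autoImplicit false
set_option linter.unusedSectionVars false

open MeasureTheory Set Module Metric

namespace Pool.Agent.Lib.MP_5e7226_co.TH

variable {E : Type} [NormedAddCommGroup E] [NormedSpace ℝ E] [FiniteDimensional ℝ E]
  [MeasurableSpace E] [BorelSpace E] (μ : Measure E) [μ.IsAddHaarMeasure]

/-- PROOF. `M_isom` (both statements); `ip μ (nL u) (a ∘ h)` is the mean over `v` of `nD u v * a (h v) = nD (h u) (h v) * a (h v)` (`nD_isom`), that is `ip μ (nL (h u)) a` (`M_isom`). -/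
theorem ip_isom {h : E →ₗ[ℝ] E} (hh : ∀ v, ‖h v‖ = ‖v‖) (f g : E →ₗ[ℝ] ℝ) :
    ip μ (f ∘ₗ h) (g ∘ₗ h) = ip μ f g ∧ QQ μ (f ∘ₗ h) (g ∘ₗ h) = QQ μ f g := by
  refine ⟨M_isom μ hh fun v => f v * g v, ?_⟩
  have key : ∀ (a : E →ₗ[ℝ] ℝ) (u : E), ip μ (nL u) (a ∘ₗ h) = ip μ (nL (h u)) a := by
    intro a u
    have h1 : (fun v => nL u v * (a ∘ₗ h) v) =
        fun v => (fun z => nL (h u) z * a z) (h v) := by
      funext v
      change nD u v * a (h v) = nD (h u) (h v) * a (h v)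
      rw [nD_isom hh]
    unfold ip
    rw [h1]
    exact M_isom μ hh fun z => nL (h u) z * a z
  unfold QQ
  simp only [key]
  exact M_isom μ hh fun u => ip μ (nL u) f * ip μ (nL u) g

/-- PROOF. `exists_kappa'` for the forms `ip`, `QQ`, `T = TT μ`, `G` = the set of the maps `f ↦ f ∘ₗ h` (`LinearMap.lcomp` or `Module.Dual.transpose`) for linear isometries `h`. -/
theorem kappa_sym [Nontrivial E] {r : ℕ}
    (hr : ∀ V : Submodule ℝ (E →ₗ[ℝ] ℝ), V ≠ ⊥ →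
      (∀ h : E →ₗ[ℝ] E, (∀ v, ‖h v‖ = ‖v‖) → ∀ f ∈ V, f ∘ₗ h ∈ V) → r ≤ finrank ℝ V) :
    ∃ κ : ℝ, 0 ≤ κ ∧ (∀ a, QQ μ a a ≤ κ * ip μ a a) ∧ κ * r ≤ TT μ := by
  obtain ⟨P, hP⟩ := exists_ip_form (E := E) μ
  obtain ⟨B, hB⟩ := exists_QQ_form (E := E) μ
  have hnt : Nontrivial (E →ₗ[ℝ] ℝ) := by
    obtain ⟨x, hx⟩ := exists_ne (0 : E)
    by_contra hcon
    rw [not_nontrivial_iff_subsingleton] at hcon
    apply hx
    rw [← Module.forall_dual_apply_eq_zero_iff ℝ x]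
    intro φ
    have h1 : φ = 0 := Subsingleton.elim (α := E →ₗ[ℝ] ℝ) _ _
    rw [h1]
    rfl
  obtain ⟨κ, h0, h1, h2⟩ := exists_kappa' P B
    (fun a b => by rw [hP, hP, ip_symm])
    (fun a ha => by rw [hP]; exact ip_pos μ ha)
    (fun a => by
      rw [hB]
      exact M_nonneg μ fun u _ => mul_self_nonneg _) (T := TT μ)
    (fun n g hg => by
      simp only [hB]
      refine sum_QQ_le μ g fun i j => ?_
      rw [← hP]
      exact hg i j)
    {φ | ∃ h : E →ₗ[ℝ] E, (∀ v, ‖h v‖ = ‖v‖) ∧ ∀ f, φ f = f ∘ₗ h}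
    (by
      rintro φ ⟨h, hh, hφ⟩ a
      rw [hφ, hP, hP, hB, hB]
      exact ip_isom μ hh a a) (r := r)
    (by
      intro V hV hinv
      refine hr V hV fun h hh f hf => ?_
      exact hinv (LinearMap.dualMap h) ⟨h, hh, fun f => rfl⟩ f hf)
  exact ⟨κ, h0, fun a => by rw [← hB, ← hP]; exact h1 a, h2⟩

end Pool.Agent.Lib.MP_5e7226_co.TH
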