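import Pool.Agent.Lib.MP_5e7226_co.TH.S2

/-!
# TH, S3: thickness and the distance to ellipsoids
-/

set_option autoImplicit false
set_option linter.unusedSectionVars false

open MeasureTheory Set Module Metric

namespace Pool.Agent.Lib.MP_5e7226_co.TH

variable {E : Type} [NormedAddCommGroup E] [NormedSpace ℝ E] [FiniteDimensional ℝ E]
  [MeasurableSpace E] [BorelSpace E] (μ : Measure E) [μ.IsAddHaarMeasure]

/-- PROOF. Let `ε i` be the standard basis of the Euclidean space, `a i v = (A v) i` (a linear functional on `E`), `c u i = nD u (A.symm (ε i))`. For all `u`, `v`: `nD u v = ∑ i, c u i * a i v`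
(`v = A.symm (∑ (A v) i • ε i)`). `∑ i, (c u i) ^ 2 ≤ D ^ 2`: for `y = ∑ c u i • ε i` one has `‖y‖ ^ 2 = nD u (A.symm y) ≤ ‖A.symm y‖ ≤ D ‖y‖`. `∑ i, ip μ (a i) (a i)` is the mean of
`‖A v‖ ^ 2 ≤ 1`. For each `u` the mean over `v` of `(nD u v) ^ 2` is `∑ i, c u i * ip μ (nL u) (a i) ≤ ∑ i, (s / 2 * (c u i) ^ 2 + (ip μ (nL u) (a i)) ^ 2 / (2 s))`; the mean over `u` is at most
`s / 2 * D ^ 2 + (∑ i, QQ μ (a i) (a i)) / (2 s) ≤ s / 2 * D ^ 2 + κ / (2 s)`. -/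
theorem TT_le {ι' : Type} [Fintype ι'] {D κ s : ℝ} (hs : 0 < s) (hκ0 : 0 ≤ κ) (hκ : ∀ a, QQ μ a a ≤ κ * ip μ a a)
    (A : E ≃ₗ[ℝ] EuclideanSpace ℝ ι') (hA : ∀ v, ‖A v‖ ≤ ‖v‖)
    (hA' : ∀ v, ‖v‖ ≤ D * ‖A v‖) :
    TT μ ≤ s / 2 * D ^ 2 + κ / (2 * s) := by
  classical
  let ε : ι' → EuclideanSpace ℝ ι' := fun i => EuclideanSpace.single i (1 : ℝ)
  let a : ι' → (E →ₗ[ℝ] ℝ) := fun i =>
    (EuclideanSpace.proj i : EuclideanSpace ℝ ι' →L[ℝ] ℝ).toLinearMap ∘ₗ A.toLinearMap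
  have ha : ∀ i v, a i v = (A v) i := fun i v => rfl
  let c : E → ι' → ℝ := fun u i => nD u (A.symm (ε i))
  have hsum : ∀ y : EuclideanSpace ℝ ι', y = ∑ i, y i • ε i := by
    intro y
    ext j
    simp [ε, Finset.sum_apply, Pi.single_apply]
  have hexp : ∀ u v, nD u v = ∑ i, c u i * a i v := by
    intro u v
    have h1 : v = A.symm (A v) := (A.symm_apply_apply v).symm
    conv_lhs => rw [h1, hsum (A v), map_sum, map_sum]
    refine Finset.sum_congr rfl fun i _ => ?_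
    rw [map_smul, map_smul, smul_eq_mul, ha, mul_comm]
  have hc : ∀ u, ∑ i, c u i ^ 2 ≤ D ^ 2 := by
    intro u
    obtain ⟨y, hy⟩ : ∃ y : EuclideanSpace ℝ ι', y = ∑ i, c u i • ε i := ⟨_, rfl⟩
    have hyi : ∀ i, y i = c u i := by
      intro i
      rw [hy]
      simp [ε, Finset.sum_apply, Pi.single_apply]
    have h1 : ‖y‖ ^ 2 = ∑ i, c u i ^ 2 := by
      rw [EuclideanSpace.norm_sq_eq]
      refine Finset.sum_congr rfl fun i _ => ?_
      rw [hyi, Real.norm_eq_abs, sq_abs]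
    have h2 : nD u (A.symm y) = ∑ i, c u i ^ 2 := by
      rw [hy, map_sum, map_sum]
      refine Finset.sum_congr rfl fun i _ => ?_
      rw [map_smul, map_smul, smul_eq_mul, sq]
    have h3 : ‖y‖ ^ 2 ≤ D * ‖y‖ := by
      rw [h1, ← h2]
      refine (le_abs_self _).trans ((nD_le u _).trans ((hA' _).trans (le_of_eq ?_)))
      rw [A.apply_symm_apply]
    rw [← h1]
    rcases eq_or_lt_of_le (norm_nonneg y) with h4 | h4
    · rw [← h4]
      nlinarith [sq_nonneg D]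
    · have h5 : ‖y‖ ≤ D := by
        rw [sq] at h3
        exact le_of_mul_le_mul_right h3 h4
      exact pow_le_pow_left₀ (norm_nonneg y) h5 2
  have hip : ∑ i, ip μ (a i) (a i) ≤ 1 := by
    unfold ip
    rw [← M_sum μ _ fun i _ => (Bd.lin (a i)).mul (Bd.lin (a i))]
    have h1 : M μ (fun v => ∑ i, a i v * a i v) ≤ M μ (fun _ : E => (1 : ℝ)) := by
      refine M_mono μ (Bd.sum _ fun i _ => (Bd.lin (a i)).mul (Bd.lin (a i))) (Bd.const 1) ?_
      intro v hv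
      have h2 : ∑ i, a i v * a i v = ‖A v‖ ^ 2 := by
        rw [EuclideanSpace.norm_sq_eq]
        refine Finset.sum_congr rfl fun i _ => ?_
        rw [ha, Real.norm_eq_abs, sq_abs, sq]
      rw [h2]
      exact pow_le_one₀ (norm_nonneg _) ((hA v).trans hv)
    rwa [M_const] at h1
  have hinner : ∀ u, M μ (fun v => nD u v ^ 2) = ∑ i, c u i * ip μ (nL u) (a i) := by
    intro u
    have h1 : (fun v => nD u v ^ 2) = fun v => ∑ i, c u i * (nL u v * a i v) := by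
      funext v
      rw [sq]
      nth_rewrite 2 [hexp u v]
      rw [Finset.mul_sum]
      refine Finset.sum_congr rfl fun i _ => ?_
      rw [nL_apply]
      ring
    rw [h1, M_sum μ _ fun i _ => (Bd.const (c u i)).mul ((Bd.lin (nL u)).mul (Bd.lin (a i)))]
    refine Finset.sum_congr rfl fun i _ => ?_
    rw [M_mul_left]
    rfl
  have hyoung : ∀ x y : ℝ, x * y ≤ s / 2 * x ^ 2 + y ^ 2 / (2 * s) := by
    intro x y
    have h1 : s / 2 * x ^ 2 + y ^ 2 / (2 * s) - x * y = (s * x - y) ^ 2 / (2 * s) := by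
      field_simp
      ring
    have h2 : 0 ≤ (s * x - y) ^ 2 / (2 * s) := by positivity
    linarith
  have hpt : ∀ u, M μ (fun v => nD u v ^ 2) ≤
      s / 2 * D ^ 2 + ∑ i, 1 / (2 * s) * (ip μ (nL u) (a i) * ip μ (nL u) (a i)) := by
    intro u
    rw [hinner]
    have h1 : ∑ i, c u i * ip μ (nL u) (a i) ≤
        ∑ i, (s / 2 * c u i ^ 2 + 1 / (2 * s) * (ip μ (nL u) (a i) * ip μ (nL u) (a i))) := by
      refine Finset.sum_le_sum fun i _ => (hyoung _ _).trans (le_of_eq ?_)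
      ring
    refine h1.trans ?_
    rw [Finset.sum_add_distrib, ← Finset.mul_sum]
    have h2 := mul_le_mul_of_nonneg_left (hc u) (by positivity : 0 ≤ s / 2)
    linarith
  have hB1 : Bd fun u : E => M μ fun v => nD u v ^ 2 := by
    refine Bd.mean μ (F := fun u v => nD u v ^ 2) (measurable_nD.pow_const 2) (C := 1) ?_
    intro u v _ hv
    rw [abs_pow]
    exact pow_le_one₀ (abs_nonneg _) ((nD_le u v).trans hv)
  have hBi : ∀ i, Bd fun u : E => 1 / (2 * s) * (ip μ (nL u) (a i) * ip μ (nL u) (a i)) :=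
    fun i => (Bd.const _).mul ((Bd_ip μ (a i)).mul (Bd_ip μ (a i)))
  have hfin : TT μ ≤ s / 2 * D ^ 2 + ∑ i, 1 / (2 * s) * QQ μ (a i) (a i) := by
    have h1 : TT μ ≤ M μ fun u : E =>
        s / 2 * D ^ 2 + ∑ i, 1 / (2 * s) * (ip μ (nL u) (a i) * ip μ (nL u) (a i)) :=
      M_mono μ hB1 ((Bd.const _).add (Bd.sum _ fun i _ => hBi i)) fun u _ => hpt u
    rw [M_add μ (Bd.const _) (Bd.sum _ fun i _ => hBi i), M_const,
      M_sum μ _ fun i _ => hBi i] at h1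
    refine h1.trans (le_of_eq ?_)
    congr 1
    refine Finset.sum_congr rfl fun i _ => ?_
    rw [M_mul_left]
    rfl
  refine hfin.trans ?_
  rw [← Finset.mul_sum]
  have h1 : ∑ i, QQ μ (a i) (a i) ≤ κ := by
    calc ∑ i, QQ μ (a i) (a i) ≤ ∑ i, κ * ip μ (a i) (a i) :=
          Finset.sum_le_sum fun i _ => hκ (a i)
      _ = κ * ∑ i, ip μ (a i) (a i) := by rw [Finset.mul_sum]
      _ ≤ κ * 1 := mul_le_mul_of_nonneg_left hip hκ0
      _ = κ := mul_one κ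
  have h2 := mul_le_mul_of_nonneg_left h1 (by positivity : 0 ≤ 1 / (2 * s))
  have h3 : 1 / (2 * s) * κ = κ / (2 * s) := by ring
  linarith

/-- PROOF. `kappa_sym`, `TT_le` with `s = 1 / r` (`r > 0`): `TT ≤ D ^ 2 / (2 r) + κ r / 2 ≤ D ^ 2 / (2 r) + TT / 2`. -/
theorem TT_sym {ι' : Type} [Fintype ι'] [Nontrivial E] {r : ℕ} (hr0 : 0 < r)
    (hr : ∀ V : Submodule ℝ (E →ₗ[ℝ] ℝ), V ≠ ⊥ →
      (∀ h : E →ₗ[ℝ] E, (∀ v, ‖h v‖ = ‖v‖) → ∀ f ∈ V, f ∘ₗ h ∈ V) → r ≤ finrank ℝ V) {D : ℝ}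
    (A : E ≃ₗ[ℝ] EuclideanSpace ℝ ι') (hA : ∀ v, ‖A v‖ ≤ ‖v‖)
    (hA' : ∀ v, ‖v‖ ≤ D * ‖A v‖) : TT μ * r ≤ D ^ 2 := by
  obtain ⟨κ, hκ0, hκ, hκr⟩ := kappa_sym μ hr
  have hr1 : (0 : ℝ) < r := by exact_mod_cast hr0
  have h1 := TT_le μ (s := 1 / (r : ℝ)) (by positivity) hκ0 hκ A hA hA'
  have h2 : κ / (2 * (1 / (r : ℝ))) = κ * r / 2 := by
    field_simp
  rw [h2] at h1
  have h3 : TT μ * r ≤ (1 / (r : ℝ) / 2 * D ^ 2 + κ * r / 2) * r :=
    mul_le_mul_of_nonneg_right h1 hr1.le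
  have h4 : (1 / (r : ℝ) / 2 * D ^ 2 + κ * r / 2) * r = D ^ 2 / 2 + κ * r * r / 2 := by
    field_simp
  have h5 : κ * r * r ≤ TT μ * r := mul_le_mul_of_nonneg_right hκr hr1.le
  linarith

end Pool.Agent.Lib.MP_5e7226_co.TH
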