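import Pool.Agent.Lib.MP_5e7226_co.TH.TDef
import Pool.Agent.Lib.MP_5e7226_co.CubStep

/-!
# TH, T1: tight sets: the density bound
-/

set_option autoImplicit false
set_option linter.unusedSectionVars false

open MeasureTheory Set Module Metric

namespace Pool.Agent.Lib.MP_5e7226_co.TH

variable {E : Type} [NormedAddCommGroup E] [NormedSpace ℝ E] [FiniteDimensional ℝ E]
  [MeasurableSpace E] [BorelSpace E] (μ : Measure E) [μ.IsAddHaarMeasure]

/-- The density bound in terms of means. PROOF. `Cub.lint_R_le μ` with `c = ENNReal.ofReal (γ ^ d * C * I.card)` (note `γ ^ d > 0`, `C ≥ 0` follows from `card` for any `b`),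
applied to `fun v => ENNReal.ofReal (φ v)`; convert the `lintegral`s to integrals (`ofReal_integral_eq_lintegral_ofReal`; all functions are measurable and bounded on the ball; the points
`±x / 2 + γ u` are in the ball; outside the ball the values of `φ` do not matter, but `φ ≥ 0` everywhere is assumed). -/
theorem Tight.density {I : Finset E} {C : ℝ} (h : Tight I C) {φ : E → ℝ} (hφ : Bd φ)
    (hφ0 : ∀ v, 0 ≤ φ v) :
    ∑ x ∈ I, (M μ (fun u => φ ((1 / 2 : ℝ) • x + ((1 - 1 / (finrank ℝ E : ℝ)) / 2) • u)) +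
        M μ (fun u => φ (-((1 / 2 : ℝ) • x) + ((1 - 1 / (finrank ℝ E : ℝ)) / 2) • u))) ≤
      2 * C * I.card * M μ φ := by
  have hd := h.dim
  have hd2 : (2 : ℝ) ≤ (finrank ℝ E : ℝ) := by exact_mod_cast hd
  set γ : ℝ := (1 - 1 / (finrank ℝ E : ℝ)) / 2 with hγdef
  have hinv : 1 / (finrank ℝ E : ℝ) ≤ 1 / 2 := one_div_le_one_div_of_le (by norm_num) hd2
  have hinv0 : 0 ≤ 1 / (finrank ℝ E : ℝ) := by positivity
  have hγ : 0 < γ := by
    rw [hγdef]
    linarith
  have hγ2 : γ ≤ 1 / 2 := by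
    rw [hγdef]
    linarith
  have hγd : 0 < γ ^ finrank ℝ E := by positivity
  have hI : 0 < (I.card : ℝ) := by exact_mod_cast h.nonempty.card_pos
  have hC : 0 ≤ C := by
    have h1 := (Nat.cast_nonneg _).trans (h.card 0)
    by_contra hneg
    push Not at hneg
    have h2 : γ ^ finrank ℝ E * C * I.card < 0 := by
      have h3 : γ ^ finrank ℝ E * C < 0 := mul_neg_of_pos_of_neg hγd hneg
      exact mul_neg_of_neg_of_pos h3 hI
    linarith
  -- the two families of functions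
  have hball : ∀ x ∈ I, ∀ s : ℝ, |s| = 1 / 2 → ∀ u : E, ‖u‖ ≤ 1 → ‖s • x + γ • u‖ ≤ 1 := by
    intro x hx s hs u hu
    calc ‖s • x + γ • u‖ ≤ ‖s • x‖ + ‖γ • u‖ := norm_add_le _ _
      _ = 1 / 2 * ‖x‖ + γ * ‖u‖ := by
          rw [norm_smul, norm_smul, Real.norm_eq_abs, Real.norm_eq_abs, hs, abs_of_pos hγ]
      _ ≤ 1 := by nlinarith [h.norm_le x hx, norm_nonneg u, norm_nonneg x]
  have hbd1 : ∀ x ∈ I, Bd fun u : E => φ ((1 / 2 : ℝ) • x + γ • u) := by
    intro x hx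
    obtain ⟨h1, B, hB⟩ := hφ
    exact ⟨h1.comp (by fun_prop), B, fun u hu => hB _ (hball x hx _ (by norm_num) u hu)⟩
  have hbd2 : ∀ x ∈ I, Bd fun u : E => φ (-((1 / 2 : ℝ) • x) + γ • u) := by
    intro x hx
    obtain ⟨h1, B, hB⟩ := hφ
    refine ⟨h1.comp (by fun_prop), B, fun u hu => hB _ ?_⟩
    rw [← neg_smul]
    exact hball x hx _ (by norm_num) u hu
  have hbd : Bd fun u : E => ∑ x ∈ I, (φ ((1 / 2 : ℝ) • x + γ • u) +
      φ (-((1 / 2 : ℝ) • x) + γ • u)) :=
    Bd.sum I fun x hx => (hbd1 x hx).add (hbd2 x hx)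
  have key : ∫ u in closedBall (0 : E) 1, (∑ x ∈ I, (φ ((1 / 2 : ℝ) • x + γ • u) +
      φ (-((1 / 2 : ℝ) • x) + γ • u))) ∂μ ≤
      2 * C * I.card * ∫ u in closedBall (0 : E) 1, φ u ∂μ := by
    have h1 := Cub.lint_R_le μ hγ hγ2 I h.norm_le (ENNReal.ofReal (γ ^ finrank ℝ E * C * I.card))
      (by
        intro b
        rw [← ENNReal.ofReal_natCast]
        exact ENNReal.ofReal_le_ofReal (h.card b))
      (φ := fun v => ENNReal.ofReal (φ v)) (hφ.1.ennreal_ofReal)
    have h2 : ∫⁻ u in closedBall (0 : E) 1, Cub.R I γ (fun v => ENNReal.ofReal (φ v)) u ∂μ =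
        ENNReal.ofReal (∫ u in closedBall (0 : E) 1, (∑ x ∈ I, (φ ((1 / 2 : ℝ) • x + γ • u) +
          φ (-((1 / 2 : ℝ) • x) + γ • u))) ∂μ) := by
      rw [ofReal_integral_eq_lintegral_ofReal (hbd.integrable μ)
        (Filter.Eventually.of_forall fun u => Finset.sum_nonneg fun x _ =>
          add_nonneg (hφ0 _) (hφ0 _))]
      refine lintegral_congr fun u => ?_
      rw [Cub.R, ENNReal.ofReal_sum_of_nonneg (fun x _ => add_nonneg (hφ0 _) (hφ0 _))]
      refine Finset.sum_congr rfl fun x _ => ?_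
      rw [ENNReal.ofReal_add (hφ0 _) (hφ0 _)]
    have h3 : ∫⁻ b in closedBall (0 : E) 1, ENNReal.ofReal (φ b) ∂μ =
        ENNReal.ofReal (∫ b in closedBall (0 : E) 1, φ b ∂μ) :=
      (ofReal_integral_eq_lintegral_ofReal (hφ.integrable μ)
        (Filter.Eventually.of_forall fun u => hφ0 u)).symm
    have h4 : 2 * ENNReal.ofReal ((γ ^ finrank ℝ E)⁻¹) *
        ENNReal.ofReal (γ ^ finrank ℝ E * C * I.card) = ENNReal.ofReal (2 * C * I.card) := by
      have e2 : (2 : ENNReal) = ENNReal.ofReal 2 := by simp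
      rw [e2, ← ENNReal.ofReal_mul (by norm_num), ← ENNReal.ofReal_mul (by positivity)]
      congr 1
      field_simp
    have h5 : 0 ≤ ∫ b in closedBall (0 : E) 1, φ b ∂μ := integral_nonneg hφ0
    rw [h2, h3, h4, ← ENNReal.ofReal_mul (by positivity)] at h1
    exact (ENNReal.ofReal_le_ofReal_iff (by positivity)).mp h1
  have hsum : ∑ x ∈ I, (M μ (fun u => φ ((1 / 2 : ℝ) • x + γ • u)) +
        M μ (fun u => φ (-((1 / 2 : ℝ) • x) + γ • u))) =
      M μ (fun u => ∑ x ∈ I, (φ ((1 / 2 : ℝ) • x + γ • u) +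
          φ (-((1 / 2 : ℝ) • x) + γ • u))) := by
    rw [M_sum μ I fun x hx => (hbd1 x hx).add (hbd2 x hx)]
    refine Finset.sum_congr rfl fun x hx => ?_
    rw [M_add μ (hbd1 x hx) (hbd2 x hx)]
  rw [hsum]
  unfold M
  have hv := vol_pos (E := E) μ
  calc (μ.real (closedBall (0 : E) 1))⁻¹ * ∫ u in closedBall (0 : E) 1,
        (∑ x ∈ I, (φ ((1 / 2 : ℝ) • x + γ • u) + φ (-((1 / 2 : ℝ) • x) + γ • u))) ∂μ
      ≤ (μ.real (closedBall (0 : E) 1))⁻¹ *
        (2 * C * I.card * ∫ u in closedBall (0 : E) 1, φ u ∂μ) :=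
        mul_le_mul_of_nonneg_left key (inv_nonneg.2 hv.le)
    _ = 2 * C * I.card * ((μ.real (closedBall (0 : E) 1))⁻¹ *
        ∫ u in closedBall (0 : E) 1, φ u ∂μ) := by ring

/-- PROOF. `density` with `φ = 1`: `2 * I.card ≤ 2 * C * I.card`. -/
theorem Tight.one_le (μ : Measure E) [μ.IsAddHaarMeasure] {I : Finset E} {C : ℝ} (h : Tight I C) :
    1 ≤ C := by
  have h1 := h.density μ (φ := fun _ => 1) (Bd.const 1) (fun _ => zero_le_one)
  have hI : 0 < (I.card : ℝ) := by exact_mod_cast h.nonempty.card_pos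
  simp only [M_const, Finset.sum_const, nsmul_eq_mul] at h1
  nlinarith

end Pool.Agent.Lib.MP_5e7226_co.TH
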