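import Pool.Agent.Lib.MP_5e7226_co.TH.Basic

/-!
# TH, TDef: tight sets
-/

set_option autoImplicit false
set_option linter.unusedSectionVars false

open MeasureTheory Set Module Metric

namespace Pool.Agent.Lib.MP_5e7226_co.TH

variable {E : Type} [NormedAddCommGroup E] [NormedSpace ℝ E]

/-- `I` is tight with constant `C`. -/
structure Tight (I : Finset E) (C : ℝ) : Prop where
  dim : 2 ≤ finrank ℝ E
  norm_le : ∀ x ∈ I, ‖x‖ ≤ 1
  nonempty : I.Nonempty
  card : ∀ b : E, ((I.filter fun x => ‖x - b‖ ≤ 2 * ((1 - 1 / (finrank ℝ E : ℝ)) / 2)).card : ℝ) ≤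
    ((1 - 1 / (finrank ℝ E : ℝ)) / 2) ^ finrank ℝ E * C * I.card

/-- The thickness: the mean of `(nD u v) ^ 2`. -/
noncomputable def TT [MeasurableSpace E] (μ : Measure E) : ℝ :=
  M μ fun u : E => M μ fun v => nD u v ^ 2

end Pool.Agent.Lib.MP_5e7226_co.TH
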