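import Pool.Agent.Lib.MP_5e7226_co.TH.Basic

/-!
# TH, U1: unconditional norms: exit volumes
-/

set_option autoImplicit false
set_option linter.unusedSectionVars false

open MeasureTheory Set Module Metric

namespace Pool.Agent.Lib.MP_5e7226_co.TH

/-!
`b` is a basis of `E` such that the norm does not change if the sign of a coordinate is changed.
-/

variable {E : Type} [NormedAddCommGroup E] [NormedSpace ℝ E] [FiniteDimensional ℝ E]

/-- The basis `b` is unconditional. -/
def Unc {ι : Type} (b : Basis ι ℝ E) : Prop := ∀ i v, ‖v - (2 * b.coord i v) • b i‖ = ‖v‖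

/-- PROOF. `v - c b_i` is a convex combination of `v` and `v - 2 (b.coord i v) b_i` if `c` is between `0` and `2 b.coord i v`. -/
theorem Unc.le {ι : Type} {b : Basis ι ℝ E} (h : Unc b) (i : ι) (v : E) {c : ℝ}
    (hc : |b.coord i v - c| ≤ |b.coord i v|) : ‖v - c • b i‖ ≤ ‖v‖ := by
  obtain ⟨a, ha⟩ : ∃ a, a = b.coord i v := ⟨_, rfl⟩
  have hu := h i v
  rw [← ha] at hc hu
  by_cases ha0 : a = 0
  · rw [ha0, zero_sub, abs_neg, abs_zero] at hc
    have hc0 : c = 0 := abs_eq_zero.1 (le_antisymm hc (abs_nonneg c))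
    rw [hc0, zero_smul, sub_zero]
  · have h1 : (a - c) ^ 2 ≤ a ^ 2 := sq_le_sq.2 hc
    have h2 : c ^ 2 ≤ 2 * a * c := by nlinarith
    obtain ⟨θ, hθ⟩ : ∃ θ, θ = c / (2 * a) := ⟨_, rfl⟩
    have h3 : c = 2 * a * θ := by
      rw [hθ]; field_simp
    have ha2 : 0 < a ^ 2 := by positivity
    have h4 : θ ^ 2 ≤ θ := by
      rw [h3] at h2
      have h5 : 4 * a ^ 2 * (θ ^ 2) ≤ 4 * a ^ 2 * θ := by nlinarith
      exact le_of_mul_le_mul_left h5 (by positivity)
    have h6 : 0 ≤ θ := le_trans (sq_nonneg θ) h4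
    have h7 : θ ≤ 1 := by
      by_contra hcon
      push Not at hcon
      nlinarith
    have h8 : v - c • b i = (1 - θ) • v + θ • (v - (2 * a) • b i) := by
      rw [smul_sub, sub_smul, one_smul, smul_smul, h3, mul_comm θ]
      abel
    rw [h8]
    refine (norm_add_le _ _).trans ?_
    rw [norm_smul, norm_smul, hu, Real.norm_eq_abs, Real.norm_eq_abs, abs_of_nonneg h6,
      abs_of_nonneg (by linarith)]
    exact le_of_eq (by ring)

/-- PROOF. `2 (b.coord i v) b_i = v - (v - 2 (b.coord i v) b_i)`, triangle inequality. -/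
theorem Unc.coord_le {ι : Type} {b : Basis ι ℝ E} (h : Unc b) (i : ι) (v : E) :
    |b.coord i v| * ‖b i‖ ≤ ‖v‖ := by
  have h1 : ‖(2 * b.coord i v) • b i‖ ≤ ‖v‖ + ‖v‖ := by
    have h2 : (2 * b.coord i v) • b i = v - (v - (2 * b.coord i v) • b i) := by abel
    rw [h2]
    refine (norm_sub_le _ _).trans ?_
    rw [h i v]
  rw [norm_smul, Real.norm_eq_abs, abs_mul, abs_two] at h1
  linarith

variable [MeasurableSpace E] [BorelSpace E] (μ : Measure E) [μ.IsAddHaarMeasure]

/-- Let `x = b_i / ‖b_i‖`, `s = t / (2 ‖b_i‖)`, `c = b.coord i`. Then `XV μ x t ≤` measure of `{u | ‖u‖ ≤ 1 ∧ |c u| ≤ s}`. PROOF. `XV μ x t = vol - μ.real (B ∩ {u | ‖u + t x‖ ≤ 1})`, and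
`μ.real (B ∩ {|c u| > s}) ≤ μ.real (B ∩ {u | ‖u + t x‖ ≤ 1})`: the set `B ∩ {c w > s}` is translated by `- t x` into the second set intersected with `{c u > - s}` (`Unc.le`:
`|c w - 2 s| ≤ |c w|`), and `B ∩ {c w < - s}` is contained in the second set intersected with `{c u < - s}` (`Unc.le`: `|c w + 2 s| ≤ |c w|`). -/
theorem Unc.exit_le {ι : Type} {b : Basis ι ℝ E} (h : Unc b) (i : ι) {t : ℝ} (ht : 0 ≤ t) :
    XV μ (‖b i‖⁻¹ • b i) t ≤
      μ.real {u : E | ‖u‖ ≤ 1 ∧ |b.coord i u| ≤ t / (2 * ‖b i‖)} := by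
  have hbi : 0 < ‖b i‖ := norm_pos_iff.2 (b.ne_zero i)
  obtain ⟨s, hs⟩ : ∃ s, s = t / (2 * ‖b i‖) := ⟨_, rfl⟩
  have hs0 : 0 ≤ s := by rw [hs]; positivity
  obtain ⟨y, hy⟩ : ∃ y : E, y = t • (‖b i‖⁻¹ • b i) := ⟨_, rfl⟩
  have hy1 : y = (2 * s) • b i := by
    rw [hy, smul_smul, hs]
    congr 1
    field_simp
  have hcy : b.coord i y = 2 * s := by
    rw [hy1, map_smul, smul_eq_mul, Basis.coord_apply, Basis.repr_self, Finsupp.single_eq_same,
      mul_one]
  have hcont : Continuous fun u : E => b.coord i u :=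
    (b.coord i).continuous_of_finiteDimensional
  have hfin : ∀ S : Set E, (∀ u ∈ S, ‖u‖ ≤ 1) → μ S ≠ ⊤ := by
    intro S hS
    refine ne_top_of_le_ne_top (measure_closedBall_lt_top (x := (0 : E)) (r := 1)).ne
      (measure_mono (μ := μ) fun u hu => ?_)
    exact mem_closedBall_zero_iff.2 (hS u hu)
  have hBm : MeasurableSet {u : E | ‖u‖ ≤ 1} :=
    (isClosed_le continuous_norm continuous_const).measurableSet
  -- the four sets
  obtain ⟨A, hA⟩ : ∃ A : Set E, A = {u : E | ‖u‖ ≤ 1 ∧ ‖u + y‖ ≤ 1} := ⟨_, rfl⟩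
  have hAm : MeasurableSet A := by
    rw [hA]
    exact hBm.inter (isClosed_le (continuous_id.add continuous_const).norm
      continuous_const).measurableSet
  have e1 : μ.real {u : E | ‖u‖ ≤ 1} = XV μ (‖b i‖⁻¹ • b i) t + μ.real A := by
    unfold XV
    rw [← hy, ← measureReal_union _ hAm (hfin _ fun u hu => hu.1)
      (hfin _ fun u hu => by rw [hA] at hu; exact hu.1)]
    · congr 1
      ext u
      rw [hA]
      constructor
      · intro hu
        rcases lt_or_ge 1 ‖u + y‖ with h1 | h1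
        · exact Or.inl ⟨hu, h1⟩
        · exact Or.inr ⟨hu, h1⟩
      · rintro (hu | hu)
        · exact hu.1
        · exact hu.1
    · rw [Set.disjoint_left]
      intro u hu hu'
      rw [hA] at hu'
      exact absurd hu.2 (not_lt.2 hu'.2)
  obtain ⟨P1, hP1⟩ : ∃ P : Set E, P = {u : E | ‖u‖ ≤ 1 ∧ s < b.coord i u} := ⟨_, rfl⟩
  obtain ⟨P2, hP2⟩ : ∃ P : Set E, P = {u : E | ‖u‖ ≤ 1 ∧ b.coord i u < -s} := ⟨_, rfl⟩
  have hP1m : MeasurableSet P1 := by
    rw [hP1]
    exact hBm.inter (isOpen_lt continuous_const hcont).measurableSet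
  have hP2m : MeasurableSet P2 := by
    rw [hP2]
    exact hBm.inter (isOpen_lt hcont continuous_const).measurableSet
  have hf1 : μ P1 ≠ ⊤ := hfin _ fun u hu => by rw [hP1] at hu; exact hu.1
  have hf2 : μ P2 ≠ ⊤ := hfin _ fun u hu => by rw [hP2] at hu; exact hu.1
  have e2 : μ.real {u : E | ‖u‖ ≤ 1} ≤
      μ.real {u : E | ‖u‖ ≤ 1 ∧ |b.coord i u| ≤ s} + (μ.real P1 + μ.real P2) := by
    have h1 : {u : E | ‖u‖ ≤ 1} ⊆ {u : E | ‖u‖ ≤ 1 ∧ |b.coord i u| ≤ s} ∪ (P1 ∪ P2) := by
      intro u hu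
      rcases le_or_gt |b.coord i u| s with h2 | h2
      · exact Or.inl ⟨hu, h2⟩
      · right
        rcases lt_abs.1 h2 with h3 | h3
        · left
          rw [hP1]
          exact ⟨hu, h3⟩
        · right
          rw [hP2]
          exact ⟨hu, by linarith⟩
    have hf3 : μ {u : E | ‖u‖ ≤ 1 ∧ |b.coord i u| ≤ s} ≠ ⊤ := hfin _ fun u hu => hu.1
    have hf4 : μ (P1 ∪ P2) ≠ ⊤ := hfin _ fun u hu => by
      rcases hu with hu | hu
      · rw [hP1] at hu; exact hu.1
      · rw [hP2] at hu; exact hu.1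
    have hf5 : μ ({u : E | ‖u‖ ≤ 1 ∧ |b.coord i u| ≤ s} ∪ (P1 ∪ P2)) ≠ ⊤ :=
      hfin _ fun u hu => by
        rcases hu with hu | hu | hu
        · exact hu.1
        · rw [hP1] at hu; exact hu.1
        · rw [hP2] at hu; exact hu.1
    refine (measureReal_mono h1 hf5).trans ((measureReal_union_le _ _).trans ?_)
    have h4 : μ.real (P1 ∪ P2) ≤ μ.real P1 + μ.real P2 := measureReal_union_le _ _
    linarith
  -- the translate of `P1`
  have e3 : μ.real ((fun u => u + y) ⁻¹' P1) = μ.real P1 := by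
    unfold Measure.real
    rw [measure_preimage_add_right]
  have e4 : μ.real P1 + μ.real P2 ≤ μ.real A := by
    rw [← e3, ← measureReal_union _ hP2m _ hf2]
    · refine measureReal_mono ?_ (hfin _ fun u hu => by rw [hA] at hu; exact hu.1)
      rintro u (hu | hu)
      · have hu' : u + y ∈ P1 := hu
        rw [hP1] at hu'
        obtain ⟨h1, h2⟩ := hu'
        rw [hA]
        refine ⟨?_, h1⟩
        have h3 := h.le i (u + y) (c := 2 * s) (by
          rw [abs_of_pos (lt_of_le_of_lt hs0 h2), abs_le]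
          constructor <;> linarith)
        rw [← hy1, add_sub_cancel_right] at h3
        exact h3.trans h1
      · rw [hP2] at hu
        obtain ⟨h1, h2⟩ := hu
        rw [hA]
        refine ⟨h1, ?_⟩
        have h3 := h.le i u (c := -(2 * s)) (by
          rw [abs_of_neg (a := b.coord i u) (by linarith), abs_le]
          constructor <;> linarith)
        rw [neg_smul, sub_neg_eq_add, ← hy1] at h3
        exact h3.trans h1
    · rw [Set.disjoint_left]
      intro u hu hu'
      have hu1 : u + y ∈ P1 := hu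
      rw [hP1] at hu1
      rw [hP2] at hu'
      have h1 := hu1.2
      rw [map_add, hcy] at h1
      have h2 := hu'.2
      linarith
    · rw [measure_preimage_add_right]
      exact hf1
  rw [← hs]
  linarith

end Pool.Agent.Lib.MP_5e7226_co.TH
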