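import Pool.Agent.Lib.MP_5e7226_co.TH.Basic

/-!
# TH, X2: Fubini for the radius
-/

set_option autoImplicit false
set_option linter.unusedSectionVars false

open MeasureTheory Set Module Metric

namespace Pool.Agent.Lib.MP_5e7226_co.TH

variable {E : Type} [NormedAddCommGroup E] [NormedSpace ℝ E] [FiniteDimensional ℝ E]
  [MeasurableSpace E] [BorelSpace E] (μ : Measure E) [μ.IsAddHaarMeasure]

/-- FUBINI for the radius. For `0 ≤ a ≤ b` and measurable (continuous) `F : E → ℝ`, `G : E → ℝ`, with `F = ‖·‖` and `G u = ‖u + y‖`: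
the integral over `r ∈ Icc a b` of `μ.real {u | ‖u‖ ≤ r ∧ r < ‖u + y‖}` is the integral over `u ∈ closedBall 0 b` of the length of `Icc a b ∩ Ico ‖u‖ ‖u + y‖`. PROOF. Both sides are
`(volume.prod μ).real {(r, u) | a ≤ r ∧ r ≤ b ∧ ‖u‖ ≤ r ∧ r < ‖u + y‖}` (`Measure.prod_apply`, `Measure.prod_apply_symm`; everything is contained in the bounded set `Icc a b × closedBall 0 b`;
`integral_toReal` or `integral_prod`). -/
theorem radius_fubini (y : E) {a b : ℝ} (ha : 0 ≤ a) (hab : a ≤ b) :
    ∫ r in Icc a b, μ.real {u : E | ‖u‖ ≤ r ∧ r < ‖u + y‖} =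
      ∫ u in closedBall (0 : E) b, (volume.real (Icc a b ∩ Ico ‖u‖ ‖u + y‖)) ∂μ := by
  have hm1 : Measurable fun p : ℝ × E => ‖p.2‖ := measurable_snd.norm
  have hm2 : Measurable fun p : ℝ × E => ‖p.2 + y‖ := (measurable_snd.add_const y).norm
  have hT0 : MeasurableSet {p : ℝ × E | ‖p.2‖ ≤ p.1 ∧ p.1 < ‖p.2 + y‖} :=
    (measurableSet_le hm1 measurable_fst).inter (measurableSet_lt measurable_fst hm2)
  set T : Set (ℝ × E) := {p | (a ≤ p.1 ∧ p.1 ≤ b) ∧ ‖p.2‖ ≤ p.1 ∧ p.1 < ‖p.2 + y‖} with hT
  have hTm : MeasurableSet T :=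
    ((measurableSet_le measurable_const measurable_fst).inter
      (measurableSet_le measurable_fst measurable_const)).inter hT0
  have h1 : ∫ r in Icc a b, μ.real {u : E | ‖u‖ ≤ r ∧ r < ‖u + y‖} =
      ((volume.prod μ) T).toReal := by
    rw [Measure.prod_apply hTm]
    simp only [Measure.real]
    rw [integral_toReal]
    · congr 1
      rw [← lintegral_indicator measurableSet_Icc]
      refine lintegral_congr fun r => ?_
      by_cases hr : r ∈ Icc a b
      · rw [indicator_of_mem hr]
        congr 1
        ext u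
        simp only [hT, mem_setOf_eq, mem_preimage, hr.1, hr.2, and_self, true_and]
      · rw [indicator_of_notMem hr]
        have h0 : Prod.mk r ⁻¹' T = ∅ := by
          ext u
          simp only [hT, mem_preimage, mem_setOf_eq, mem_empty_iff_false, iff_false]
          exact fun h => hr ⟨h.1.1, h.1.2⟩
        rw [h0, measure_empty]
    · exact (measurable_measure_prodMk_left hT0).aemeasurable
    · refine ae_of_all _ fun r => ?_
      refine lt_of_le_of_lt (measure_mono (t := closedBall (0 : E) r) ?_)
        (isCompact_closedBall (0 : E) r).measure_lt_top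
      intro u hu
      rw [mem_closedBall_zero_iff]
      exact hu.1
  have h2 : ∫ u in closedBall (0 : E) b, (volume.real (Icc a b ∩ Ico ‖u‖ ‖u + y‖)) ∂μ =
      ((volume.prod μ) T).toReal := by
    rw [Measure.prod_apply_symm hTm]
    simp only [Measure.real]
    have hsec : ∀ u : E, (fun r : ℝ => (r, u)) ⁻¹' T = Icc a b ∩ Ico ‖u‖ ‖u + y‖ := by
      intro u
      ext r
      simp only [hT, mem_preimage, mem_setOf_eq, mem_inter_iff, mem_Icc, mem_Ico]
    rw [integral_toReal]
    · congr 1
      rw [← lintegral_indicator measurableSet_closedBall]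
      refine lintegral_congr fun u => ?_
      rw [hsec]
      by_cases hu : u ∈ closedBall (0 : E) b
      · rw [indicator_of_mem hu]
      · rw [indicator_of_notMem hu]
        have h0 : Icc a b ∩ Ico ‖u‖ ‖u + y‖ = ∅ := by
          ext r
          simp only [mem_inter_iff, mem_Icc, mem_Ico, mem_empty_iff_false, iff_false]
          intro h
          exact hu (mem_closedBall_zero_iff.2 (h.2.1.trans h.1.2))
        rw [h0, measure_empty]
    · have h3 : (fun u : E => volume (Icc a b ∩ Ico ‖u‖ ‖u + y‖)) =
          fun u : E => volume ((fun r : ℝ => (r, u)) ⁻¹' T) := by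
        funext u
        rw [hsec]
      rw [h3]
      exact (measurable_measure_prodMk_right hTm).aemeasurable
    · refine ae_of_all _ fun u => ?_
      refine lt_of_le_of_lt (measure_mono inter_subset_left) ?_
      exact isCompact_Icc.measure_lt_top
  rw [h1, h2]

end Pool.Agent.Lib.MP_5e7226_co.TH
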