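import Pool.Agent.Lib.MP_5e7226_co.TH.X1
import Pool.Agent.Lib.MP_5e7226_co.TH.X2

/-!
# TH, X4: lower bound for the exit volume
-/

set_option autoImplicit false
set_option linter.unusedSectionVars false

open MeasureTheory Set Module Metric

namespace Pool.Agent.Lib.MP_5e7226_co.TH

variable {E : Type} [NormedAddCommGroup E] [NormedSpace ℝ E] [FiniteDimensional ℝ E]
  [MeasurableSpace E] [BorelSpace E] (μ : Measure E) [μ.IsAddHaarMeasure]

/-- PROOF. `b ^ d - a ^ d ≥ d (b - a) a ^ (d - 1)` for `0 ≤ a ≤ b`, with `b - a = 1 / (2 d)`, and `(1 - 1 / d) ^ (d - 1) ≥ exp (-1) ≥ 1 / 3`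
(`(1 + 1 / (d - 1)) ^ (d - 1) ≤ exp 1`, `exp 1 < 3`). -/
theorem shell_num {d : ℕ} (hd : 2 ≤ d) :
    (1 : ℝ) / 6 ≤ (1 - 1 / (2 * d)) ^ d - (1 - 1 / (d : ℝ)) ^ d := by
  obtain ⟨m, rfl⟩ : ∃ m, d = m + 1 := ⟨d - 1, by omega⟩
  have hm : 1 ≤ m := by omega
  have hm0 : (0 : ℝ) < m := by exact_mod_cast hm
  push_cast
  have h1 : (1 : ℝ) - 1 / ((m : ℝ) + 1) = m / (m + 1) := by
    field_simp
    ring
  have hpos : (0 : ℝ) < m / (m + 1) := by positivity
  -- Bernoulli
  have h2 : 1 + ((m + 1 : ℕ) : ℝ) * (1 / (2 * m)) ≤ (1 + 1 / (2 * (m : ℝ))) ^ (m + 1) := by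
    apply one_add_mul_le_pow
    have : (0 : ℝ) < 1 / (2 * m) := by positivity
    linarith
  have h3 : (1 : ℝ) - 1 / (2 * ((m : ℝ) + 1)) = m / (m + 1) * (1 + 1 / (2 * (m : ℝ))) := by
    field_simp
    ring
  rw [h1, h3, mul_pow]
  have h4 : ((m : ℝ) / (m + 1)) ^ (m + 1) * (1 + 1 / (2 * (m : ℝ))) ^ (m + 1)
      - ((m : ℝ) / (m + 1)) ^ (m + 1) ≥ (1 / 2) * ((m : ℝ) / (m + 1)) ^ m := by
    have h5 : ((m : ℝ) / (m + 1)) ^ (m + 1) * (1 + ((m + 1 : ℕ) : ℝ) * (1 / (2 * m))) ≤
        ((m : ℝ) / (m + 1)) ^ (m + 1) * (1 + 1 / (2 * (m : ℝ))) ^ (m + 1) :=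
      mul_le_mul_of_nonneg_left h2 (by positivity)
    have h6 : ((m : ℝ) / (m + 1)) ^ (m + 1) * (1 + ((m + 1 : ℕ) : ℝ) * (1 / (2 * m)))
        - ((m : ℝ) / (m + 1)) ^ (m + 1) = (1 / 2) * ((m : ℝ) / (m + 1)) ^ m := by
      rw [pow_succ]
      push_cast
      field_simp
      ring
    linarith
  have h7 : (1 : ℝ) / 3 ≤ ((m : ℝ) / (m + 1)) ^ m := by
    have h8 : (1 + 1 / (m : ℝ)) ^ m ≤ 3 := by
      have h9 : 1 + 1 / (m : ℝ) ≤ Real.exp (1 / m) := by
        have := Real.add_one_le_exp (1 / (m : ℝ))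
        linarith
      calc (1 + 1 / (m : ℝ)) ^ m ≤ (Real.exp (1 / m)) ^ m :=
            pow_le_pow_left₀ (by positivity) h9 m
        _ = Real.exp 1 := by
            rw [← Real.exp_nat_mul]
            congr 1
            field_simp
        _ ≤ 3 := (Real.exp_one_lt_d9.trans (by norm_num)).le
    have h10 : ((m : ℝ) / (m + 1)) ^ m = 1 / (1 + 1 / (m : ℝ)) ^ m := by
      rw [← one_div_pow]
      congr 1
      field_simp
    rw [h10]
    exact one_div_le_one_div_of_le (by positivity) h8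
  linarith

/-- PROOF. `u ↦ -u`, `nD_neg`: the positive part of `nD u x` has the same integral over the ball as the negative part, and their sum is `|nD u x|`. -/
theorem pos_part (x : E) : ∫ u in closedBall (0 : E) 1, max (nD u x) 0 ∂μ =
    (1 / 2) * ∫ u in closedBall (0 : E) 1, |nD u x| ∂μ := by
  have h0 : M μ (fun u => nD u x) = 0 := by
    have h1 := M_neg μ fun u => nD u x
    have h2 : M μ (fun u => nD (-u) x) = -M μ fun u => nD u x := by
      have h3 := M_mul_left μ (-1) fun u => nD u x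
      have h4 : (fun u : E => nD (-u) x) = fun u => -1 * nD u x := by
        funext u
        rw [nD_neg]
        simp
      rw [h4, h3]
      ring
    linarith
  have h5 : (fun u : E => max (nD u x) 0) = fun u => (1 / 2) * (nD u x + |nD u x|) := by
    funext u
    rcases le_total 0 (nD u x) with h | h
    · rw [max_eq_left h, abs_of_nonneg h]
      ring
    · rw [max_eq_right h, abs_of_nonpos h]
      ring
  have h6 : ∫ u in closedBall (0 : E) 1, nD u x ∂μ = 0 := by
    unfold M at h0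
    rcases mul_eq_zero.1 h0 with h | h
    · exact absurd h (inv_ne_zero (vol_pos μ).ne')
    · exact h
  rw [h5, integral_const_mul, integral_add ((Bd_nD x).integrable μ) ((Bd_nD x).abs.integrable μ),
    h6, zero_add]

private theorem X4_length (a s t : ℝ) : volume.real (Icc a 1 ∩ Ico s t) =
    max (min 1 t - max a s) 0 := by
  have h1 : volume (Icc a 1 ∩ Ico s t) = ENNReal.ofReal (min 1 t - max a s) := by
    apply le_antisymm
    · rw [← Real.volume_Icc]
      apply measure_mono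
      rintro r ⟨⟨h1, h2⟩, h3, h4⟩
      exact ⟨max_le h1 h3, le_min h2 h4.le⟩
    · rw [← Real.volume_Ico]
      apply measure_mono
      rintro r ⟨h1, h2⟩
      have h3 := lt_min_iff.1 h2
      have h4 := max_le_iff.1 h1
      exact ⟨⟨h4.1, h3.1.le⟩, h4.2, h3.2⟩
  unfold Measure.real
  rw [h1, ENNReal.toReal_ofReal']

/-- PROOF. Let `d = finrank`, `a = 1 - 1 / d ≥ 1 / 2`. For `r ∈ [a, 1]`: `μ.real {‖u‖ ≤ r < ‖u + τ x‖} = r ^ d * XV μ x (τ / r) ≤ XV μ x (2 τ)`, so the left side of `radius_fubini`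
(`y = τ x`, `b = 1`) is at most `(1 / d) XV μ x (2 τ)`. On the right side restrict to `a < ‖u‖ ≤ 1 - 1 / (2 d)`: then `‖u + τ x‖ ≤ 1` and the length is at least
`max (‖u + τ x‖ - ‖u‖) 0 ≥ τ max (nD u x) 0` for almost all `u` (`subgrad` at `w = u`; the length of `Icc a 1 ∩ Ico s t` is `t - s` if `a ≤ s ≤ t ≤ 1`). The integral of `max (nD u x) 0` over this shell is
`((1 - 1 / (2 d)) ^ d - (1 - 1 / d) ^ d)` times the integral over the unit ball (`integral_ball_hom`, `integral_diff`), `shell_num`, `pos_part`. -/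
theorem le_XV (hd : 2 ≤ finrank ℝ E) {x : E} (hx : ‖x‖ ≤ 1) {τ : ℝ} (hτ : 0 < τ)
    (hτd : 2 * τ * finrank ℝ E ≤ 1) :
    finrank ℝ E * τ / 12 * ∫ u in closedBall (0 : E) 1, |nD u x| ∂μ ≤ XV μ x (2 * τ) := by
  set d : ℕ := finrank ℝ E with hdd
  have hd2 : (2 : ℝ) ≤ d := by exact_mod_cast hd
  have hd0 : (0 : ℝ) < d := by linarith
  set a : ℝ := 1 - 1 / (d : ℝ) with ha
  set b : ℝ := 1 - 1 / (2 * (d : ℝ)) with hb
  have hinv : (1 : ℝ) / d ≤ 1 / 2 := one_div_le_one_div_of_le (by norm_num) hd2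
  have hinv0 : (0 : ℝ) < 1 / d := by positivity
  have hinv2 : (1 : ℝ) / (2 * d) = (1 / 2) * (1 / d) := by
    field_simp
  have ha2 : 1 / 2 ≤ a := by linarith
  have ha0 : 0 < a := by linarith
  have ha1 : a ≤ 1 := by linarith
  have hab : a ≤ b := by
    rw [hb, ha, hinv2]
    linarith
  have hb0 : 0 < b := by linarith
  have hb1 : b ≤ 1 := by
    rw [hb, hinv2]
    linarith
  have hτb : b + τ ≤ 1 := by
    have h1 : τ ≤ 1 / (2 * d) := by
      rw [le_div_iff₀ (by positivity)]
      linarith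
    rw [hb]
    linarith
  -- the left side
  have hXV0 : 0 ≤ XV μ x (2 * τ) := XV_nonneg μ x (2 * τ)
  have hL : ∫ r in Icc a 1, μ.real {u : E | ‖u‖ ≤ r ∧ r < ‖u + τ • x‖} ≤
      XV μ x (2 * τ) * (1 / d) := by
    have h1 : ‖∫ r in Icc a 1, μ.real {u : E | ‖u‖ ≤ r ∧ r < ‖u + τ • x‖}‖ ≤
        XV μ x (2 * τ) * volume.real (Icc a 1) := by
      apply norm_setIntegral_le_of_norm_le_const
      · rw [Real.volume_Icc]
        exact ENNReal.ofReal_lt_top
      · intro r hr
        have hr0 : 0 < r := ha0.trans_le hr.1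
        rw [Real.norm_eq_abs, abs_of_nonneg measureReal_nonneg, XV_scale μ x τ hr0]
        have h2 : XV μ x (τ / r) ≤ XV μ x (2 * τ) := by
          apply XV_mono μ x (by positivity)
          rw [div_le_iff₀ hr0]
          nlinarith [hr.1]
        have h3 : r ^ finrank ℝ E ≤ 1 := pow_le_one₀ hr0.le hr.2
        calc r ^ finrank ℝ E * XV μ x (τ / r) ≤ 1 * XV μ x (τ / r) :=
              mul_le_mul_of_nonneg_right h3 (XV_nonneg μ x _)
          _ ≤ XV μ x (2 * τ) := by rw [one_mul]; exact h2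
    have h4 : volume.real (Icc a 1) = 1 / d := by
      unfold Measure.real
      rw [Real.volume_Icc, ENNReal.toReal_ofReal (by linarith)]
      rw [ha]
      ring
    rw [h4] at h1
    exact (le_abs_self _).trans ((Real.norm_eq_abs _).symm.le.trans h1)
  -- the right side
  have hG : Bd fun u : E => volume.real (Icc a 1 ∩ Ico ‖u‖ ‖u + τ • x‖) := by
    have h1 : (fun u : E => volume.real (Icc a 1 ∩ Ico ‖u‖ ‖u + τ • x‖)) =
        fun u => max (min 1 ‖u + τ • x‖ - max a ‖u‖) 0 := by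
      funext u
      exact X4_length a _ _
    rw [h1]
    constructor
    · exact Continuous.measurable (by fun_prop)
    · refine ⟨1, fun u _ => ?_⟩
      rw [abs_of_nonneg (le_max_right _ _)]
      apply max_le _ zero_le_one
      have h2 : min 1 ‖u + τ • x‖ ≤ 1 := min_le_left _ _
      have h3 : a ≤ max a ‖u‖ := le_max_left _ _
      linarith
  have hF : Bd fun u : E => max (nD u x) 0 := by
    have h1 : (fun u : E => max (nD u x) 0) = fun u => (1 / 2) * (nD u x + |nD u x|) := by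
      funext u
      rcases le_total 0 (nD u x) with h | h
      · rw [max_eq_left h, abs_of_nonneg h]
        ring
      · rw [max_eq_right h, abs_of_nonpos h]
        ring
    rw [h1]
    exact (Bd.const _).mul ((Bd_nD x).add (Bd_nD x).abs)
  set S : Set E := closedBall (0 : E) b \ closedBall (0 : E) a with hS
  have hSm : MeasurableSet S := measurableSet_closedBall.diff measurableSet_closedBall
  have hS1 : S ⊆ closedBall (0 : E) 1 := fun u hu => closedBall_subset_closedBall hb1 hu.1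
  have hR1 : ∫ u in S, (volume.real (Icc a 1 ∩ Ico ‖u‖ ‖u + τ • x‖)) ∂μ ≤
      ∫ u in closedBall (0 : E) 1, (volume.real (Icc a 1 ∩ Ico ‖u‖ ‖u + τ • x‖)) ∂μ := by
    apply setIntegral_mono_set (hG.integrable μ)
    · exact Filter.Eventually.of_forall fun u => measureReal_nonneg
    · exact Filter.Eventually.of_forall hS1
  have hR2 : ∫ u in S, τ * max (nD u x) 0 ∂μ ≤
      ∫ u in S, (volume.real (Icc a 1 ∩ Ico ‖u‖ ‖u + τ • x‖)) ∂μ := by
    apply setIntegral_mono_on_ae
    · exact (((Bd.const τ).mul hF).integrable μ).mono_set hS1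
    · exact (hG.integrable μ).mono_set hS1
    · exact hSm
    · filter_upwards [ae_diff μ] with u hu huS
      have h1 : a < ‖u‖ := by
        have := huS.2
        rw [mem_closedBall_zero_iff, not_le] at this
        exact this
      have h2 : ‖u‖ ≤ b := mem_closedBall_zero_iff.1 huS.1
      have h3 : ‖u + τ • x‖ ≤ 1 := by
        calc ‖u + τ • x‖ ≤ ‖u‖ + ‖τ • x‖ := norm_add_le _ _
          _ ≤ b + τ := by
              rw [norm_smul, Real.norm_eq_abs, abs_of_pos hτ]
              have : τ * ‖x‖ ≤ τ * 1 := mul_le_mul_of_nonneg_left hx hτ.le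
              linarith
          _ ≤ 1 := hτb
      rw [X4_length, min_eq_right h3, max_eq_right h1.le]
      have h4 := subgrad hu (τ • x)
      rw [map_smul, smul_eq_mul] at h4
      rcases le_total (nD u x) 0 with h | h
      · rw [max_eq_right h, mul_zero]
        exact le_max_right _ _
      · rw [max_eq_left h]
        exact le_max_of_le_left (by linarith)
  have hR3 : ∫ u in S, τ * max (nD u x) 0 ∂μ =
      τ * ((b ^ d - a ^ d) * ∫ u in closedBall (0 : E) 1, max (nD u x) 0 ∂μ) := by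
    rw [integral_const_mul]
    congr 1
    have hhom : ∀ c : ℝ, 0 < c → ∀ u : E, max (nD (c • u) x) 0 = max (nD u x) 0 := by
      intro c hc u
      rw [nD_smul hc]
    rw [hS, setIntegral_sdiff measurableSet_closedBall
      ((hF.integrable μ).mono_set (closedBall_subset_closedBall hb1))
      (closedBall_subset_closedBall hab),
      integral_ball_hom μ hhom hb0, integral_ball_hom μ hhom ha0]
    ring
  have hfub := radius_fubini μ (τ • x) ha0.le ha1
  have hshell := shell_num hd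
  have hpp := pos_part μ x
  have hI0 : 0 ≤ ∫ u in closedBall (0 : E) 1, |nD u x| ∂μ :=
    setIntegral_nonneg measurableSet_closedBall fun u _ => abs_nonneg _
  rw [hpp] at hR3
  have hfin : τ * ((1 / 6) * ((1 / 2) * ∫ u in closedBall (0 : E) 1, |nD u x| ∂μ)) ≤
      XV μ x (2 * τ) * (1 / d) := by
    calc τ * ((1 / 6) * ((1 / 2) * ∫ u in closedBall (0 : E) 1, |nD u x| ∂μ))
        ≤ τ * ((b ^ d - a ^ d) * ((1 / 2) * ∫ u in closedBall (0 : E) 1, |nD u x| ∂μ)) := by
          apply mul_le_mul_of_nonneg_left _ hτ.le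
          apply mul_le_mul_of_nonneg_right _ (by positivity)
          rw [hb, ha]
          exact hshell
      _ = ∫ u in S, τ * max (nD u x) 0 ∂μ := hR3.symm
      _ ≤ _ := hR2
      _ ≤ _ := hR1
      _ = _ := hfub.symm
      _ ≤ _ := hL
  have h9 : XV μ x (2 * τ) = (XV μ x (2 * τ) * (1 / d)) * d := by
    field_simp
  rw [h9]
  calc (d : ℝ) * τ / 12 * ∫ u in closedBall (0 : E) 1, |nD u x| ∂μ
      = (τ * ((1 / 6) * ((1 / 2) * ∫ u in closedBall (0 : E) 1, |nD u x| ∂μ))) * d := by ring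
    _ ≤ _ := mul_le_mul_of_nonneg_right hfin hd0.le

end Pool.Agent.Lib.MP_5e7226_co.TH
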