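import Pool.Agent.Lib.MP_5e7226_co.TH.U1
import Pool.Agent.Lib.MP_5e7226_co.TH.X4
import Pool.Agent.Lib.MP_5e7226_co.TH.G4

/-!
# TH, U2: unconditional norms: the coordinates
-/

set_option autoImplicit false
set_option linter.unusedSectionVars false

open MeasureTheory Set Module Metric

namespace Pool.Agent.Lib.MP_5e7226_co.TH

variable {E : Type} [NormedAddCommGroup E] [NormedSpace ℝ E] [FiniteDimensional ℝ E]
  [MeasurableSpace E] [BorelSpace E] (μ : Measure E) [μ.IsAddHaarMeasure]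

/-- PROOF. Let `h = ‖b i‖`, `x = b i / h`, `d = finrank ≥ 2`, `τ = 1 / (2 d)`. `le_XV`: `d τ / 12 * vol * M (|nD u x|) ≤ XV μ x (2 τ)`, `exit_le` with `t = 2 τ`, `s = τ / h`:
`XV μ x (2 τ) ≤ vol * (1 - Pr μ c (2 s)) ` (`{|c u| ≤ s} ⊆ {|c u| < 2 s}`), and `slab`: `(1 - Pr μ c (2 s)) * M |c| ≤ 6 s`. Multiply by `M |c|`: `d τ / 12 * M (|nD u x|) * M |c| ≤ 6 τ / h`, and
`|nD u x| = |nD u (b i)| / h`. -/
theorem Unc.prod_le {ι : Type} {b : Basis ι ℝ E} (h : Unc b) (i : ι) (hd : 2 ≤ finrank ℝ E) :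
    (M μ fun u => |nD u (b i)|) * (M μ fun u => |b.coord i u|) ≤ 72 / finrank ℝ E := by
  have hb : 0 < ‖b i‖ := norm_pos_iff.2 (b.ne_zero i)
  have hV := vol_pos (E := E) μ
  have hdR : (2 : ℝ) ≤ finrank ℝ E := by exact_mod_cast hd
  have hd0 : (0 : ℝ) < finrank ℝ E := by linarith
  have hx : ‖‖b i‖⁻¹ • b i‖ ≤ 1 := by
    rw [norm_smul, norm_inv, norm_norm, inv_mul_cancel₀ hb.ne']
  have hτ : (0 : ℝ) < 1 / (2 * finrank ℝ E) := by positivity
  have hτd : 2 * (1 / (2 * (finrank ℝ E : ℝ))) * finrank ℝ E ≤ 1 := by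
    apply le_of_eq
    field_simp
  have h1 := le_XV μ hd hx hτ hτd
  have h2 := h.exit_le μ i (t := 2 * (1 / (2 * (finrank ℝ E : ℝ)))) (by positivity)
  set d : ℝ := ((finrank ℝ E : ℕ) : ℝ) with hddef
  set τ : ℝ := 1 / (2 * d) with hτdef
  have hs : 2 * τ / (2 * ‖b i‖) = τ / ‖b i‖ := by
    field_simp
  rw [hs] at h2
  set s : ℝ := τ / ‖b i‖ with hsdef
  have hs0 : 0 < s := div_pos hτ hb
  have hmeas : Continuous fun u : E => |b.coord i u| :=
    continuous_abs.comp (b.coord i).continuous_of_finiteDimensional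
  have hm1 : MeasurableSet {u : E | 2 * s ≤ |b.coord i u|} :=
    (isClosed_le continuous_const hmeas).measurableSet
  have hm2 : MeasurableSet {u : E | |b.coord i u| ≤ s} :=
    (isClosed_le hmeas continuous_const).measurableSet
  have h3 : Pr μ (b.coord i) (2 * s) +
      μ.real {u : E | ‖u‖ ≤ 1 ∧ |b.coord i u| ≤ s} / μ.real (closedBall (0 : E) 1) ≤ 1 := by
    have h4 : μ.real {u : E | ‖u‖ ≤ 1 ∧ |b.coord i u| ≤ s} / μ.real (closedBall (0 : E) 1) =
        M μ ({u : E | |b.coord i u| ≤ s}.indicator fun _ => (1 : ℝ)) := by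
      rw [M_indicator μ hm2]
      rfl
    rw [h4]
    unfold Pr
    rw [← M_add μ (Bd.indicator hm1) (Bd.indicator hm2)]
    calc M μ (fun u => ({u : E | 2 * s ≤ |b.coord i u|}.indicator fun _ => (1 : ℝ)) u +
          ({u : E | |b.coord i u| ≤ s}.indicator fun _ => (1 : ℝ)) u) ≤ M μ fun _ : E => 1 := by
          refine M_mono μ ((Bd.indicator hm1).add (Bd.indicator hm2)) (Bd.const 1) fun u _ => ?_
          by_cases h5 : 2 * s ≤ |b.coord i u|
          · have h6 : u ∉ {u : E | |b.coord i u| ≤ s} := by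
              rw [mem_ofPred_eq]
              linarith
            rw [indicator_of_mem (show u ∈ {u : E | 2 * s ≤ |b.coord i u|} from h5),
              indicator_of_notMem h6]
            norm_num
          · rw [indicator_of_notMem (show u ∉ {u : E | 2 * s ≤ |b.coord i u|} from h5), zero_add]
            by_cases h6 : |b.coord i u| ≤ s
            · rw [indicator_of_mem (show u ∈ {u : E | |b.coord i u| ≤ s} from h6)]
            · rw [indicator_of_notMem (show u ∉ {u : E | |b.coord i u| ≤ s} from h6)]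
              norm_num
      _ = 1 := M_const μ 1
  have h7 := slab μ (b.coord i) (s := 2 * s) (by positivity)
  have h8 : 0 ≤ M μ fun u => |b.coord i u| := M_nonneg μ fun u _ => abs_nonneg _
  have h9 : (∫ u in closedBall (0 : E) 1, |nD u (‖b i‖⁻¹ • b i)| ∂μ) =
      μ.real (closedBall (0 : E) 1) * (‖b i‖⁻¹ * M μ fun u => |nD u (b i)|) := by
    have h10 : (fun u : E => |nD u (‖b i‖⁻¹ • b i)|) = fun u => ‖b i‖⁻¹ * |nD u (b i)| := by
      funext u
      rw [map_smul, smul_eq_mul, abs_mul, abs_of_pos (inv_pos.2 hb)]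
    rw [h10, integral_const_mul]
    unfold M
    field_simp
  rw [h9] at h1
  set A := M μ fun u => |nD u (b i)| with hA
  set B := M μ fun u => |b.coord i u| with hB
  set V := μ.real (closedBall (0 : E) 1) with hVdef
  set m := μ.real {u : E | ‖u‖ ≤ 1 ∧ |b.coord i u| ≤ s} with hmdef
  set P := Pr μ (b.coord i) (2 * s) with hP
  have h11 : m ≤ V * (1 - P) := by
    have h12 : m / V ≤ 1 - P := by linarith
    rw [div_le_iff₀ hV] at h12
    linarith
  have h13 : d * τ / 12 * (‖b i‖⁻¹ * A) ≤ 1 - P := by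
    have h14 : V * (d * τ / 12 * (‖b i‖⁻¹ * A)) ≤ V * (1 - P) := by
      calc V * (d * τ / 12 * (‖b i‖⁻¹ * A)) = d * τ / 12 * (V * (‖b i‖⁻¹ * A)) := by ring
        _ ≤ V * (1 - P) := (h1.trans h2).trans h11
    exact le_of_mul_le_mul_left h14 hV
  have h15 : d * τ / 12 * (‖b i‖⁻¹ * A) * B ≤ 3 * (2 * s) :=
    (mul_le_mul_of_nonneg_right h13 h8).trans h7
  rw [le_div_iff₀ hd0]
  have h16 : d * τ / 12 * (‖b i‖⁻¹ * A) * B = (τ / (12 * ‖b i‖)) * (A * B * d) := by
    field_simp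
  have h17 : 3 * (2 * s) = (τ / (12 * ‖b i‖)) * 72 := by
    rw [hsdef]
    field_simp
    norm_num
  rw [h16, h17] at h15
  exact le_of_mul_le_mul_left h15 (by positivity)

/-- PROOF. `M (c ^ 2) ≤ M |c| / ‖b i‖` (`coord_le`: `|c u| ‖b i‖ ≤ 1` on the ball) and `M ((nD u (b i)) ^ 2) ≤ ‖b i‖ * M |nD u (b i)|` (`nD_le`), `prod_le`. -/
theorem Unc.sq_le {ι : Type} {b : Basis ι ℝ E} (h : Unc b) (i : ι) (hd : 2 ≤ finrank ℝ E) :
    (M μ fun u => nD u (b i) ^ 2) * (M μ fun u => b.coord i u ^ 2) ≤ 72 / finrank ℝ E := by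
  have hb : 0 < ‖b i‖ := norm_pos_iff.2 (b.ne_zero i)
  have hA0 : 0 ≤ M μ fun u => |nD u (b i)| := M_nonneg μ fun u _ => abs_nonneg _
  have hB0 : 0 ≤ M μ fun u => |b.coord i u| := M_nonneg μ fun u _ => abs_nonneg _
  have h1 : (M μ fun u => nD u (b i) ^ 2) ≤ ‖b i‖ * M μ fun u => |nD u (b i)| := by
    rw [← M_mul_left]
    refine M_mono μ ((Bd_nD (b i)).pow 2) ((Bd.const _).mul (Bd_nD (b i)).abs) fun u _ => ?_
    rw [← sq_abs, pow_two]
    exact mul_le_mul_of_nonneg_right (nD_le u (b i)) (abs_nonneg _)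
  have h2 : (M μ fun u => b.coord i u ^ 2) ≤ ‖b i‖⁻¹ * M μ fun u => |b.coord i u| := by
    rw [← M_mul_left]
    refine M_mono μ ((Bd.lin (b.coord i)).pow 2) ((Bd.const _).mul (Bd.lin (b.coord i)).abs)
      fun u hu => ?_
    rw [← sq_abs, pow_two]
    refine mul_le_mul_of_nonneg_right ?_ (abs_nonneg _)
    have h3 := (h.coord_le i u).trans hu
    rw [← one_div, le_div_iff₀ hb]
    exact h3
  have h3 : 0 ≤ M μ fun u => b.coord i u ^ 2 := M_nonneg μ fun u _ => sq_nonneg _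
  calc (M μ fun u => nD u (b i) ^ 2) * (M μ fun u => b.coord i u ^ 2)
      ≤ (‖b i‖ * M μ fun u => |nD u (b i)|) * (‖b i‖⁻¹ * M μ fun u => |b.coord i u|) :=
        mul_le_mul h1 h2 h3 (by positivity)
    _ = (M μ fun u => |nD u (b i)|) * (M μ fun u => |b.coord i u|) := by
        field_simp
    _ ≤ 72 / finrank ℝ E := h.prod_le μ i hd

end Pool.Agent.Lib.MP_5e7226_co.TH
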