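import Pool.Agent.Lib.MP_5e7226_co.TH.U2
import Pool.Agent.Lib.MP_5e7226_co.TH.S3

/-!
# TH, U3: unconditional norms: the quadratic forms
-/

set_option autoImplicit false
set_option linter.unusedSectionVars false

open MeasureTheory Set Module Metric

namespace Pool.Agent.Lib.MP_5e7226_co.TH

variable {E : Type} [NormedAddCommGroup E] [NormedSpace ℝ E] [FiniteDimensional ℝ E]
  [MeasurableSpace E] [BorelSpace E] (μ : Measure E) [μ.IsAddHaarMeasure]

/-- The reflection is a linear isometry which changes the sign of the coordinate `i` and fixes the others. -/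
theorem Unc.exists_refl {ι : Type} {b : Basis ι ℝ E} (h : Unc b) (i : ι) :
    ∃ σ : E →ₗ[ℝ] E, (∀ v, ‖σ v‖ = ‖v‖) ∧ b.coord i ∘ₗ σ = -b.coord i ∧
      ∀ j, j ≠ i → b.coord j ∘ₗ σ = b.coord j := by
  refine ⟨LinearMap.id - (2 : ℝ) • (b.coord i).smulRight (b i), ?_, ?_, ?_⟩
  · intro v
    have h1 : (LinearMap.id - (2 : ℝ) • (b.coord i).smulRight (b i) : E →ₗ[ℝ] E) v =
        v - (2 * b.coord i v) • b i := by
      rw [LinearMap.sub_apply, LinearMap.smul_apply, LinearMap.smulRight_apply, smul_smul,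
        LinearMap.id_apply]
    rw [h1]
    exact h i v
  · ext v
    rw [LinearMap.comp_apply, LinearMap.sub_apply, LinearMap.smul_apply, LinearMap.smulRight_apply,
      LinearMap.id_apply, map_sub, map_smul, map_smul, LinearMap.neg_apply]
    have h1 : b.coord i (b i) = 1 := by
      rw [Basis.coord_apply, Basis.repr_self, Finsupp.single_eq_same]
    rw [h1, smul_eq_mul, smul_eq_mul]
    ring
  · intro j hj
    ext v
    rw [LinearMap.comp_apply, LinearMap.sub_apply, LinearMap.smul_apply, LinearMap.smulRight_apply,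
      LinearMap.id_apply, map_sub, map_smul, map_smul]
    have h1 : b.coord j (b i) = 0 := by
      rw [Basis.coord_apply, Basis.repr_self, Finsupp.single_eq_of_ne hj]
    rw [h1, smul_zero, smul_zero, sub_zero]

/-- PROOF. `ip_isom` for the reflection: `ip (c i) (c j) = ip (- c i) (c j)`, the same for `QQ`. -/
theorem Unc.orth {ι : Type} {b : Basis ι ℝ E} (h : Unc b) {i j : ι} (hij : i ≠ j) :
    ip μ (b.coord i) (b.coord j) = 0 ∧ QQ μ (b.coord i) (b.coord j) = 0 := by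
  obtain ⟨σ, h1, h2, h3⟩ := h.exists_refl i
  obtain ⟨h4, h5⟩ := ip_isom μ h1 (b.coord i) (b.coord j)
  obtain ⟨P, hP⟩ := exists_ip_form μ
  obtain ⟨B, hB⟩ := exists_QQ_form μ
  rw [h2, h3 j hij.symm, ← hP, ← hP, map_neg, LinearMap.neg_apply] at h4
  rw [h2, h3 j hij.symm, ← hB, ← hB, map_neg, LinearMap.neg_apply] at h5
  rw [← hP, ← hB]
  constructor <;> linarith

/-- PROOF. `nL u = ∑ j, nD u (b j) • b.coord j`, so by `orth` `ip μ (nL u) (c i) = nD u (b i) * ip (c i) (c i)`. Hence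
`QQ (c i) (c i) = M ((nD u (b i)) ^ 2) * ip (c i) (c i) ^ 2`, and `M ((nD u (b i)) ^ 2) * ip (c i) (c i) ≤ 72 / d` by `sq_le`. -/
theorem Unc.QQ_coord {ι : Type} [Fintype ι] {b : Basis ι ℝ E} (h : Unc b) (i : ι)
    (hd : 2 ≤ finrank ℝ E) :
    QQ μ (b.coord i) (b.coord i) ≤ 72 / finrank ℝ E * ip μ (b.coord i) (b.coord i) := by
  classical
  obtain ⟨P, hP⟩ := exists_ip_form μ
  have hnL : ∀ u, nL u = ∑ j, nD u (b j) • b.coord j := by
    intro u
    ext v
    rw [nL_apply, LinearMap.sum_apply]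
    conv_lhs => rw [← b.sum_repr v, map_sum]
    refine Finset.sum_congr rfl fun j _ => ?_
    rw [map_smul, LinearMap.smul_apply, Basis.coord_apply, smul_eq_mul, smul_eq_mul, mul_comm]
  have hip : ∀ u, ip μ (nL u) (b.coord i) = nD u (b i) * ip μ (b.coord i) (b.coord i) := by
    intro u
    rw [← hP, hnL u, map_sum, LinearMap.sum_apply, Finset.sum_eq_single i]
    · rw [map_smul, LinearMap.smul_apply, smul_eq_mul, hP]
    · intro j _ hj
      rw [map_smul, LinearMap.smul_apply, hP, (h.orth μ hj).1, smul_zero]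
    · intro hi
      exact absurd (Finset.mem_univ i) hi
  have hQ : QQ μ (b.coord i) (b.coord i) =
      ip μ (b.coord i) (b.coord i) ^ 2 * M μ fun u => nD u (b i) ^ 2 := by
    unfold QQ
    rw [← M_mul_left]
    congr 1
    funext u
    rw [hip u]
    ring
  have hp : ip μ (b.coord i) (b.coord i) = M μ fun u => b.coord i u ^ 2 := by
    unfold ip
    congr 1
    funext u
    ring
  have hp0 : 0 ≤ ip μ (b.coord i) (b.coord i) := by
    rw [hp]
    exact M_nonneg μ fun u _ => sq_nonneg _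
  have hs := h.sq_le μ i hd
  rw [← hp] at hs
  rw [hQ]
  have h1 := mul_le_mul_of_nonneg_right hs hp0
  nlinarith [h1]

private theorem U3_form {ι : Type} [Fintype ι] (b : Basis ι ℝ E)
    (P : (E →ₗ[ℝ] ℝ) →ₗ[ℝ] (E →ₗ[ℝ] ℝ) →ₗ[ℝ] ℝ)
    (hP : ∀ i j, i ≠ j → P (b.coord i) (b.coord j) = 0) (a : E →ₗ[ℝ] ℝ) :
    P a a = ∑ i, a (b i) ^ 2 * P (b.coord i) (b.coord i) := by
  classical
  have ha : a = ∑ i, a (b i) • b.coord i := by
    ext v
    rw [LinearMap.sum_apply]
    conv_lhs => rw [← b.sum_repr v, map_sum]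
    refine Finset.sum_congr rfl fun j _ => ?_
    rw [map_smul, LinearMap.smul_apply, Basis.coord_apply, smul_eq_mul, smul_eq_mul, mul_comm]
  have h1 : ∀ i, P (b.coord i) a = a (b i) * P (b.coord i) (b.coord i) := by
    intro i
    conv_lhs => rw [ha]
    rw [map_sum, Finset.sum_eq_single i]
    · rw [map_smul, smul_eq_mul]
    · intro j _ hj
      rw [map_smul, hP i j hj.symm, smul_zero]
    · intro hi
      exact absurd (Finset.mem_univ i) hi
  have h2 : P a a = ∑ i, a (b i) * P (b.coord i) a := by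
    conv_lhs =>
      enter [1]
      rw [ha]
    rw [map_sum, LinearMap.sum_apply]
    refine Finset.sum_congr rfl fun i _ => ?_
    rw [map_smul, LinearMap.smul_apply, smul_eq_mul]
  rw [h2]
  refine Finset.sum_congr rfl fun i _ => ?_
  rw [h1 i]
  ring

/-- PROOF. `a = ∑ α i • b.coord i` with `α i = a (b i)`; by `orth` (and bilinearity: `exists_ip_form`, `exists_QQ_form`) `ip a a = ∑ α i ^ 2 * ip (c i) (c i)`,
`QQ a a = ∑ α i ^ 2 * QQ (c i) (c i)`, `QQ_coord`. -/
theorem Unc.kappa {ι : Type} [Fintype ι] {b : Basis ι ℝ E} (h : Unc b)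
    (hd : 2 ≤ finrank ℝ E) (a : E →ₗ[ℝ] ℝ) : QQ μ a a ≤ 72 / finrank ℝ E * ip μ a a := by
  obtain ⟨P, hP⟩ := exists_ip_form μ
  obtain ⟨B, hB⟩ := exists_QQ_form μ
  rw [← hP, ← hB, U3_form b P (fun i j hij => by rw [hP]; exact (h.orth μ hij).1) a,
    U3_form b B (fun i j hij => by rw [hB]; exact (h.orth μ hij).2) a, Finset.mul_sum]
  refine Finset.sum_le_sum fun i _ => ?_
  rw [hP, hB]
  have h1 := mul_le_mul_of_nonneg_left (h.QQ_coord μ i hd) (sq_nonneg (a (b i)))
  nlinarith [h1]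

/-- PROOF. `TT_le` with `κ = 72 / d`, `s = TT / D ^ 2` if `TT > 0`, `D > 0` (`D > 0` as `E` is nontrivial): `TT ≤ TT / 2 + κ D ^ 2 / (2 TT)`. -/
theorem Unc.TT_sq {ι ι' : Type} [Fintype ι] [Fintype ι'] {b : Basis ι ℝ E} (h : Unc b)
    (hd : 2 ≤ finrank ℝ E) {D : ℝ} (A : E ≃ₗ[ℝ] EuclideanSpace ℝ ι')
    (hA : ∀ v, ‖A v‖ ≤ ‖v‖) (hA' : ∀ v, ‖v‖ ≤ D * ‖A v‖) :
    TT μ ^ 2 * finrank ℝ E ≤ 72 * D ^ 2 := by
  have hd0 : (0 : ℝ) < finrank ℝ E := by
    have : 0 < finrank ℝ E := by omega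
    exact_mod_cast this
  have hT0 : 0 ≤ TT μ := by
    unfold TT
    exact M_nonneg μ fun u _ => M_nonneg μ fun v _ => sq_nonneg _
  rcases hT0.eq_or_lt with hT | hT
  · rw [← hT]
    have : (0 : ℝ) ≤ 72 * D ^ 2 := by positivity
    simpa using this
  · have hnt : Nontrivial E := Module.nontrivial_of_finrank_pos (R := ℝ) (by omega)
    obtain ⟨v, hv⟩ := exists_ne (0 : E)
    have hD : 0 < D := by
      by_contra hD
      push Not at hD
      have h1 := hA' v
      have h2 : D * ‖A v‖ ≤ 0 := mul_nonpos_of_nonpos_of_nonneg hD (norm_nonneg _)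
      have h3 := norm_pos_iff.mpr hv
      linarith
    have hD2 : 0 < D ^ 2 := pow_pos hD 2
    have h1 := TT_le μ (s := TT μ / D ^ 2) (κ := 72 / finrank ℝ E) (div_pos hT hD2)
      (by positivity) (fun a => h.kappa μ hd a) A hA hA'
    have h2 : TT μ / D ^ 2 / 2 * D ^ 2 = TT μ / 2 := by field_simp
    have h3 : 72 / (finrank ℝ E : ℝ) / (2 * (TT μ / D ^ 2)) =
        36 * D ^ 2 / (finrank ℝ E * TT μ) := by
      field_simp
      ring
    rw [h2, h3] at h1
    have h4 : TT μ / 2 ≤ 36 * D ^ 2 / (finrank ℝ E * TT μ) := by linarith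
    rw [le_div_iff₀ (mul_pos hd0 hT)] at h4
    nlinarith [h4]

end Pool.Agent.Lib.MP_5e7226_co.TH
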