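import Pool.Agent.Lib.MP_5e7226_co.TH.D1

/-!
# TH, X1: the exit volume, elementary properties
-/

set_option autoImplicit false
set_option linter.unusedSectionVars false

open MeasureTheory Set Module Metric
open scoped Pointwise

namespace Pool.Agent.Lib.MP_5e7226_co.TH

variable {E : Type} [NormedAddCommGroup E] [NormedSpace ℝ E] [FiniteDimensional ℝ E]
  [MeasurableSpace E] [BorelSpace E] (μ : Measure E) [μ.IsAddHaarMeasure]

private theorem X1_ne_top (x : E) (t : ℝ) : μ {u : E | ‖u‖ ≤ 1 ∧ 1 < ‖u + t • x‖} ≠ ⊤ := by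
  refine ne_top_of_le_ne_top (measure_closedBall_lt_top (x := (0 : E)) (r := 1)).ne
    (measure_mono ?_)
  intro u hu
  exact mem_closedBall_zero_iff.2 hu.1

theorem XV_nonneg (x : E) (t : ℝ) : 0 ≤ XV μ x t := by
  unfold XV
  exact measureReal_nonneg

/-- PROOF. If `‖u‖ ≤ 1 < ‖u + s x‖` and `0 ≤ s ≤ t` then `u + s x` is a convex combination of `u` and `u + t x` (`s = 0` is impossible), so `‖u + t x‖ > 1`. -/
theorem XV_mono (x : E) {s t : ℝ} (hs : 0 ≤ s) (hst : s ≤ t) : XV μ x s ≤ XV μ x t := by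
  unfold XV
  refine measureReal_mono ?_ (X1_ne_top μ x t)
  rintro u ⟨hu, hs1⟩
  refine ⟨hu, ?_⟩
  by_contra hcon
  rw [not_lt] at hcon
  rcases hs.eq_or_lt with h0 | h0
  · rw [← h0, zero_smul, add_zero] at hs1
    linarith
  · have ht : 0 < t := h0.trans_le hst
    have h1 : u + s • x = (1 - s / t) • u + (s / t) • (u + t • x) := by
      rw [smul_add, smul_smul, div_mul_cancel₀ _ ht.ne', ← add_assoc, ← add_smul]
      congr 1
      rw [sub_add_cancel, one_smul]
    have h2 : 0 ≤ s / t := div_nonneg hs ht.le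
    have h3 : s / t ≤ 1 := (div_le_one ht).2 hst
    have h4 : ‖u + s • x‖ ≤ 1 := by
      rw [h1]
      refine (norm_add_le _ _).trans ?_
      rw [norm_smul, norm_smul, Real.norm_of_nonneg h2, Real.norm_of_nonneg (by linarith)]
      nlinarith
    linarith

/-- PROOF. If `‖u‖ ≤ 1 < ‖u + t x‖` then for some `j < k` the point `v = u + (j t / k) x` has `‖v‖ ≤ 1 < ‖v + (t / k) x‖`: the set is contained in the union over `j < k` of translates of the
set for `t / k` (`measure_union_le`, `measure_preimage_add`). -/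
theorem XV_div (x : E) (t : ℝ) {k : ℕ} (hk : 1 ≤ k) : XV μ x t ≤ k * XV μ x (t / k) := by
  have hk0 : (0 : ℝ) < k := by exact_mod_cast hk
  set A : Set E := {u : E | ‖u‖ ≤ 1 ∧ 1 < ‖u + (t / k) • x‖} with hA
  have hsub : {u : E | ‖u‖ ≤ 1 ∧ 1 < ‖u + t • x‖} ⊆
      ⋃ j ∈ Finset.range k, (fun u : E => u + ((j : ℝ) * (t / k)) • x) ⁻¹' A := by
    rintro u ⟨hu, ht⟩
    classical
    have hex : ∃ j : ℕ, 1 < ‖u + ((j : ℝ) * (t / k)) • x‖ := by
      refine ⟨k, ?_⟩
      rw [mul_div_cancel₀ _ hk0.ne']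
      exact ht
    have hf := Nat.find_spec hex
    have hle : Nat.find hex ≤ k := Nat.find_min' hex (by
      rw [mul_div_cancel₀ _ hk0.ne']
      exact ht)
    have hne : Nat.find hex ≠ 0 := by
      intro h0
      rw [h0, Nat.cast_zero, zero_mul, zero_smul, add_zero] at hf
      linarith
    obtain ⟨m, hm⟩ := Nat.exists_eq_succ_of_ne_zero hne
    have hmin := Nat.find_min hex (m := m) (by omega)
    rw [not_lt] at hmin
    rw [hm] at hf
    simp only [mem_iUnion]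
    refine ⟨m, Finset.mem_range.2 (by omega), ?_⟩
    refine ⟨hmin, ?_⟩
    have h1 : u + ((m : ℝ) * (t / k)) • x + (t / k) • x = u + (((m.succ : ℕ) : ℝ) * (t / k)) • x := by
      rw [add_assoc, ← add_smul]
      congr 2
      push_cast
      ring
    rw [h1]
    exact hf
  have hm : μ {u : E | ‖u‖ ≤ 1 ∧ 1 < ‖u + t • x‖} ≤ k * μ A := by
    refine (measure_mono hsub).trans ((measure_biUnion_finset_le _ _).trans ?_)
    have h2 : ∀ j ∈ Finset.range k,
        μ ((fun u : E => u + ((j : ℝ) * (t / k)) • x) ⁻¹' A) = μ A := fun j _ =>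
      measure_preimage_add_right μ _ A
    rw [Finset.sum_congr rfl h2, Finset.sum_const, Finset.card_range, nsmul_eq_mul]
  unfold XV Measure.real
  have hA' : μ A ≠ ⊤ := X1_ne_top μ x (t / k)
  have h3 := ENNReal.toReal_mono (ENNReal.mul_ne_top (ENNReal.natCast_ne_top k) hA') hm
  rwa [ENNReal.toReal_mul, ENNReal.toReal_natCast] at h3

/-- PROOF. `u = r u'` (`Measure.addHaar_smul`: the set is `r • {u' | ‖u'‖ ≤ 1 ∧ 1 < ‖u' + (t / r) x‖}`). -/
theorem XV_scale (x : E) (t : ℝ) {r : ℝ} (hr : 0 < r) :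
    μ.real {u : E | ‖u‖ ≤ r ∧ r < ‖u + t • x‖} = r ^ finrank ℝ E * XV μ x (t / r) := by
  have hset : {u : E | ‖u‖ ≤ r ∧ r < ‖u + t • x‖} =
      r • {u : E | ‖u‖ ≤ 1 ∧ 1 < ‖u + (t / r) • x‖} := by
    ext u
    rw [mem_smul_set_iff_inv_smul_mem₀ hr.ne']
    have h1 : ‖r⁻¹ • u‖ = r⁻¹ * ‖u‖ := by
      rw [norm_smul, Real.norm_of_nonneg (inv_nonneg.2 hr.le)]
    have h2 : r⁻¹ • u + (t / r) • x = r⁻¹ • (u + t • x) := by
      rw [smul_add, smul_smul, div_eq_inv_mul]
    have h3 : ‖r⁻¹ • u + (t / r) • x‖ = r⁻¹ * ‖u + t • x‖ := by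
      rw [h2, norm_smul, Real.norm_of_nonneg (inv_nonneg.2 hr.le)]
    change (‖u‖ ≤ r ∧ r < ‖u + t • x‖) ↔ (‖r⁻¹ • u‖ ≤ 1 ∧ 1 < ‖r⁻¹ • u + (t / r) • x‖)
    rw [h1, h3, inv_mul_le_iff₀ hr, mul_one, lt_inv_mul_iff₀ hr, mul_one]
  rw [hset]
  unfold XV Measure.real
  rw [Measure.addHaar_smul, ENNReal.toReal_mul, ENNReal.toReal_ofReal (abs_nonneg _),
    abs_of_nonneg (pow_nonneg hr.le _)]

/-- PROOF. Substitution `u = r u'` in a ball for a function `F` with `F (r u) = F u` (`Measure.setIntegral_comp_smul_of_pos` or `integral_comp_smul` for the indicator). -/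
theorem integral_ball_hom {F : E → ℝ} (hF : ∀ c : ℝ, 0 < c → ∀ u, F (c • u) = F u) {r : ℝ}
    (hr : 0 < r) : ∫ u in closedBall (0 : E) r, F u ∂μ =
      r ^ finrank ℝ E * ∫ u in closedBall (0 : E) 1, F u ∂μ := by
  have h1 := Measure.setIntegral_comp_smul_of_pos μ F (closedBall (0 : E) 1) hr
  rw [smul_unitClosedBall_of_nonneg hr.le] at h1
  simp only [hF r hr] at h1
  rw [h1, smul_eq_mul, ← mul_assoc, mul_inv_cancel₀ (pow_pos hr _).ne', one_mul]

end Pool.Agent.Lib.MP_5e7226_co.TH
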