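import Pool.Agent.Lib.MP_5e7226_co.TH.X1
import Pool.Agent.Lib.MP_5e7226_co.TH.X2

/-!
# TH, X3: upper bound for the exit volume
-/

set_option autoImplicit false
set_option linter.unusedSectionVars false

open MeasureTheory Set Module Metric

namespace Pool.Agent.Lib.MP_5e7226_co.TH

variable {E : Type} [NormedAddCommGroup E] [NormedSpace ℝ E] [FiniteDimensional ℝ E]
  [MeasurableSpace E] [BorelSpace E] (μ : Measure E) [μ.IsAddHaarMeasure]

/-- PROOF. Let `d = finrank`, `b = 1 + 1 / d ≤ 2`. For `r ∈ [1, b]`: `μ.real {‖u‖ ≤ r < ‖u + τ x‖} = r ^ d * XV μ x (τ / r) ≥ XV μ x (τ / 2)` (`XV_scale`, `XV_mono`). So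
`(1 / d) XV μ x (τ / 2)` is at most the left side of `radius_fubini` (`y = τ x`, `a = 1`). The length on the right side is at most `max (‖u + τ x‖ - ‖u‖) 0`, which for almost all `u`
(those for which the norm is differentiable at `u + τ x`; `ae_diff` and translation invariance) is at most `τ |nD (u + τ x) x|` (`subgrad` at `w = u + τ x`, `z = - τ x`). The integral of
`|nD (u + τ x) x|` over `‖u‖ ≤ b` is at most that of `|nD w x|` over `‖w‖ ≤ 1 + 2 / d` (`τ ‖x‖ ≤ 1 / d`), which is `(1 + 2 / d) ^ d ≤ exp 2 ≤ 8` times the integral over the unit ball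
(`integral_ball_hom`, `nD_smul`). -/
theorem XV_le (hd : 1 ≤ finrank ℝ E) {x : E} (hx : ‖x‖ ≤ 1) {τ : ℝ} (hτ : 0 < τ)
    (hτd : τ * finrank ℝ E ≤ 1) :
    XV μ x (τ / 2) ≤ 8 * finrank ℝ E * τ * ∫ u in closedBall (0 : E) 1, |nD u x| ∂μ := by
  set d : ℕ := finrank ℝ E with hdef
  have hd0 : (0 : ℝ) < d := by exact_mod_cast hd
  have hd1 : (1 : ℝ) ≤ d := by exact_mod_cast hd
  set b : ℝ := 1 + 1 / d with hb
  have hinv : 1 / (d : ℝ) ≤ 1 := by rw [div_le_one hd0]; exact hd1
  have hinv0 : 0 < 1 / (d : ℝ) := by positivity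
  have hb1 : 1 ≤ b := by rw [hb]; linarith
  have hb2 : b ≤ 2 := by rw [hb]; linarith
  have hF := radius_fubini μ (τ • x) (zero_le_one) hb1
  -- the left side
  have hL : 1 / (d : ℝ) * XV μ x (τ / 2) ≤
      ∫ r in Icc (1 : ℝ) b, μ.real {u : E | ‖u‖ ≤ r ∧ r < ‖u + τ • x‖} := by
    have e1 : ∫ r in Icc (1 : ℝ) b, μ.real {u : E | ‖u‖ ≤ r ∧ r < ‖u + τ • x‖} =
        ∫ r in Icc (1 : ℝ) b, r ^ d * XV μ x (τ / r) := by
      apply setIntegral_congr_fun measurableSet_Icc
      intro r hr
      exact XV_scale μ x τ (by linarith [hr.1])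
    have e2 : 1 / (d : ℝ) * XV μ x (τ / 2) = ∫ _r in Icc (1 : ℝ) b, XV μ x (τ / 2) := by
      rw [setIntegral_const, smul_eq_mul, Measure.real, Real.volume_Icc, ENNReal.toReal_ofReal
        (by linarith)]
      congr 1
      rw [hb]; ring
    rw [e1, e2]
    have hanti : AntitoneOn (fun r : ℝ => XV μ x (τ / r)) (Icc 1 b) := by
      intro r hr s hs hrs
      have hr0 : 0 < r := by linarith [hr.1]
      have hs0 : 0 < s := by linarith [hs.1]
      exact XV_mono μ x (by positivity) (div_le_div_of_nonneg_left hτ.le hr0 hrs)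
    have hint1 : IntegrableOn (fun r : ℝ => XV μ x (τ / r)) (Icc 1 b) :=
      hanti.integrableOn_isCompact isCompact_Icc
    have hint2 : IntegrableOn (fun r : ℝ => r ^ d * XV μ x (τ / r)) (Icc 1 b) :=
      hint1.continuousOn_mul (continuous_pow d).continuousOn isCompact_Icc
    apply setIntegral_mono_on _ hint2 measurableSet_Icc
    · intro r hr
      have hr0 : 0 < r := by linarith [hr.1]
      have h1 : XV μ x (τ / 2) ≤ XV μ x (τ / r) :=
        XV_mono μ x (by positivity) (div_le_div_of_nonneg_left hτ.le hr0 (hr.2.trans hb2))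
      have h2 : (1 : ℝ) ≤ r ^ d := one_le_pow₀ hr.1
      calc XV μ x (τ / 2) ≤ XV μ x (τ / r) := h1
        _ = 1 * XV μ x (τ / r) := (one_mul _).symm
        _ ≤ r ^ d * XV μ x (τ / r) := mul_le_mul_of_nonneg_right h2 (XV_nonneg μ x _)
    · exact integrableOn_const (by rw [Real.volume_Icc]; exact ENNReal.ofReal_ne_top)
  -- the function G
  have hmeas : Measurable fun u : E => |nD u x| :=
    (measurable_norm.comp (measurable_nD.comp (measurable_id.prodMk measurable_const)))
  have hG0 : ∀ u : E, 0 ≤ |nD u x| := fun u => abs_nonneg _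
  have hG1 : ∀ u : E, |nD u x| ≤ 1 := fun u => (nD_le u x).trans hx
  have hGint : ∀ s : Set E, μ s ≠ ⊤ → IntegrableOn (fun u : E => |nD u x|) s μ := by
    intro s hs
    refine Measure.integrableOn_of_bounded (M := 1) hs hmeas.aestronglyMeasurable ?_
    filter_upwards with u
    rw [Real.norm_eq_abs, abs_abs]
    exact hG1 u
  have hmeas' : Measurable fun u : E => |nD (u + τ • x) x| :=
    hmeas.comp (measurable_id.add_const _)
  -- the right side
  have hR : ∫ u in closedBall (0 : E) b, (volume.real (Icc 1 b ∩ Ico ‖u‖ ‖u + τ • x‖)) ∂μ ≤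
      ∫ u in closedBall (0 : E) b, τ * |nD (u + τ • x) x| ∂μ := by
    apply integral_mono_of_nonneg
    · filter_upwards with u
      exact measureReal_nonneg
    · apply Integrable.const_mul
      refine Measure.integrableOn_of_bounded (M := 1) measure_closedBall_lt_top.ne
        hmeas'.aestronglyMeasurable ?_
      filter_upwards with u
      rw [Real.norm_eq_abs, abs_abs]
      exact hG1 _
    · apply ae_restrict_of_ae
      have hae : ∀ᵐ u ∂μ, DifferentiableAt ℝ (fun v : E => ‖v‖) (u + τ • x) := by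
        have h1 := ae_diff (E := E) μ
        have h2 := (measurePreserving_add_right μ (τ • x)).quasiMeasurePreserving
        exact h2.ae h1
      filter_upwards [hae] with u hu
      have h1 := subgrad hu (-(τ • x))
      rw [add_neg_cancel_right, map_neg, map_smul, smul_eq_mul] at h1
      have h2 : nD (u + τ • x) x ≤ |nD (u + τ • x) x| := le_abs_self _
      have h3 : ‖u + τ • x‖ - ‖u‖ ≤ τ * |nD (u + τ • x) x| := by
        have := mul_le_mul_of_nonneg_left h2 hτ.le
        linarith
      have h4 : 0 ≤ τ * |nD (u + τ • x) x| := by positivity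
      calc volume.real (Icc 1 b ∩ Ico ‖u‖ ‖u + τ • x‖) ≤ volume.real (Ico ‖u‖ ‖u + τ • x‖) := by
            apply measureReal_mono (h₂ := ?_) inter_subset_right
            rw [Real.volume_Ico]; exact ENNReal.ofReal_ne_top
        _ = (ENNReal.ofReal (‖u + τ • x‖ - ‖u‖)).toReal := by
            rw [Measure.real, Real.volume_Ico]
        _ ≤ τ * |nD (u + τ • x) x| := by
            rw [ENNReal.toReal_ofReal']
            exact max_le h3 h4
  -- translation
  have hT : ∫ u in closedBall (0 : E) b, |nD (u + τ • x) x| ∂μ =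
      ∫ w in closedBall (τ • x) b, |nD w x| ∂μ := by
    rw [← integral_indicator measurableSet_closedBall, ← integral_indicator
      measurableSet_closedBall, ← integral_add_right_eq_self
      (fun w => (closedBall (τ • x) b).indicator (fun w : E => |nD w x|) w) (τ • x)]
    congr 1
    funext u
    by_cases h : u ∈ closedBall (0 : E) b
    · have h' : u + τ • x ∈ closedBall (τ • x) b := by
        rw [mem_closedBall, dist_eq_norm] at h ⊢
        simpa using h
      rw [indicator_of_mem h, indicator_of_mem h']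
    · have h' : u + τ • x ∉ closedBall (τ • x) b := by
        rw [mem_closedBall, dist_eq_norm] at h ⊢
        simpa using h
      rw [indicator_of_notMem h, indicator_of_notMem h']
  have hS : ∫ w in closedBall (τ • x) b, |nD w x| ∂μ ≤
      ∫ w in closedBall (0 : E) (1 + 2 / d), |nD w x| ∂μ := by
    apply setIntegral_mono_set (hGint _ measure_closedBall_lt_top.ne)
    · filter_upwards with u
      exact hG0 u
    · apply LE.le.eventuallyLE
      intro w hw
      rw [mem_closedBall, dist_eq_norm] at hw ⊢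
      have h1 : ‖τ • x‖ ≤ 1 / d := by
        rw [norm_smul, Real.norm_eq_abs, abs_of_pos hτ, le_div_iff₀ hd0]
        calc τ * ‖x‖ * d ≤ τ * 1 * d := by gcongr
          _ = τ * d := by ring
          _ ≤ 1 := hτd
      have h2 : ‖w - 0‖ ≤ ‖w - τ • x‖ + ‖τ • x‖ := by
        have := norm_add_le (w - τ • x) (τ • x)
        simpa using this
      have h3 : b + 1 / d = 1 + 2 / d := by rw [hb]; ring
      linarith
  have hH : ∫ w in closedBall (0 : E) (1 + 2 / d), |nD w x| ∂μ =
      (1 + 2 / (d : ℝ)) ^ d * ∫ w in closedBall (0 : E) 1, |nD w x| ∂μ := by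
    apply integral_ball_hom μ (F := fun w => |nD w x|)
    · intro c hc u
      show |nD (c • u) x| = |nD u x|
      rw [nD_smul hc]
    · positivity
  have hexp : (1 + 2 / (d : ℝ)) ^ d ≤ 8 := by
    have h1 : 1 + 2 / (d : ℝ) ≤ Real.exp (2 / d) := by
      have := Real.add_one_le_exp (2 / (d : ℝ))
      linarith
    have h2 : (1 + 2 / (d : ℝ)) ^ d ≤ Real.exp (2 / d) ^ d :=
      pow_le_pow_left₀ (by positivity) h1 d
    have h3 : Real.exp (2 / (d : ℝ)) ^ d = Real.exp 2 := by
      rw [← Real.exp_nat_mul]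
      congr 1
      field_simp
    have h4 : Real.exp 2 = Real.exp 1 * Real.exp 1 := by
      rw [← Real.exp_add]; norm_num
    have h5 := Real.exp_one_lt_d9
    have h6 := Real.exp_pos 1
    rw [h3, h4] at h2
    nlinarith
  have hI0 : 0 ≤ ∫ w in closedBall (0 : E) 1, |nD w x| ∂μ :=
    integral_nonneg fun u => hG0 u
  have key : 1 / (d : ℝ) * XV μ x (τ / 2) ≤
      τ * (8 * ∫ w in closedBall (0 : E) 1, |nD w x| ∂μ) := by
    calc 1 / (d : ℝ) * XV μ x (τ / 2) ≤ _ := hL
      _ = _ := hF
      _ ≤ _ := hR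
      _ = τ * ∫ u in closedBall (0 : E) b, |nD (u + τ • x) x| ∂μ := integral_const_mul _ _
      _ ≤ τ * (8 * ∫ w in closedBall (0 : E) 1, |nD w x| ∂μ) := by
        apply mul_le_mul_of_nonneg_left _ hτ.le
        rw [hT]
        refine hS.trans ?_
        rw [hH]
        exact mul_le_mul_of_nonneg_right hexp hI0
  have : XV μ x (τ / 2) = d * (1 / (d : ℝ) * XV μ x (τ / 2)) := by field_simp
  rw [this]
  calc (d : ℝ) * (1 / (d : ℝ) * XV μ x (τ / 2)) ≤
      d * (τ * (8 * ∫ w in closedBall (0 : E) 1, |nD w x| ∂μ)) :=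
        mul_le_mul_of_nonneg_left key hd0.le
    _ = 8 * d * τ * ∫ u in closedBall (0 : E) 1, |nD u x| ∂μ := by ring

end Pool.Agent.Lib.MP_5e7226_co.TH
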