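import Pool.Agent.Lib.MP_5e7226_co.TH.F2

/-!
# TH, Z1: tight sets and large values of the derivative of the norm
-/

set_option autoImplicit false
set_option linter.unusedSectionVars false

open MeasureTheory Set Module Metric

namespace Pool.Agent.Lib.MP_5e7226_co.TH

variable {E : Type} [NormedAddCommGroup E] [NormedSpace ℝ E] [FiniteDimensional ℝ E]
  [MeasurableSpace E] [BorelSpace E] (μ : Measure E) [μ.IsAddHaarMeasure]

/-- The probability that the derivative of the norm at a random point `w` of the ball is at least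
`1 / 4` (in absolute value) at an independent random point `v` of the ball. -/
noncomputable def Theta : ℝ :=
  M μ fun w : E => M μ ({v : E | 1 / 4 ≤ |nD w v|}.indicator fun _ => (1 : ℝ))

/-- The points `w` where the derivative in the direction `x` is large. -/
def Big (x : E) : Set E := {w : E | 1 / 2 < nD w x}

theorem measurable_Big (x : E) : MeasurableSet (Big x) :=
  measurableSet_lt measurable_const (Bd_nD (E := E) x).1

theorem abs_indicator_le (S : Set E) (v : E) : |S.indicator (fun _ => (1 : ℝ)) v| ≤ 1 := by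
  by_cases hv : v ∈ S
  · rw [indicator_of_mem hv]; simp
  · rw [indicator_of_notMem hv]; simp

/-- The inequality for the norm in the direction `x`. -/
theorem Z1_norm {x u : E} {γ η t δ : ℝ} (hx : ‖x‖ ≤ 1) (hu : ‖u‖ ≤ 1)
    (hγ : γ = (1 - δ) / 2) (hδ : 0 ≤ δ) (ht : t ≤ 1)
    (h : 1 - η < ‖(1 / 2 : ℝ) • x + γ • u‖) : 1 + t - (2 * η + δ) < ‖u + t • x‖ := by
  have h1 : u + x = (2 : ℝ) • ((1 / 2 : ℝ) • x + γ • u) + δ • u := by
    rw [hγ, smul_add, smul_smul, smul_smul]
    have e1 : (2 : ℝ) * (1 / 2) = 1 := by norm_num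
    have e2 : (2 : ℝ) * ((1 - δ) / 2) = 1 - δ := by ring
    rw [e1, e2, one_smul, sub_smul, one_smul]
    abel
  have h2 : 2 * ‖(1 / 2 : ℝ) • x + γ • u‖ - δ ≤ ‖u + x‖ := by
    rw [h1]
    have h3 := norm_sub_le_norm_add ((2 : ℝ) • ((1 / 2 : ℝ) • x + γ • u)) (δ • u)
    rw [norm_smul, norm_smul, Real.norm_eq_abs, Real.norm_eq_abs, abs_of_nonneg hδ] at h3
    have h4 : δ * ‖u‖ ≤ δ := mul_le_of_le_one_right hδ hu
    have h5 : |(2 : ℝ)| = 2 := by norm_num
    rw [h5] at h3
    linarith
  have h3 : u + x = (u + t • x) + (1 - t) • x := by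
    rw [sub_smul, one_smul]; abel
  have h4 : ‖u + x‖ ≤ ‖u + t • x‖ + (1 - t) := by
    rw [h3]
    refine (norm_add_le _ _).trans ?_
    rw [norm_smul, Real.norm_eq_abs, abs_of_nonneg (by linarith : (0 : ℝ) ≤ 1 - t)]
    have := mul_le_of_le_one_right (by linarith : (0 : ℝ) ≤ 1 - t) hx
    linarith
  linarith

/-- Translation: the mean of a nonnegative homogeneous function. -/
theorem M_shift_le {F : E → ℝ} (hF : Bd F) (hF0 : ∀ u, 0 ≤ F u)
    (hFh : ∀ c : ℝ, 0 < c → ∀ u, F (c • u) = F u) {x : E} (hx : ‖x‖ ≤ 1) {t : ℝ} (ht : 0 ≤ t) :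
    M μ (fun u => F (u + t • x)) ≤ (1 + t) ^ finrank ℝ E * M μ F := by
  have hint : IntegrableOn F (closedBall (0 : E) (1 + t)) μ := by
    obtain ⟨h1, C, hC⟩ := hF
    refine Measure.integrableOn_of_bounded (M := C) measure_closedBall_lt_top.ne
      h1.aestronglyMeasurable ?_
    filter_upwards [ae_restrict_mem measurableSet_closedBall] with u hu
    rw [Real.norm_eq_abs]
    have h2 := hFh (1 + t)⁻¹ (by positivity) u
    rw [← h2]
    refine hC _ ?_
    rw [norm_smul, norm_inv, Real.norm_eq_abs, abs_of_pos (by linarith), inv_mul_le_iff₀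
      (by linarith), mul_one]
    exact mem_closedBall_zero_iff.1 hu
  have h1 : ∫ u in closedBall (0 : E) 1, F (u + t • x) ∂μ ≤
      ∫ u in closedBall (0 : E) (1 + t), F u ∂μ := by
    rw [← integral_indicator measurableSet_closedBall, ← integral_indicator
      measurableSet_closedBall, ← integral_add_right_eq_self
      (fun u => (closedBall (0 : E) (1 + t)).indicator F u) (t • x)]
    refine integral_mono_of_nonneg (Filter.Eventually.of_forall fun u => ?_) ?_
      (Filter.Eventually.of_forall fun u => ?_)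
    · exact indicator_nonneg (fun _ _ => hF0 _) u
    · exact ((integrable_indicator_iff measurableSet_closedBall).2 hint).comp_add_right (t • x)
    · show (closedBall (0 : E) 1).indicator (fun u => F (u + t • x)) u ≤
        (closedBall (0 : E) (1 + t)).indicator F (u + t • x)
      by_cases hu : u ∈ closedBall (0 : E) 1
      · have hu2 : u + t • x ∈ closedBall (0 : E) (1 + t) := by
          rw [mem_closedBall_zero_iff] at hu ⊢
          refine (norm_add_le _ _).trans ?_
          rw [norm_smul, Real.norm_eq_abs, abs_of_nonneg ht]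
          have := mul_le_of_le_one_right ht hx
          linarith
        rw [indicator_of_mem hu, indicator_of_mem hu2]
      · rw [indicator_of_notMem hu]
        exact indicator_nonneg (fun _ _ => hF0 _) _
  rw [integral_ball_hom μ hFh (by linarith)] at h1
  unfold M
  calc (μ.real (closedBall (0 : E) 1))⁻¹ * ∫ u in closedBall (0 : E) 1, F (u + t • x) ∂μ
      ≤ (μ.real (closedBall (0 : E) 1))⁻¹ *
        ((1 + t) ^ finrank ℝ E * ∫ u in closedBall (0 : E) 1, F u ∂μ) :=
        mul_le_mul_of_nonneg_left h1 (inv_nonneg.2 (vol_pos μ).le)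
    _ = _ := by ring

/-- Most of the points of a tight set have almost additive norm with most `u`. -/
theorem Tight.sum_small {I : Finset E} {C : ℝ} (h : Tight I C)
    (hL : Real.log (8 * C) ≤ finrank ℝ E) :
    ∑ x ∈ I, M μ (fun u => (closedBall (0 : E) (1 - Real.log (8 * C) / finrank ℝ E)).indicator
      (fun _ => (1 : ℝ)) ((1 / 2 : ℝ) • x + ((1 - 1 / (finrank ℝ E : ℝ)) / 2) • u)) ≤
      I.card / 8 := by
  have hC : 1 ≤ C := h.one_le μ
  set L := Real.log (8 * C) with hLdef
  have hL2 : 0 ≤ L := Real.log_nonneg (by linarith)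
  have hd2 : (2 : ℝ) ≤ finrank ℝ E := by exact_mod_cast h.dim
  set d := finrank ℝ E with hddef
  have hd0 : (0 : ℝ) < d := by linarith
  set γ : ℝ := (1 - 1 / (d : ℝ)) / 2 with hγ
  set η : ℝ := L / d with hη
  have hη1 : η ≤ 1 := by
    rw [hη, div_le_one hd0]; linarith
  set B : Set E := closedBall (0 : E) (1 - η) with hB
  have hBm : MeasurableSet B := measurableSet_closedBall
  have hV := vol_pos (E := E) μ
  have hη0 : 0 ≤ η := by positivity
  have hmean : M μ (B.indicator fun _ => (1 : ℝ)) ≤ 1 / (8 * C) := by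
    rw [M_indicator μ hBm]
    have e1 : {u : E | ‖u‖ ≤ 1 ∧ u ∈ B} = closedBall (0 : E) (1 - η) := by
      ext u
      simp only [hB, mem_ofPred_eq, mem_closedBall_zero_iff]
      constructor
      · exact fun h => h.2
      · exact fun h => ⟨by linarith, h⟩
    rw [e1, Measure.addHaar_real_closedBall' μ 0 (by linarith : (0 : ℝ) ≤ 1 - η)]
    rw [mul_div_assoc, div_self hV.ne', mul_one]
    have e2 : 1 - η ≤ Real.exp (-η) := by
      have := Real.add_one_le_exp (-η)
      linarith
    calc (1 - η) ^ finrank ℝ E ≤ Real.exp (-η) ^ finrank ℝ E :=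
          pow_le_pow_left₀ (by linarith) e2 _
      _ = Real.exp (-L) := by
          rw [← Real.exp_nat_mul, ← hddef]
          congr 1
          rw [hη]
          field_simp
      _ = 1 / (8 * C) := by
          rw [Real.exp_neg, hLdef, Real.exp_log (by linarith)]
          simp
  have heq : ∀ x : E, M μ (fun u => B.indicator (fun _ => (1 : ℝ)) (-((1 / 2 : ℝ) • x) + γ • u)) =
      M μ (fun u => B.indicator (fun _ => (1 : ℝ)) ((1 / 2 : ℝ) • x + γ • u)) := by
    intro x
    rw [← M_neg μ (fun u => B.indicator (fun _ => (1 : ℝ)) (-((1 / 2 : ℝ) • x) + γ • u))]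
    congr 1
    funext u
    have e1 : -((1 / 2 : ℝ) • x) + γ • (-u) = -((1 / 2 : ℝ) • x + γ • u) := by
      rw [smul_neg]; abel
    rw [e1]
    by_cases hu : (1 / 2 : ℝ) • x + γ • u ∈ B
    · have hu' : -((1 / 2 : ℝ) • x + γ • u) ∈ B := by
        rw [hB, mem_closedBall_zero_iff] at hu ⊢
        rwa [norm_neg]
      rw [indicator_of_mem hu, indicator_of_mem hu']
    · have hu' : -((1 / 2 : ℝ) • x + γ • u) ∉ B := by
        rw [hB, mem_closedBall_zero_iff] at hu ⊢
        rwa [norm_neg]
      rw [indicator_of_notMem hu, indicator_of_notMem hu']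
  have hdens := h.density μ (Bd.indicator hBm) (fun v => by
    by_cases hv : v ∈ B
    · rw [indicator_of_mem hv]; norm_num
    · rw [indicator_of_notMem hv])
  have e1 : ∑ x ∈ I, (M μ (fun u => B.indicator (fun _ => (1 : ℝ)) ((1 / 2 : ℝ) • x + γ • u)) +
      M μ (fun u => B.indicator (fun _ => (1 : ℝ)) (-((1 / 2 : ℝ) • x) + γ • u))) =
      2 * ∑ x ∈ I,
        M μ (fun u => B.indicator (fun _ => (1 : ℝ)) ((1 / 2 : ℝ) • x + γ • u)) := by
    rw [Finset.mul_sum]
    refine Finset.sum_congr rfl fun x _ => ?_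
    rw [heq x]; ring
  have e2 : 2 * ∑ x ∈ I,
      M μ (fun u => B.indicator (fun _ => (1 : ℝ)) ((1 / 2 : ℝ) • x + γ • u)) ≤
      2 * C * I.card * (1 / (8 * C)) := by
    rw [← e1]
    refine hdens.trans ?_
    exact mul_le_mul_of_nonneg_left hmean (by positivity)
  have e3 : 2 * C * I.card * (1 / (8 * C)) = (I.card : ℝ) / 4 := by
    field_simp
    ring
  rw [e3] at e2
  linarith

/-- The derivative of the norm in the directions of a tight set is large with probability at least
`exp (- 4 L - 2)`. -/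
theorem Tight.sum_big {I : Finset E} {C : ℝ} (h : Tight I C)
    (hL : 4 * Real.log (8 * C) + 2 ≤ finrank ℝ E) :
    7 / 8 * (I.card : ℝ) ≤ Real.exp (4 * Real.log (8 * C) + 2) *
      ∑ x ∈ I, M μ ((Big x).indicator fun _ => (1 : ℝ)) := by
  have hC : 1 ≤ C := h.one_le μ
  set L := Real.log (8 * C) with hLdef
  have hL2 : 0 ≤ L := Real.log_nonneg (by linarith)
  have hd2 : (2 : ℝ) ≤ finrank ℝ E := by exact_mod_cast h.dim
  set d := finrank ℝ E with hddef
  have hd0 : (0 : ℝ) < d := by linarith
  set γ : ℝ := (1 - 1 / (d : ℝ)) / 2 with hγ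
  set η : ℝ := L / d with hη
  set t : ℝ := (4 * L + 2) / d with ht
  have ht0 : 0 < t := by positivity
  have ht1 : t ≤ 1 := by
    rw [ht, div_le_one hd0]
    exact hL
  have htη : 2 * η + 1 / d = t / 2 := by
    rw [hη, ht]
    field_simp
    ring
  have hsmall := h.sum_small μ (by linarith)
  rw [← hLdef, ← hddef, ← hη, ← hγ] at hsmall
  set B : Set E := closedBall (0 : E) (1 - η) with hB
  have hBm : MeasurableSet B := measurableSet_closedBall
  have hγ0 : 0 ≤ γ := by
    have : 1 / (d : ℝ) ≤ 1 := by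
      rw [div_le_one hd0]; linarith
    rw [hγ]; linarith
  have hFhom : ∀ x : E, ∀ c : ℝ, 0 < c → ∀ u,
      (Big x).indicator (fun _ => (1 : ℝ)) (c • u) = (Big x).indicator (fun _ => (1 : ℝ)) u := by
    intro x c hc u
    by_cases hu : u ∈ Big x
    · have hu' : c • u ∈ Big x := by
        show 1 / 2 < nD (c • u) x
        rw [nD_smul hc]
        exact hu
      rw [indicator_of_mem hu, indicator_of_mem hu']
    · have hu' : c • u ∉ Big x := by
        intro h1
        apply hu
        have h2 : 1 / 2 < nD (c • u) x := h1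
        rw [nD_smul hc] at h2
        exact h2
      rw [indicator_of_notMem hu, indicator_of_notMem hu']
  have hF0 : ∀ x u : E, 0 ≤ (Big x).indicator (fun _ => (1 : ℝ)) u := fun x u =>
    indicator_nonneg (fun _ _ => zero_le_one) u
  have hone : ∀ x ∈ I, 1 -
      M μ (fun u => B.indicator (fun _ => (1 : ℝ)) ((1 / 2 : ℝ) • x + γ • u)) ≤
      Real.exp (4 * L + 2) * M μ ((Big x).indicator fun _ => (1 : ℝ)) := by
    intro x hx
    have hx1 := h.norm_le x hx
    have hBdB : Bd fun u => B.indicator (fun _ => (1 : ℝ)) ((1 / 2 : ℝ) • x + γ • u) := by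
      exact ⟨(measurable_const.indicator hBm).comp (by fun_prop), 1,
        fun u _ => abs_indicator_le _ _⟩
    have hBdF : Bd fun u => (Big x).indicator (fun _ => (1 : ℝ)) (u + t • x) := by
      exact ⟨(measurable_const.indicator (measurable_Big x)).comp (by fun_prop), 1,
        fun u _ => abs_indicator_le _ _⟩
    have hae : ∀ᵐ u ∂μ, DifferentiableAt ℝ (fun v : E => ‖v‖) (u + t • x) :=
      (measurePreserving_add_right μ (t • x)).quasiMeasurePreserving.ae (ae_diff μ)
    have h1 : M μ (fun u => 1 -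
        B.indicator (fun _ => (1 : ℝ)) ((1 / 2 : ℝ) • x + γ • u)) ≤
        M μ (fun u => (Big x).indicator (fun _ => (1 : ℝ)) (u + t • x)) := by
      refine M_mono_ae μ ((Bd.const 1).sub hBdB) hBdF ?_
      filter_upwards [hae] with u hdiff hu
      by_cases hu2 : (1 / 2 : ℝ) • x + γ • u ∈ B
      · rw [indicator_of_mem hu2, sub_self]
        exact hF0 x _
      · have hu3 : 1 - η < ‖(1 / 2 : ℝ) • x + γ • u‖ := by
          rw [hB, mem_closedBall_zero_iff, not_le] at hu2
          exact hu2
        have h2 := Z1_norm hx1 hu hγ (by positivity) ht1 hu3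
        rw [htη] at h2
        have h3 := subgrad hdiff (-(t • x))
        rw [add_neg_cancel_right, map_neg, map_smul, smul_eq_mul] at h3
        have h4 : t * (1 / 2) < t * nD (u + t • x) x := by linarith
        have h5 : u + t • x ∈ Big x := by
          show 1 / 2 < nD (u + t • x) x
          exact lt_of_mul_lt_mul_left h4 ht0.le
        rw [indicator_of_notMem hu2, indicator_of_mem h5, sub_zero]
    rw [M_sub μ (Bd.const 1) hBdB, M_const] at h1
    refine h1.trans ((M_shift_le μ (Bd.indicator (measurable_Big x)) (hF0 x) (hFhom x) hx1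
      ht0.le).trans ?_)
    refine mul_le_mul_of_nonneg_right ?_ (M_nonneg μ fun u _ => hF0 x u)
    have h6 : 1 + t ≤ Real.exp t := by
      have := Real.add_one_le_exp t
      linarith
    calc (1 + t) ^ finrank ℝ E ≤ Real.exp t ^ finrank ℝ E :=
          pow_le_pow_left₀ (by linarith) h6 _
      _ = Real.exp (4 * L + 2) := by
          rw [← Real.exp_nat_mul, ← hddef]
          congr 1
          rw [ht]
          field_simp
  have hsum := Finset.sum_le_sum hone
  rw [Finset.sum_sub_distrib, Finset.sum_const, nsmul_eq_mul, mul_one, ← Finset.mul_sum] at hsum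
  linarith

/-- **Tight sets force large values of the derivative.** -/
theorem Tight.theta {I : Finset E} {C : ℝ} (h : Tight I C)
    (hL : 4 * Real.log (8 * C) + 2 ≤ finrank ℝ E) :
    7 / 8 ≤ Real.exp (4 * Real.log (8 * C) + 2) * (2 * C * Theta μ) := by
  have hI : 0 < (I.card : ℝ) := by exact_mod_cast h.nonempty.card_pos
  have h1 := h.sum_big μ hL
  have hS : ∀ w : E, MeasurableSet {v : E | 1 / 4 ≤ |nD w v|} := fun w =>
    measurableSet_le measurable_const (nL w).continuous_of_finiteDimensional.measurable.abs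
  have hw : ∀ w : E, ∑ x ∈ I, (Big x).indicator (fun _ => (1 : ℝ)) w ≤
      2 * C * I.card * M μ ({v : E | 1 / 4 ≤ |nD w v|}.indicator fun _ => (1 : ℝ)) := by
    intro w
    set S : Set E := {v : E | 1 / 4 ≤ |nD w v|} with hSdef
    have hS0 : ∀ v, 0 ≤ S.indicator (fun _ => (1 : ℝ)) v := fun v =>
      indicator_nonneg (fun _ _ => zero_le_one) v
    refine le_trans (Finset.sum_le_sum fun x hx => ?_)
      (h.density μ (Bd.indicator (hS w)) hS0)
    set γ : ℝ := (1 - 1 / (finrank ℝ E : ℝ)) / 2 with hγ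
    have hB1 : ∀ y : E, Bd fun u => S.indicator (fun _ => (1 : ℝ)) (y + γ • u) := by
      intro y
      exact ⟨(measurable_const.indicator (hS w)).comp (by fun_prop), 1,
        fun u _ => abs_indicator_le _ _⟩
    by_cases hbig : w ∈ Big x
    · rw [indicator_of_mem hbig, ← M_add μ (hB1 _) (hB1 _)]
      have hone : (1 : ℝ) = M μ (fun _ : E => (1 : ℝ)) := (M_const μ 1).symm
      refine hone.le.trans ?_
      refine M_mono μ (Bd.const 1) ((hB1 _).add (hB1 _)) fun u _ => ?_
      have hx2 : 1 / 2 < nD w x := hbig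
      have e1 : nD w ((1 / 2 : ℝ) • x + γ • u) = 1 / 2 * nD w x + γ * nD w u := by
        rw [map_add, map_smul, map_smul, smul_eq_mul, smul_eq_mul]
      have e2 : nD w (-((1 / 2 : ℝ) • x) + γ • u) = -(1 / 2 * nD w x) + γ * nD w u := by
        rw [map_add, map_neg, map_smul, map_smul, smul_eq_mul, smul_eq_mul]
      rcases le_or_gt 0 (γ * nD w u) with h0 | h0
      · have h2 : (1 / 2 : ℝ) • x + γ • u ∈ S := by
          show 1 / 4 ≤ |nD w ((1 / 2 : ℝ) • x + γ • u)|
          rw [e1]
          exact le_trans (by linarith) (le_abs_self _)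
        rw [indicator_of_mem h2]
        linarith [hS0 (-((1 / 2 : ℝ) • x) + γ • u)]
      · have h2 : -((1 / 2 : ℝ) • x) + γ • u ∈ S := by
          show 1 / 4 ≤ |nD w (-((1 / 2 : ℝ) • x) + γ • u)|
          rw [e2]
          exact le_trans (by linarith) (neg_le_abs _)
        rw [indicator_of_mem h2]
        linarith [hS0 ((1 / 2 : ℝ) • x + γ • u)]
    · rw [indicator_of_notMem hbig]
      exact add_nonneg (M_nonneg μ fun u _ => hS0 _) (M_nonneg μ fun u _ => hS0 _)
  have hBT : Bd fun w : E => M μ ({v : E | 1 / 4 ≤ |nD w v|}.indicator fun _ => (1 : ℝ)) := by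
    have hm : MeasurableSet {p : E × E | 1 / 4 ≤ |nD p.1 p.2|} :=
      measurableSet_le measurable_const measurable_nD.abs
    refine Bd.mean μ (F := fun w v => {v : E | 1 / 4 ≤ |nD w v|}.indicator (fun _ => (1 : ℝ)) v)
      ?_ (C := 1) ?_
    · have e : (fun p : E × E => {v : E | 1 / 4 ≤ |nD p.1 v|}.indicator (fun _ => (1 : ℝ)) p.2) =
          {p : E × E | 1 / 4 ≤ |nD p.1 p.2|}.indicator fun _ => (1 : ℝ) := by
        funext p
        by_cases hp : 1 / 4 ≤ |nD p.1 p.2|
        · rw [indicator_of_mem (show p.2 ∈ {v : E | 1 / 4 ≤ |nD p.1 v|} from hp),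
            indicator_of_mem (show p ∈ {p : E × E | 1 / 4 ≤ |nD p.1 p.2|} from hp)]
        · rw [indicator_of_notMem (show p.2 ∉ {v : E | 1 / 4 ≤ |nD p.1 v|} from hp),
            indicator_of_notMem (show p ∉ {p : E × E | 1 / 4 ≤ |nD p.1 p.2|} from hp)]
      rw [e]
      exact measurable_const.indicator hm
    · intro w v _ _
      by_cases hv : v ∈ {v : E | 1 / 4 ≤ |nD w v|}
      · rw [indicator_of_mem hv]; simp
      · rw [indicator_of_notMem hv]; simp
  have h2 : ∑ x ∈ I, M μ ((Big x).indicator fun _ => (1 : ℝ)) ≤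
      2 * C * I.card * Theta μ := by
    rw [← M_sum μ I fun x _ => Bd.indicator (measurable_Big x)]
    have h3 := M_mono μ (Bd.sum I fun x _ => Bd.indicator (measurable_Big x))
      ((Bd.const (2 * C * I.card)).mul hBT) fun w _ => hw w
    rw [M_mul_left] at h3
    exact h3
  have h3 : 7 / 8 * (I.card : ℝ) ≤
      Real.exp (4 * Real.log (8 * C) + 2) * (2 * C * I.card * Theta μ) :=
    h1.trans (mul_le_mul_of_nonneg_left h2 (Real.exp_pos _).le)
  have h4 : Real.exp (4 * Real.log (8 * C) + 2) * (2 * C * I.card * Theta μ) =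
      Real.exp (4 * Real.log (8 * C) + 2) * (2 * C * Theta μ) * I.card := by ring
  rw [h4] at h3
  exact le_of_mul_le_mul_right h3 hI

/-- The covering theorem in terms of `Theta`. -/
theorem theta_normed {d : ℕ} (hd : finrank ℝ E = d) (hd2 : 2 ≤ d) {L : ℝ}
    (hLd : 4 * L + 2 ≤ d) (hT : 3 * Real.exp (5 * L) * Theta μ < 1) :
    ∃ (k : ℕ) (w : Fin k → E),
      (k : ℝ) ≤ 32 * d * Real.log (9 * d) * 2 ^ d * Real.exp (-L) + 1 ∧
      ∀ x : E, ‖x‖ = 1 → ∃ i, ‖x - (1 / 2 : ℝ) • w i‖ ≤ 1 - 3 / (8 * d) := by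
  refine cover hd hd2 fun I hI => ?_
  have hlog : Real.log (8 * (Real.exp L / 8)) = L := by
    rw [mul_div_cancel₀ _ (by norm_num : (8 : ℝ) ≠ 0), Real.log_exp]
  have h2 := hI.theta μ (by rw [hlog, hd]; exact hLd)
  rw [hlog] at h2
  have h3 : Real.exp (4 * L + 2) * (2 * (Real.exp L / 8) * Theta μ) =
      Real.exp 2 / 4 * (Real.exp (5 * L) * Theta μ) := by
    rw [Real.exp_add, show (5 : ℝ) * L = 4 * L + L by ring, Real.exp_add]
    ring
  rw [h3] at h2
  have h4 : Real.exp 2 < 8 := by
    have h5 := Real.exp_one_lt_d9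
    have h6 : Real.exp 2 = Real.exp 1 ^ 2 := by
      rw [← Real.exp_nat_mul]
      norm_num
    rw [h6]
    nlinarith [Real.exp_pos 1]
  have h7 : 0 ≤ Theta μ := M_nonneg μ fun w _ => M_nonneg μ fun v _ =>
    indicator_nonneg (fun _ _ => zero_le_one) v
  have h8 : 0 ≤ Real.exp (5 * L) * Theta μ := by positivity
  nlinarith

end Pool.Agent.Lib.MP_5e7226_co.TH
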