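import Pool.Agent.Lib.MP_5e7226_co.TH.Z1

/-!
# TH, Z2: pointwise bounds for the second moments of the derivatives of the norm
-/

set_option autoImplicit false
set_option linter.unusedSectionVars false

open MeasureTheory Set Module Metric

namespace Pool.Agent.Lib.MP_5e7226_co.TH

section

variable {E : Type} [NormedAddCommGroup E] [NormedSpace ℝ E] [FiniteDimensional ℝ E]
  [MeasurableSpace E] [BorelSpace E] (μ : Measure E) [μ.IsAddHaarMeasure]

/-- The second moment of the derivative of the norm at `u`. -/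
noncomputable def sg (u : E) : ℝ := ip μ (nL u) (nL u)

theorem sg_eq (u : E) : sg μ u = M μ fun v => nD u v ^ 2 := by
  unfold sg ip
  congr 1
  funext v
  rw [nL_apply, sq]

theorem sg_nonneg (u : E) : 0 ≤ sg μ u := by
  rw [sg_eq]
  exact M_nonneg μ fun v _ => sq_nonneg _

theorem Bd_sg : Bd fun u : E => sg μ u := by
  unfold sg ip
  refine Bd.mean μ (F := fun u v => nL u v * nL u v) (C := 1 * 1) ?_ ?_
  · exact measurable_nD.mul measurable_nD
  · intro u v _ hv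
    rw [abs_mul]
    exact mul_le_mul ((nD_le u v).trans hv) ((nD_le u v).trans hv) (abs_nonneg _) zero_le_one

theorem sg_isom {h : E →ₗ[ℝ] E} (hh : ∀ v, ‖h v‖ = ‖v‖) (u : E) : sg μ (h u) = sg μ u := by
  rw [sg_eq, sg_eq, ← M_isom μ hh fun v => nD (h u) v ^ 2]
  congr 1
  funext v
  rw [nD_isom hh]

/-- Tails of a linear functional. -/
theorem Pr_tail (g : E →ₗ[ℝ] ℝ) {m : ℝ} (hm0 : 0 < m) (hm : M μ (fun v => |g v|) ≤ m) {a : ℝ}
    (ha : 0 < a) : M μ ({v : E | a ≤ |g v|}.indicator fun _ => (1 : ℝ)) ≤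
      2 * Real.exp (-(a / (32 * m))) := by
  by_cases hg : g = 0
  · have h1 : M μ ({v : E | a ≤ |g v|}.indicator fun _ => (1 : ℝ)) = M μ (fun _ => (0 : ℝ)) := by
      refine M_congr μ fun u _ => ?_
      rw [indicator_of_notMem]
      intro h
      have h2 : a ≤ |g u| := h
      rw [hg, LinearMap.zero_apply, abs_zero] at h2
      linarith
    rw [h1, M_const]
    positivity
  · set m' : ℝ := M μ fun v => |g v| with hm'
    have hm'0 : 0 < m' := mean_pos μ hg
    obtain ⟨hgm, C, hC⟩ := Bd.lin g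
    have hms : MeasurableSet {v : E | a ≤ |g v|} := measurableSet_le measurable_const hgm.abs
    have hBF : Bd (fun u : E => Real.exp (|g u| / (32 * m'))) := by
      refine ⟨Real.measurable_exp.comp (hgm.abs.div_const _), Real.exp (C / (32 * m')),
        fun u hu => ?_⟩
      rw [abs_of_pos (Real.exp_pos _)]
      apply Real.exp_le_exp.2
      exact div_le_div_of_nonneg_right (hC u hu) (by positivity)
    have h1 : M μ (fun u => Real.exp (a / (32 * m)) *
        {v : E | a ≤ |g v|}.indicator (fun _ => (1 : ℝ)) u) ≤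
        M μ (fun u => Real.exp (|g u| / (32 * m'))) := by
      refine M_mono μ ((Bd.const _).mul (Bd.indicator hms)) hBF fun u _ => ?_
      by_cases hu : u ∈ {v : E | a ≤ |g v|}
      · rw [indicator_of_mem hu, mul_one]
        apply Real.exp_le_exp.2
        have h2 : a ≤ |g u| := hu
        exact div_le_div₀ (abs_nonneg _) h2 (by positivity) (by linarith)
      · rw [indicator_of_notMem hu, mul_zero]
        exact (Real.exp_pos _).le
    rw [M_mul_left] at h1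
    have h2 := h1.trans (exp_moment μ hg)
    rw [Real.exp_neg, ← div_eq_mul_inv, le_div_iff₀ (Real.exp_pos _)]
    linarith

/-- If the second moments of the derivatives of the norm are small, `Theta` is small. -/
theorem Theta_le {s : ℝ} (hs : 0 < s) (h : ∀ᵐ u ∂μ, ‖u‖ ≤ 1 → sg μ u ≤ s ^ 2) :
    Theta μ ≤ 2 * Real.exp (-(1 / (128 * s))) := by
  have hBT : Bd fun w : E => M μ ({v : E | 1 / 4 ≤ |nD w v|}.indicator fun _ => (1 : ℝ)) := by
    have hm : MeasurableSet {p : E × E | 1 / 4 ≤ |nD p.1 p.2|} :=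
      measurableSet_le measurable_const measurable_nD.abs
    refine Bd.mean μ (F := fun w v => {v : E | 1 / 4 ≤ |nD w v|}.indicator (fun _ => (1 : ℝ)) v)
      ?_ (C := 1) fun w v _ _ => abs_indicator_le _ _
    have e : (fun p : E × E => {v : E | 1 / 4 ≤ |nD p.1 v|}.indicator (fun _ => (1 : ℝ)) p.2) =
        {p : E × E | 1 / 4 ≤ |nD p.1 p.2|}.indicator fun _ => (1 : ℝ) := by
      funext p
      by_cases hp : 1 / 4 ≤ |nD p.1 p.2|
      · rw [indicator_of_mem (show p.2 ∈ {v : E | 1 / 4 ≤ |nD p.1 v|} from hp),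
          indicator_of_mem (show p ∈ {p : E × E | 1 / 4 ≤ |nD p.1 p.2|} from hp)]
      · rw [indicator_of_notMem (show p.2 ∉ {v : E | 1 / 4 ≤ |nD p.1 v|} from hp),
          indicator_of_notMem (show p ∉ {p : E × E | 1 / 4 ≤ |nD p.1 p.2|} from hp)]
    rw [e]
    exact measurable_const.indicator hm
  have h1 : Theta μ ≤ M μ fun _ => 2 * Real.exp (-(1 / (128 * s))) := by
    refine M_mono_ae μ hBT (Bd.const _) ?_
    filter_upwards [h] with u hu hu1
    have h2 := hu hu1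
    have h3 : M μ (fun v => |nL u v|) ≤ s := by
      have h4 := sq_M_le μ (Bd.lin (nL u)).abs
      have h5 : M μ (fun v => |nL u v| ^ 2) = sg μ u := by
        rw [sg_eq]
        congr 1
        funext v
        rw [sq_abs, nL_apply]
      rw [h5] at h4
      exact le_of_sq_le_sq (h4.trans h2) hs.le
    have h6 := Pr_tail μ (nL u) hs h3 (a := 1 / 4) (by norm_num)
    have h7 : (1 : ℝ) / 4 / (32 * s) = 1 / (128 * s) := by
      field_simp
      norm_num
    rw [h7] at h6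
    exact h6
  rwa [M_const] at h1

/-- The covering theorem for small second moments. -/
theorem flat_normed {d : ℕ} (hd : finrank ℝ E = d) (hd2 : 2 ≤ d) {L s : ℝ}
    (hLd : 4 * L + 2 ≤ d) (hs : 0 < s) (hLs : 5 * L + 2 ≤ 1 / (128 * s))
    (h : ∀ᵐ u ∂μ, ‖u‖ ≤ 1 → sg μ u ≤ s ^ 2) :
    ∃ (k : ℕ) (w : Fin k → E),
      (k : ℝ) ≤ 32 * d * Real.log (9 * d) * 2 ^ d * Real.exp (-L) + 1 ∧
      ∀ x : E, ‖x‖ = 1 → ∃ i, ‖x - (1 / 2 : ℝ) • w i‖ ≤ 1 - 3 / (8 * d) := by
  refine theta_normed μ hd hd2 hLd ?_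
  have h1 := Theta_le μ hs h
  have h2 : Real.exp (-(1 / (128 * s))) ≤ Real.exp (-(5 * L)) * Real.exp (-2) := by
    rw [← Real.exp_add]
    apply Real.exp_le_exp.2
    linarith
  have h3 : Real.exp (-2) < 1 / 6 := by
    rw [Real.exp_neg, inv_eq_one_div]
    refine one_div_lt_one_div_of_lt (by norm_num) ?_
    have h4 := Real.exp_one_gt_d9
    have h5 : Real.exp 2 = Real.exp 1 ^ 2 := by
      rw [← Real.exp_nat_mul]
      norm_num
    rw [h5]
    nlinarith
  have h4 : Real.exp (5 * L) * Real.exp (-(5 * L)) = 1 := by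
    rw [← Real.exp_add]
    simp
  calc 3 * Real.exp (5 * L) * Theta μ
      ≤ 3 * Real.exp (5 * L) * (2 * (Real.exp (-(5 * L)) * Real.exp (-2))) := by
        refine mul_le_mul_of_nonneg_left ?_ (by positivity)
        linarith
    _ = 6 * (Real.exp (5 * L) * Real.exp (-(5 * L))) * Real.exp (-2) := by ring
    _ = 6 * Real.exp (-2) := by rw [h4, mul_one]
    _ < 1 := by linarith

/-- The weighted form. -/
noncomputable def QW (ω : E → ℝ) (a b : E →ₗ[ℝ] ℝ) : ℝ :=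
  M μ fun u => ω u * (ip μ (nL u) a * ip μ (nL u) b)

theorem exists_QW_form {ω : E → ℝ} (hω : Bd ω) :
    ∃ B : (E →ₗ[ℝ] ℝ) →ₗ[ℝ] (E →ₗ[ℝ] ℝ) →ₗ[ℝ] ℝ, ∀ f g, B f g = QW μ ω f g := by
  obtain ⟨P, hP⟩ := exists_ip_form (E := E) μ
  have hadd : ∀ u a b, ip μ (nL u) (a + b) = ip μ (nL u) a + ip μ (nL u) b := by
    intro u a b
    rw [← hP, ← hP, ← hP, map_add]
  have hsmul : ∀ u (c : ℝ) a, ip μ (nL u) (c • a) = c * ip μ (nL u) a := by
    intro u c a
    rw [← hP, ← hP, map_smul, smul_eq_mul]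
  have hB : ∀ f g, Bd fun u => ω u * (ip μ (nL u) f * ip μ (nL u) g) := fun f g =>
    hω.mul ((Bd_ip μ f).mul (Bd_ip μ g))
  refine ⟨LinearMap.mk₂ ℝ (fun f g => QW μ ω f g) ?_ ?_ ?_ ?_, fun f g => rfl⟩
  · intro f f' g
    unfold QW
    have e : (fun u => ω u * (ip μ (nL u) (f + f') * ip μ (nL u) g)) =
        fun u => ω u * (ip μ (nL u) f * ip μ (nL u) g) +
          ω u * (ip μ (nL u) f' * ip μ (nL u) g) := by
      funext u; rw [hadd]; ring
    rw [e, M_add μ (hB f g) (hB f' g)]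
  · intro c f g
    unfold QW
    have e : (fun u => ω u * (ip μ (nL u) (c • f) * ip μ (nL u) g)) =
        fun u => c * (ω u * (ip μ (nL u) f * ip μ (nL u) g)) := by
      funext u; rw [hsmul]; ring
    rw [e, M_mul_left, smul_eq_mul]
  · intro f g g'
    unfold QW
    have e : (fun u => ω u * (ip μ (nL u) f * ip μ (nL u) (g + g'))) =
        fun u => ω u * (ip μ (nL u) f * ip μ (nL u) g) +
          ω u * (ip μ (nL u) f * ip μ (nL u) g') := by
      funext u; rw [hadd]; ring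
    rw [e, M_add μ (hB f g) (hB f g')]
  · intro c f g
    unfold QW
    have e : (fun u => ω u * (ip μ (nL u) f * ip μ (nL u) (c • g))) =
        fun u => c * (ω u * (ip μ (nL u) f * ip μ (nL u) g)) := by
      funext u; rw [hsmul]; ring
    rw [e, M_mul_left, smul_eq_mul]

theorem sum_QW_le {ω : E → ℝ} (hω : Bd ω) (hω0 : ∀ u, 0 ≤ ω u) {n : ℕ}
    (g : Fin n → (E →ₗ[ℝ] ℝ)) (hg : ∀ i j, ip μ (g i) (g j) = if i = j then 1 else 0) :
    ∑ j, QW μ ω (g j) (g j) ≤ M μ fun u => ω u * sg μ u := by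
  obtain ⟨P, hP⟩ := exists_ip_form (E := E) μ
  have hPs : ∀ a b, P a b = P b a := fun a b => by rw [hP, hP, ip_symm]
  have hP0 : ∀ a, 0 ≤ P a a := by
    intro a
    rw [hP]
    exact M_nonneg μ fun u _ => mul_self_nonneg _
  have hbes : ∀ u : E, ∑ j, ip μ (nL u) (g j) * ip μ (nL u) (g j) ≤ sg μ u := by
    intro u
    have h := bessel P hPs hP0 g (fun i j => by rw [hP]; exact hg i j) (nL u)
    rw [hP] at h
    refine le_trans (le_of_eq ?_) h
    refine Finset.sum_congr rfl fun j _ => ?_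
    rw [hP, sq]
  have hBdj : ∀ j ∈ (Finset.univ : Finset (Fin n)),
      Bd fun u => ω u * (ip μ (nL u) (g j) * ip μ (nL u) (g j)) :=
    fun j _ => hω.mul ((Bd_ip μ (g j)).mul (Bd_ip μ (g j)))
  have e1 : ∑ j, QW μ ω (g j) (g j) =
      M μ fun u => ∑ j, ω u * (ip μ (nL u) (g j) * ip μ (nL u) (g j)) := by
    rw [M_sum μ Finset.univ hBdj]
    rfl
  rw [e1]
  refine M_mono μ (Bd.sum Finset.univ hBdj) (hω.mul (Bd_sg μ)) fun u _ => ?_
  rw [← Finset.mul_sum]
  exact mul_le_mul_of_nonneg_left (hbes u) (hω0 u)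

theorem QW_isom {ω : E → ℝ} {h : E →ₗ[ℝ] E} (hh : ∀ v, ‖h v‖ = ‖v‖)
    (hω : ∀ u, ω (h u) = ω u) (f g : E →ₗ[ℝ] ℝ) :
    QW μ ω (f ∘ₗ h) (g ∘ₗ h) = QW μ ω f g := by
  have key : ∀ (a : E →ₗ[ℝ] ℝ) (u : E), ip μ (nL u) (a ∘ₗ h) = ip μ (nL (h u)) a := by
    intro a u
    have h1 : (fun v => nL u v * (a ∘ₗ h) v) =
        fun v => (fun z => nL (h u) z * a z) (h v) := by
      funext v
      change nD u v * a (h v) = nD (h u) (h v) * a (h v)
      rw [nD_isom hh]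
    unfold ip
    rw [h1]
    exact M_isom μ hh fun z => nL (h u) z * a z
  unfold QW
  have h1 : (fun u => ω u * (ip μ (nL u) (f ∘ₗ h) * ip μ (nL u) (g ∘ₗ h))) =
      fun u => (fun w => ω w * (ip μ (nL w) f * ip μ (nL w) g)) (h u) := by
    funext u
    change _ = ω (h u) * (ip μ (nL (h u)) f * ip μ (nL (h u)) g)
    rw [hω, key, key]
  rw [h1]
  exact M_isom μ hh fun w => ω w * (ip μ (nL w) f * ip μ (nL w) g)

theorem kappaW [Nontrivial E] {ω : E → ℝ} (hω : Bd ω) (hω0 : ∀ u, 0 ≤ ω u)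
    (hωi : ∀ h : E →ₗ[ℝ] E, (∀ v, ‖h v‖ = ‖v‖) → ∀ u, ω (h u) = ω u) {r : ℕ}
    (hr : ∀ V : Submodule ℝ (E →ₗ[ℝ] ℝ), V ≠ ⊥ →
      (∀ h : E →ₗ[ℝ] E, (∀ v, ‖h v‖ = ‖v‖) → ∀ f ∈ V, f ∘ₗ h ∈ V) → r ≤ finrank ℝ V) :
    ∃ κ : ℝ, 0 ≤ κ ∧ (∀ a, QW μ ω a a ≤ κ * ip μ a a) ∧
      κ * r ≤ M μ fun u => ω u * sg μ u := by
  obtain ⟨P, hP⟩ := exists_ip_form (E := E) μ
  obtain ⟨B, hB⟩ := exists_QW_form μ hω
  have hnt : Nontrivial (E →ₗ[ℝ] ℝ) := by
    obtain ⟨x, hx⟩ := exists_ne (0 : E)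
    by_contra hcon
    rw [not_nontrivial_iff_subsingleton] at hcon
    apply hx
    rw [← Module.forall_dual_apply_eq_zero_iff ℝ x]
    intro φ
    have h1 : φ = 0 := Subsingleton.elim (α := E →ₗ[ℝ] ℝ) _ _
    rw [h1]
    rfl
  obtain ⟨κ, h0, h1, h2⟩ := exists_kappa' P B
    (fun a b => by rw [hP, hP, ip_symm])
    (fun a ha => by rw [hP]; exact ip_pos μ ha)
    (fun a => by
      rw [hB]
      exact M_nonneg μ fun u _ => mul_nonneg (hω0 u) (mul_self_nonneg _))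
    (T := M μ fun u => ω u * sg μ u)
    (fun n g hg => by
      simp only [hB]
      refine sum_QW_le μ hω hω0 g fun i j => ?_
      rw [← hP]
      exact hg i j)
    {φ | ∃ h : E →ₗ[ℝ] E, (∀ v, ‖h v‖ = ‖v‖) ∧ ∀ f, φ f = f ∘ₗ h}
    (by
      rintro φ ⟨h, hh, hφ⟩ a
      rw [hφ, hP, hP, hB, hB]
      exact ⟨(ip_isom μ hh a a).1, QW_isom μ hh (hωi h hh) a a⟩) (r := r)
    (by
      intro V hV hinv
      refine hr V hV fun h hh f hf => ?_
      exact hinv (LinearMap.dualMap h) ⟨h, hh, fun f => rfl⟩ f hf)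
  exact ⟨κ, h0, fun a => by rw [← hB, ← hP]; exact h1 a, h2⟩

/-- The coordinates of an outer ellipsoid. -/
theorem exists_coords {ι' : Type} [Fintype ι'] {Q : ℝ}
    (A : E ≃ₗ[ℝ] EuclideanSpace ℝ ι') (hA : ∀ v, ‖v‖ ≤ ‖A v‖)
    (hQ : M μ (fun v => ‖A v‖ ^ 2) ≤ Q) :
    ∃ a : ι' → (E →ₗ[ℝ] ℝ), (∑ i, ip μ (a i) (a i) ≤ Q) ∧
      ∀ u, sg μ u ^ 2 ≤ ∑ i, ip μ (nL u) (a i) * ip μ (nL u) (a i) := by
  classical
  let ε : ι' → EuclideanSpace ℝ ι' := fun i => EuclideanSpace.single i (1 : ℝ)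
  let a : ι' → (E →ₗ[ℝ] ℝ) := fun i =>
    (EuclideanSpace.proj i : EuclideanSpace ℝ ι' →L[ℝ] ℝ).toLinearMap ∘ₗ A.toLinearMap
  have ha : ∀ i v, a i v = (A v) i := fun i v => rfl
  let c : E → ι' → ℝ := fun u i => nD u (A.symm (ε i))
  have hsum : ∀ y : EuclideanSpace ℝ ι', y = ∑ i, y i • ε i := by
    intro y
    ext j
    simp [ε, Finset.sum_apply, Pi.single_apply]
  have hexp : ∀ u v, nD u v = ∑ i, c u i * a i v := by
    intro u v
    have h1 : v = A.symm (A v) := (A.symm_apply_apply v).symm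
    conv_lhs => rw [h1, hsum (A v), map_sum, map_sum]
    refine Finset.sum_congr rfl fun i _ => ?_
    rw [map_smul, map_smul, smul_eq_mul, ha, mul_comm]
  have hc : ∀ u, ∑ i, c u i ^ 2 ≤ 1 := by
    intro u
    obtain ⟨y, hy⟩ : ∃ y : EuclideanSpace ℝ ι', y = ∑ i, c u i • ε i := ⟨_, rfl⟩
    have hyi : ∀ i, y i = c u i := by
      intro i
      rw [hy]
      simp [ε, Finset.sum_apply, Pi.single_apply]
    have h1 : ‖y‖ ^ 2 = ∑ i, c u i ^ 2 := by
      rw [EuclideanSpace.norm_sq_eq]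
      refine Finset.sum_congr rfl fun i _ => ?_
      rw [hyi, Real.norm_eq_abs, sq_abs]
    have h2 : nD u (A.symm y) = ∑ i, c u i ^ 2 := by
      rw [hy, map_sum, map_sum]
      refine Finset.sum_congr rfl fun i _ => ?_
      rw [map_smul, map_smul, smul_eq_mul, sq]
    have h3 : ‖y‖ ^ 2 ≤ ‖y‖ := by
      rw [h1, ← h2]
      refine (le_abs_self _).trans ((nD_le u _).trans ((hA _).trans (le_of_eq ?_)))
      rw [A.apply_symm_apply]
    rw [← h1]
    rcases eq_or_lt_of_le (norm_nonneg y) with h4 | h4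
    · rw [← h4]
      norm_num
    · have h5 : ‖y‖ ≤ 1 := by
        rw [sq] at h3
        have h6 : ‖y‖ * ‖y‖ ≤ 1 * ‖y‖ := by linarith
        exact le_of_mul_le_mul_right h6 h4
      exact pow_le_one₀ (norm_nonneg y) h5
  refine ⟨a, ?_, fun u => ?_⟩
  · unfold ip
    rw [← M_sum μ _ fun i _ => (Bd.lin (a i)).mul (Bd.lin (a i))]
    refine le_trans (le_of_eq ?_) hQ
    refine M_congr μ fun v _ => ?_
    rw [EuclideanSpace.norm_sq_eq]
    refine Finset.sum_congr rfl fun i _ => ?_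
    rw [ha, Real.norm_eq_abs, sq_abs, sq]
  · have hinner : sg μ u = ∑ i, c u i * ip μ (nL u) (a i) := by
      have h1 : (fun v => nL u v * nL u v) = fun v => ∑ i, c u i * (nL u v * a i v) := by
        funext v
        rw [nL_apply]
        nth_rewrite 2 [hexp u v]
        rw [Finset.mul_sum]
        refine Finset.sum_congr rfl fun i _ => ?_
        ring
      unfold sg
      unfold ip
      rw [h1, M_sum μ _ fun i _ => (Bd.const (c u i)).mul ((Bd.lin (nL u)).mul (Bd.lin (a i)))]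
      refine Finset.sum_congr rfl fun i _ => ?_
      rw [M_mul_left]
    rw [hinner]
    have hcs := Finset.sum_mul_sq_le_sq_mul_sq Finset.univ (c u) fun i => ip μ (nL u) (a i)
    refine hcs.trans ?_
    have h2 : 0 ≤ ∑ i, ip μ (nL u) (a i) ^ 2 := Finset.sum_nonneg fun i _ => sq_nonneg _
    have h3 := mul_le_mul_of_nonneg_right (hc u) h2
    rw [one_mul] at h3
    refine h3.trans (le_of_eq ?_)
    refine Finset.sum_congr rfl fun i _ => ?_
    rw [sq]

/-- **Many symmetries**: the second moments of the derivatives of the norm are small at almost all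
points. -/
theorem ae_sg_le {ι' : Type} [Fintype ι'] [Nontrivial E] {r : ℕ} (hr0 : 0 < r)
    (hr : ∀ V : Submodule ℝ (E →ₗ[ℝ] ℝ), V ≠ ⊥ →
      (∀ h : E →ₗ[ℝ] E, (∀ v, ‖h v‖ = ‖v‖) → ∀ f ∈ V, f ∘ₗ h ∈ V) → r ≤ finrank ℝ V) {Q : ℝ}
    (A : E ≃ₗ[ℝ] EuclideanSpace ℝ ι') (hA : ∀ v, ‖v‖ ≤ ‖A v‖)
    (hQ : M μ (fun v => ‖A v‖ ^ 2) ≤ Q) : ∀ᵐ u ∂μ, ‖u‖ ≤ 1 → sg μ u ≤ Q / r := by
  have hr1 : (0 : ℝ) < r := by exact_mod_cast hr0
  have hQ0 : 0 < Q := (mean_pos' μ A hA).trans_le hQ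
  set s : ℝ := Q / r with hs
  have hs0 : 0 < s := by positivity
  obtain ⟨hgm, C, hC⟩ := Bd_sg (E := E) μ
  let ω : E → ℝ := fun u => max (sg μ u - s) 0
  have hω : Bd ω := by
    refine ⟨(hgm.sub_const s).max measurable_const, C + s, fun u hu => ?_⟩
    have h1 := hC u hu
    have h2 := abs_le.1 h1
    have h3 : 0 ≤ C + s := by
      have := (abs_nonneg _).trans h1
      linarith
    show |max (sg μ u - s) 0| ≤ C + s
    rw [abs_of_nonneg (le_max_right _ _)]
    exact max_le (by linarith [h2.2]) h3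
  have hω0 : ∀ u, 0 ≤ ω u := fun u => le_max_right _ _
  obtain ⟨κ, hκ0, hκ, hκr⟩ := kappaW μ hω hω0 (fun h hh u => by
    show max (sg μ (h u) - s) 0 = max (sg μ u - s) 0
    rw [sg_isom μ hh]) hr
  obtain ⟨a, ha1, ha2⟩ := exists_coords μ A hA hQ
  have hBs : Bd fun u : E => sg μ u := Bd_sg μ
  have hBq : Bd fun u : E => sg μ u ^ 2 := hBs.pow 2
  have hBi : ∀ i, Bd fun u => ω u * (ip μ (nL u) (a i) * ip μ (nL u) (a i)) := fun i =>
    hω.mul ((Bd_ip μ (a i)).mul (Bd_ip μ (a i)))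
  have h1 : M μ (fun u => ω u * sg μ u ^ 2) ≤ ∑ i, QW μ ω (a i) (a i) := by
    have e1 : ∑ i, QW μ ω (a i) (a i) =
        M μ fun u => ∑ i, ω u * (ip μ (nL u) (a i) * ip μ (nL u) (a i)) := by
      rw [M_sum μ Finset.univ fun i _ => hBi i]
      rfl
    rw [e1]
    refine M_mono μ (hω.mul hBq) (Bd.sum Finset.univ fun i _ => hBi i) fun u _ => ?_
    rw [← Finset.mul_sum]
    exact mul_le_mul_of_nonneg_left (ha2 u) (hω0 u)
  have h2 : ∑ i, QW μ ω (a i) (a i) ≤ κ * Q := by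
    calc ∑ i, QW μ ω (a i) (a i) ≤ ∑ i, κ * ip μ (a i) (a i) :=
          Finset.sum_le_sum fun i _ => hκ (a i)
      _ = κ * ∑ i, ip μ (a i) (a i) := by rw [Finset.mul_sum]
      _ ≤ κ * Q := mul_le_mul_of_nonneg_left ha1 hκ0
  have h3 : κ * Q ≤ M μ fun u => s * (ω u * sg μ u) := by
    rw [M_mul_left]
    have h4 : κ * Q = s * (κ * r) := by
      rw [hs]
      field_simp
    rw [h4]
    exact mul_le_mul_of_nonneg_left hκr hs0.le
  have hF : Bd fun u => ω u ^ 2 * sg μ u := (hω.pow 2).mul hBs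
  have h5 : M μ (fun u => ω u ^ 2 * sg μ u) ≤ 0 := by
    have e2 : (fun u => ω u ^ 2 * sg μ u) =
        fun u => ω u * sg μ u ^ 2 - s * (ω u * sg μ u) := by
      funext u
      show max (sg μ u - s) 0 ^ 2 * sg μ u = max (sg μ u - s) 0 * sg μ u ^ 2 -
        s * (max (sg μ u - s) 0 * sg μ u)
      rcases le_total (sg μ u - s) 0 with h | h
      · rw [max_eq_right h]
        ring
      · rw [max_eq_left h]
        ring
    rw [e2, M_sub μ (hω.mul hBq) ((Bd.const s).mul (hω.mul hBs))]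
    linarith
  have hF0 : ∀ u, 0 ≤ ω u ^ 2 * sg μ u := fun u => mul_nonneg (sq_nonneg _) (sg_nonneg μ u)
  have h6 : ∫ u in closedBall (0 : E) 1, ω u ^ 2 * sg μ u ∂μ = 0 := by
    have h7 := vol_pos (E := E) μ
    unfold M at h5
    have h8 : 0 ≤ ∫ u in closedBall (0 : E) 1, ω u ^ 2 * sg μ u ∂μ :=
      integral_nonneg fun u => hF0 u
    by_contra hne
    have h9 : 0 < ∫ u in closedBall (0 : E) 1, ω u ^ 2 * sg μ u ∂μ := lt_of_le_of_ne h8 (Ne.symm hne)
    have h10 : 0 < (μ.real (closedBall (0 : E) 1))⁻¹ *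
      ∫ u in closedBall (0 : E) 1, ω u ^ 2 * sg μ u ∂μ := mul_pos (inv_pos.2 h7) h9
    linarith
  have h7 : (fun u => ω u ^ 2 * sg μ u) =ᵐ[μ.restrict (closedBall (0 : E) 1)] 0 :=
    (integral_eq_zero_iff_of_nonneg (fun u => hF0 u) (hF.integrable μ)).1 h6
  have h8 := (ae_restrict_iff' (μ := μ) measurableSet_closedBall).1 h7
  filter_upwards [h8] with u hu hu1
  have h9 : ω u ^ 2 * sg μ u = 0 := hu (mem_closedBall_zero_iff.2 hu1)
  by_contra hcon
  push Not at hcon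
  have h10 : 0 < ω u := by
    show 0 < max (sg μ u - s) 0
    exact lt_max_of_lt_left (by linarith)
  have h11 : 0 < sg μ u := hs0.trans hcon
  have h12 : 0 < ω u ^ 2 * sg μ u := by positivity
  linarith

end

end Pool.Agent.Lib.MP_5e7226_co.TH
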