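import Pool.Agent.Lib.MP_5e7226_co.TH.Z2
import Pool.Agent.Lib.MP_5e7226_co.TH.F6

/-!
# TH, Z3: large derivatives of the support function, flat directions: the theorems for bodies
-/

set_option autoImplicit false
set_option linter.unusedSectionVars false

open MeasureTheory Set Module Metric
open scoped InnerProductSpace

namespace Pool.Agent.Lib.MP_5e7226_co.TH

variable {d : ℕ} {K : Set (EuclideanSpace ℝ (Fin d))} {o : EuclideanSpace ℝ (Fin d)}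

/-- The probability of a large derivative of the support function. -/
noncomputable def bigD (K : Set (EuclideanSpace ℝ (Fin d))) (o : EuclideanSpace ℝ (Fin d)) : ℝ :=
  ⨍ u in polarSet K o, ⨍ v in polarSet K o,
    {v | 1 / 4 ≤ |fderiv ℝ (supp K o) u v|}.indicator (fun _ => (1 : ℝ)) v

theorem Theta_map {F : Type} [NormedAddCommGroup F] [NormedSpace ℝ F] [FiniteDimensional ℝ F]
    [MeasurableSpace F] [BorelSpace F] (e : EuclideanSpace ℝ (Fin d) ≃ₗ[ℝ] F)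
    (hs : ∀ v, ‖e v‖ = supp K o v) (hP : polarSet K o = {v | ‖e v‖ ≤ 1}) :
    Theta (Measure.map e (volume : Measure (EuclideanSpace ℝ (Fin d)))) = bigD K o := by
  unfold Theta bigD
  rw [M_map e hP]
  congr 1
  funext u
  rw [M_map e hP]
  congr 1
  funext v
  have h1 : (e v ∈ {v : F | 1 / 4 ≤ |nD (e u) v|}) ↔
      v ∈ {v : EuclideanSpace ℝ (Fin d) | 1 / 4 ≤ |fderiv ℝ (supp K o) u v|} := by
    show (1 / 4 ≤ |nD (e u) (e v)|) ↔ (1 / 4 ≤ |fderiv ℝ (supp K o) u v|)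
    rw [nD_map e hs]
  by_cases h : v ∈ {v : EuclideanSpace ℝ (Fin d) | 1 / 4 ≤ |fderiv ℝ (supp K o) u v|}
  · rw [indicator_of_mem h, indicator_of_mem (h1.2 h)]
  · rw [indicator_of_notMem h, indicator_of_notMem fun h2 => h (h1.1 h2)]

/-- Bodies with few large derivatives. -/
theorem body_theta (hd2 : 2 ≤ d) (hKk : IsCompact K) (ho : o ∈ interior K)
    (hsym : ∀ x ∈ K, (2 : ℝ) • o - x ∈ K) {L : ℝ} (hLd : 4 * L + 2 ≤ d)
    (hT : 3 * Real.exp (5 * L) * bigD K o < 1) :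
    ∃ (k : ℕ), (k : ℝ) ≤ 32 * d * Real.log (9 * d) * 2 ^ d * Real.exp (-L) + 1 ∧
      ∃ (w : Fin k → EuclideanSpace ℝ (Fin d)) (b : Fin k → ℝ),
      ∀ u x₀ : EuclideanSpace ℝ (Fin d), u ≠ 0 → x₀ ∈ K →
        (∀ y ∈ K, ⟪u, y⟫_ℝ ≤ ⟪u, x₀⟫_ℝ) →
          ∃ i, ⟪w i, o⟫_ℝ < b i ∧ ∀ x ∈ K, ⟪u, x⟫_ℝ = ⟪u, x₀⟫_ℝ → b i < ⟪w i, x⟫_ℝ := by
  obtain ⟨F, i1, i2, e, hs, h1, h2⟩ := exists_space hKk ho hsym
  have hfd : FiniteDimensional ℝ F := Module.Finite.equiv e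
  borelize F
  have hμ := haar_map e
  have hP := polar_eq e h1 h2
  have hd : finrank ℝ F = d := by
    rw [← e.finrank_eq]
    simp
  rw [← Theta_map e hs hP] at hT
  obtain ⟨k, w, hk, hw⟩ := theta_normed _ hd hd2 hLd hT
  exact ⟨k, hk, sep_of_cover (by omega) e h1 h2 w hw⟩

/-- Bodies without flat directions. -/
theorem body_flat2 (hd2 : 2 ≤ d) (hKc : Convex ℝ K) (hKk : IsCompact K) (ho : o ∈ interior K)
    (hsym : ∀ x ∈ K, (2 : ℝ) • o - x ∈ K) {L s : ℝ} (hLd : 4 * L + 2 ≤ d) (hs : 0 < s)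
    (hLs : 5 * L + 2 ≤ 1 / (128 * s))
    (hS : ∀ x ∈ K, ⨍ v in polarSet K o, ⟪v, x - o⟫_ℝ ^ 2 ≤ s ^ 2) :
    ∃ (k : ℕ), (k : ℝ) ≤ 32 * d * Real.log (9 * d) * 2 ^ d * Real.exp (-L) + 1 ∧
      ∃ (w : Fin k → EuclideanSpace ℝ (Fin d)) (b : Fin k → ℝ),
      ∀ u x₀ : EuclideanSpace ℝ (Fin d), u ≠ 0 → x₀ ∈ K →
        (∀ y ∈ K, ⟪u, y⟫_ℝ ≤ ⟪u, x₀⟫_ℝ) →
          ∃ i, ⟪w i, o⟫_ℝ < b i ∧ ∀ x ∈ K, ⟪u, x⟫_ℝ = ⟪u, x₀⟫_ℝ → b i < ⟪w i, x⟫_ℝ := by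
  obtain ⟨F, i1, i2, e, hs', h1, h2⟩ := exists_space hKk ho hsym
  have hfd : FiniteDimensional ℝ F := Module.Finite.equiv e
  borelize F
  have hμ := haar_map e
  have hP := polar_eq e h1 h2
  have hd : finrank ℝ F = d := by
    rw [← e.finrank_eq]
    simp
  have h3 : ∀ u : F, sg (Measure.map e (volume : Measure (EuclideanSpace ℝ (Fin d)))) u ≤
      s ^ 2 := by
    intro u
    obtain ⟨x, hx, hxe⟩ := exists_grad hKc hKk e h2 u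
    rw [sg_eq, M_map e hP]
    simp_rw [hxe]
    exact hS x hx
  obtain ⟨k, w, hk, hw⟩ := flat_normed _ hd hd2 hLd hs hLs
    (Filter.Eventually.of_forall fun u _ => h3 u)
  exact ⟨k, hk, sep_of_cover (by omega) e h1 h2 w hw⟩

/-- Many symmetries. -/
theorem body_sym2 (hd2 : 2 ≤ d) (hKk : IsCompact K) (ho : o ∈ interior K)
    (hsym : ∀ x ∈ K, (2 : ℝ) • o - x ∈ K) {r : ℕ} (hr0 : 0 < r)
    (hr : ∀ V : Submodule ℝ (EuclideanSpace ℝ (Fin d)), V ≠ ⊥ →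
      (∀ g : EuclideanSpace ℝ (Fin d) ≃ₗ[ℝ] EuclideanSpace ℝ (Fin d),
        (∀ x, o + x ∈ K ↔ o + g x ∈ K) → ∀ v ∈ V, g v ∈ V) → r ≤ finrank ℝ V)
    (A : EuclideanSpace ℝ (Fin d) →ₗ[ℝ] EuclideanSpace ℝ (Fin d))
    (hA : ∀ x ∈ K, ∀ v, ⟪v, x - o⟫_ℝ ≤ ‖A v‖) {L s : ℝ} (hLd : 4 * L + 2 ≤ d) (hs : 0 < s)
    (hLs : 5 * L + 2 ≤ 1 / (128 * s))
    (hQ : ⨍ v in polarSet K o, ‖A v‖ ^ 2 ≤ s ^ 2 * r) :
    ∃ (k : ℕ), (k : ℝ) ≤ 32 * d * Real.log (9 * d) * 2 ^ d * Real.exp (-L) + 1 ∧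
      ∃ (w : Fin k → EuclideanSpace ℝ (Fin d)) (b : Fin k → ℝ),
      ∀ u x₀ : EuclideanSpace ℝ (Fin d), u ≠ 0 → x₀ ∈ K →
        (∀ y ∈ K, ⟪u, y⟫_ℝ ≤ ⟪u, x₀⟫_ℝ) →
          ∃ i, ⟪w i, o⟫_ℝ < b i ∧ ∀ x ∈ K, ⟪u, x⟫_ℝ = ⟪u, x₀⟫_ℝ → b i < ⟪w i, x⟫_ℝ := by
  obtain ⟨F, i1, i2, e, hs', h1, h2⟩ := exists_space hKk ho hsym
  have hfd : FiniteDimensional ℝ F := Module.Finite.equiv e
  borelize F
  have hμ := haar_map e
  have hP := polar_eq e h1 h2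
  have hd : finrank ℝ F = d := by
    rw [← e.finrank_eq]
    simp
  have hnt : Nontrivial F := Module.nontrivial_of_finrank_pos (R := ℝ) (by omega)
  have hr1 : (0 : ℝ) < r := by exact_mod_cast hr0
  obtain ⟨A', hA1, hA2⟩ := outer_equiv e h2 A hA
  have h3 := ae_sg_le (Measure.map e (volume : Measure (EuclideanSpace ℝ (Fin d)))) hr0
    (sym_transfer e h1 h2 hr) A' hA2 (Q := s ^ 2 * r) (by
      rw [M_map e hP]
      simp_rw [hA1]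
      exact hQ)
  have h4 : s ^ 2 * (r : ℝ) / r = s ^ 2 := by
    field_simp
  rw [h4] at h3
  obtain ⟨k, w, hk, hw⟩ := flat_normed _ hd hd2 hLd hs hLs h3
  exact ⟨k, hk, sep_of_cover (by omega) e h1 h2 w hw⟩

/-- From `S` to `s`. -/
theorem exists_s {S L : ℝ} (hL : 0 < 5 * L + 2) (hS : 128 ^ 2 * (5 * L + 2) ^ 2 * S ≤ 1) :
    ∃ s : ℝ, 0 < s ∧ S ≤ s ^ 2 ∧ 5 * L + 2 ≤ 1 / (128 * s) := by
  refine ⟨1 / (128 * (5 * L + 2)), by positivity, ?_, ?_⟩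
  · rw [div_pow, one_pow, mul_pow, le_div_iff₀ (by positivity)]
    linarith
  · have h : 1 / (128 * (1 / (128 * (5 * L + 2)))) = 5 * L + 2 := by
      field_simp
    rw [h]

/-- Numerics. -/
theorem num3 {d : ℕ} (hd : 200 ≤ d) : 4 * (3 * Real.log d) + 2 ≤ d ∧
    128 * (5 * (3 * Real.log d) + 2) ≤ 2000 * Real.log d ∧ 0 < 5 * (3 * Real.log d) + 2 ∧
    Real.exp (5 * (3 * Real.log d)) = (d : ℝ) ^ 15 := by
  have hd' : (200 : ℝ) ≤ d := by exact_mod_cast hd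
  have hd0 : (0 : ℝ) < d := by linarith
  have hs0 : 0 < √(d : ℝ) := Real.sqrt_pos.2 hd0
  have hs2 : √(d : ℝ) ^ 2 = d := Real.sq_sqrt hd0.le
  have h4 : (4 : ℝ) ≤ Real.log d := by
    rw [Real.le_log_iff_exp_le hd0]
    have h5 : Real.exp 4 = Real.exp 1 ^ 4 := by
      rw [← Real.exp_nat_mul]
      norm_num
    rw [h5]
    have h6 := Real.exp_one_lt_d9
    calc Real.exp 1 ^ 4 ≤ 2.7182818286 ^ 4 := pow_le_pow_left₀ (Real.exp_pos _).le h6.le 4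
      _ ≤ 200 := by norm_num
      _ ≤ d := hd'
  have hlog : Real.log d ≤ d / 16 + 2 := by
    have h5 := Real.log_le_sub_one_of_pos (show (0 : ℝ) < d / 16 by positivity)
    rw [Real.log_div hd0.ne' (by norm_num)] at h5
    have h6 : Real.log 16 ≤ 3 := by
      have : Real.log 16 = 4 * Real.log 2 := by
        rw [← Real.log_rpow (by norm_num)]
        norm_num
      rw [this]
      have := Real.log_two_lt_d9
      linarith
    linarith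
  refine ⟨by linarith, by linarith, by linarith, ?_⟩
  have h5 : 5 * (3 * Real.log d) = Real.log ((d : ℝ) ^ 15) := by
    rw [Real.log_pow]
    push_cast
    ring
  rw [h5, Real.exp_log (by positivity)]

end Pool.Agent.Lib.MP_5e7226_co.TH
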